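import Pool.Agent.Y744.PCR.Fin
import Pool.Agent.H343R2.ZeroSide

/-! Montgomery's function as a cosine sum; pairing with test functions. -/

open MeasureTheory Filter Topology Real

namespace Pool.Agent.J4H67.OS

open H370 TH803TW Pool.Agent.Y744 Pool.Agent.Results.MP_103a5c_nt.BohrSetPairs

/-- Montgomery's weight -/
noncomputable def W (u : ℝ) : ℝ := 4 / (4 + u ^ 2)

lemma W_nonneg (u : ℝ) : 0 ≤ W u := by unfold W; positivity

lemma W_le (u : ℝ) : W u ≤ 1 := by
  unfold W
  rw [div_le_one (by positivity)]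
  nlinarith [sq_nonneg u]

lemma W_zero : W 0 = 1 := by unfold W; norm_num

/-- Montgomery's function, as a real cosine sum -/
noncomputable def Fr (T α : ℝ) : ℝ := (Xf T)⁻¹ * ∑ s ∈ Zt T, ∑ s' ∈ Zt T,
  mz s * mz s' * (W (s.im - s'.im) * Real.cos (Real.log T * (s.im - s'.im) * α))

lemma Fr_cont (T : ℝ) : Continuous (Fr T) := by
  unfold Fr
  refine continuous_const.mul ?_
  refine continuous_finset_sum _ fun s _ => continuous_finset_sum _ fun s' _ => ?_
  fun_prop

lemma Fr_even (T α : ℝ) : Fr T (-α) = Fr T α := by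
  unfold Fr
  congr 1
  refine Finset.sum_congr rfl fun s _ => Finset.sum_congr rfl fun s' _ => ?_
  rw [mul_neg, Real.cos_neg]

lemma Fr_int (T a b : ℝ) {ψ : ℝ → ℝ} (hψ : Continuous ψ) :
    ∫ α in a..b, ψ α * Fr T α = (Xf T)⁻¹ * ∑ s ∈ Zt T, ∑ s' ∈ Zt T,
      mz s * mz s' * (W (s.im - s'.im) *
        ∫ α in a..b, ψ α * Real.cos (Real.log T * (s.im - s'.im) * α)) := by
  have h1 : ∀ α, ψ α * Fr T α = (Xf T)⁻¹ * ∑ s ∈ Zt T, ∑ s' ∈ Zt T,
      mz s * mz s' * (W (s.im - s'.im) * (ψ α * Real.cos (Real.log T * (s.im - s'.im) * α))) := by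
    intro α
    unfold Fr
    rw [mul_left_comm, Finset.mul_sum]
    congr 1
    refine Finset.sum_congr rfl fun s _ => ?_
    rw [Finset.mul_sum]
    refine Finset.sum_congr rfl fun s' _ => ?_
    ring
  simp_rw [h1]
  rw [intervalIntegral.integral_const_mul, intervalIntegral.integral_finset_sum]
  · congr 1
    refine Finset.sum_congr rfl fun s _ => ?_
    rw [intervalIntegral.integral_finset_sum]
    · refine Finset.sum_congr rfl fun s' _ => ?_
      rw [intervalIntegral.integral_const_mul, intervalIntegral.integral_const_mul]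
    · intro s' _
      exact (by fun_prop : Continuous fun α => mz s * mz s' * (W (s.im - s'.im) *
        (ψ α * Real.cos (Real.log T * (s.im - s'.im) * α)))).intervalIntegrable _ _
  · intro s _
    exact (by fun_prop : Continuous fun α => ∑ s' ∈ Zt T, mz s * mz s' * (W (s.im - s'.im) *
        (ψ α * Real.cos (Real.log T * (s.im - s'.im) * α)))).intervalIntegrable _ _

lemma Z0_eq (T : ℝ) : H343.ZSide.Z0 T = Zt T := rfl

/-- `F ≥ 0` -/
lemma Fr_nonneg (hRH : RiemannHypothesis) {T : ℝ} (hT : 1 < T) (α : ℝ) : 0 ≤ Fr T α := by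
  have hZ : ∀ s ∈ H343.ZSide.Z0 T, 0 < s.re ∧ s.re < 1 := by
    intro s hs
    rw [Z0_eq, mem_Zt] at hs
    exact ⟨hs.1, hs.2.1⟩
  have h := H343.pair_W 1 (α * Real.log T) 0 one_pos le_rfl (H343.ZSide.Z0 T)
    H343.ZSide.mz hZ
  have h2 := h.2
  simp only [neg_zero, intervalIntegral.integral_same, mul_zero] at h2
  have hX := Xf_pos hT
  unfold Fr
  refine mul_nonneg (inv_nonneg.2 hX.le) ?_
  refine h2.trans (le_of_eq ?_)
  unfold H343.PPair
  rw [Complex.re_sum, Z0_eq]
  refine Finset.sum_congr rfl fun s hs => ?_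
  rw [Complex.re_sum]
  refine Finset.sum_congr rfl fun s' hs' => ?_
  rw [mem_Zt] at hs hs'
  have re_half : ∀ s : ℂ, s ∈ zset riemannZeta 0 T → s.re = 1 / 2 := by
    rintro s ⟨h1, h2, h3, h4, h5⟩
    refine hRH s h5 ?_ ?_
    · rintro ⟨n, hn⟩
      rw [hn] at h3
      simp at h3
    · intro h
      rw [h] at h3
      simp at h3
  have h1 := re_half s hs
  have h2 := re_half s' hs'
  have h3 : s + (starRingEnd ℂ) s' - 1 = Complex.I * ((s.im - s'.im : ℝ) : ℂ) := by
    apply Complex.ext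
    · simp [h1, h2]
      norm_num
    · simp
      ring
  have h4 : (4 : ℂ) - (Complex.I * ((s.im - s'.im : ℝ) : ℂ)) ^ 2 =
      4 + ((s.im - s'.im : ℝ) : ℂ) ^ 2 := by
    rw [mul_pow, Complex.I_sq]
    ring
  set x := s.im - s'.im with hx
  have e1 : ((α * Real.log T : ℝ) : ℂ) * (Complex.I * ((x : ℝ) : ℂ)) =
      ((Real.log T * x * α : ℝ) : ℂ) * Complex.I := by
    push_cast
    ring
  have e2 : (4 / (4 + (x : ℂ) ^ 2)) = ((W x : ℝ) : ℂ) := by
    unfold W
    push_cast
    ring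
  unfold H343.kW H343.ZSide.mz
  rw [h3, h4, e1, e2]
  have e3 : (((H370.mult riemannZeta s : ℝ) * (H370.mult riemannZeta s' : ℝ) : ℝ) : ℂ) *
      (Complex.exp (((Real.log T * x * α : ℝ) : ℂ) * Complex.I) * ((W x : ℝ) : ℂ)) =
      (((H370.mult riemannZeta s : ℝ) * (H370.mult riemannZeta s' : ℝ) * W x : ℝ) : ℂ) *
      Complex.exp (((Real.log T * x * α : ℝ) : ℂ) * Complex.I) := by
    push_cast
    ring
  rw [e3, Complex.re_ofReal_mul, Complex.exp_ofReal_mul_I_re]
  unfold mz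
  ring

end Pool.Agent.J4H67.OS
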