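import Mathlib

/-! Elementary integrals for the Fejér weight, and a partition lemma. -/

open MeasureTheory Filter Topology Real

namespace Pool.Agent.J4H67.OS

/-- the Fejér weight -/
noncomputable def RA (A α : ℝ) : ℝ := 1 - |α| / A

lemma RA_cont (A : ℝ) : Continuous (RA A) := by unfold RA; fun_prop

lemma RA_even (A α : ℝ) : RA A (-α) = RA A α := by unfold RA; rw [abs_neg]

lemma RA_le {A : ℝ} (hA : 0 < A) (α : ℝ) : RA A α ≤ 1 := by
  unfold RA
  have : 0 ≤ |α| / A := by positivity
  linarith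

lemma RA_nonneg {A : ℝ} (hA : 0 < A) {α : ℝ} (h : |α| ≤ A) : 0 ≤ RA A α := by
  unfold RA
  have : |α| / A ≤ 1 := by rw [div_le_one hA]; exact h
  linarith

lemma even_int {f : ℝ → ℝ} (hf : Continuous f) (he : ∀ x, f (-x) = f x) (A : ℝ) :
    ∫ α in (-A)..A, f α = 2 * ∫ α in (0 : ℝ)..A, f α := by
  rw [← intervalIntegral.integral_add_adjacent_intervals (a := -A) (b := 0) (c := A)
    (hf.intervalIntegrable _ _) (hf.intervalIntegrable _ _)]
  have h3 : ∫ α in (-A)..0, f α = ∫ α in (0 : ℝ)..A, f α := by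
    have := intervalIntegral.integral_comp_neg (a := 0) (b := A) f
    rw [neg_zero] at this
    rw [← this]
    exact intervalIntegral.integral_congr fun α _ => he α
  rw [h3]
  ring

lemma fejer_half {A : ℝ} (hA : 0 < A) {x : ℝ} (hx : x ≠ 0) :
    ∫ α in (0 : ℝ)..A, (1 - α / A) * Real.cos (x * α) = (1 - Real.cos (x * A)) / (A * x ^ 2) := by
  have hd : ∀ u ∈ Set.uIcc (0 : ℝ) A, HasDerivAt
      (fun u => (1 - u / A) * (Real.sin (x * u) / x) - Real.cos (x * u) / (A * x ^ 2))
      ((1 - u / A) * Real.cos (x * u)) u := by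
    intro u _
    have h1 : HasDerivAt (fun u : ℝ => x * u) x u := by
      simpa using (hasDerivAt_id u).const_mul x
    have h2 : HasDerivAt (fun u : ℝ => 1 - u / A) (-(1 / A)) u := by
      simpa using ((hasDerivAt_id u).div_const A).const_sub 1
    have h3 := (h2.mul (h1.sin.div_const x)).sub (h1.cos.div_const (A * x ^ 2))
    have e : -(1 / A) * (Real.sin (x * u) / x) + (1 - u / A) * (Real.cos (x * u) * x / x) -
        -Real.sin (x * u) * x / (A * x ^ 2) = (1 - u / A) * Real.cos (x * u) := by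
      field_simp
      ring
    rw [e] at h3
    exact h3
  rw [intervalIntegral.integral_eq_sub_of_hasDerivAt hd
    ((by fun_prop : Continuous fun u : ℝ => (1 - u / A) * Real.cos (x * u)).intervalIntegrable _ _)]
  rw [div_self hA.ne']
  simp
  ring

lemma fejer_nonneg {A : ℝ} (hA : 0 < A) (x : ℝ) :
    0 ≤ ∫ α in (-A)..A, RA A α * Real.cos (x * α) := by
  have hc : Continuous fun α => RA A α * Real.cos (x * α) := (RA_cont A).mul (by fun_prop)
  rw [even_int hc fun α => by rw [RA_even, mul_neg, Real.cos_neg]]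
  refine mul_nonneg (by norm_num) ?_
  have e : ∫ α in (0 : ℝ)..A, RA A α * Real.cos (x * α) =
      ∫ α in (0 : ℝ)..A, (1 - α / A) * Real.cos (x * α) := by
    refine intervalIntegral.integral_congr fun α hα => ?_
    rw [Set.uIcc_of_le hA.le] at hα
    show (1 - |α| / A) * _ = _
    rw [abs_of_nonneg hα.1]
  rw [e]
  rcases eq_or_ne x 0 with rfl | hx
  · refine intervalIntegral.integral_nonneg hA.le fun α hα => ?_
    rw [zero_mul, Real.cos_zero, mul_one, sub_nonneg, div_le_one hA]
    exact hα.2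
  · rw [fejer_half hA hx]
    have := Real.cos_le_one (x * A)
    have h2 : 0 < x ^ 2 := by positivity
    exact div_nonneg (by linarith) (by positivity)

lemma fejer_zero {A : ℝ} (hA : 0 < A) : ∫ α in (-A)..A, RA A α * Real.cos (0 * α) = A := by
  have hc : Continuous fun α => RA A α * Real.cos (0 * α) := (RA_cont A).mul (by fun_prop)
  rw [even_int hc fun α => by rw [RA_even, mul_neg, Real.cos_neg]]
  have e : ∫ α in (0 : ℝ)..A, RA A α * Real.cos (0 * α) = ∫ α in (0 : ℝ)..A, (1 - α / A) := by
    refine intervalIntegral.integral_congr fun α hα => ?_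
    rw [Set.uIcc_of_le hA.le] at hα
    show (1 - |α| / A) * Real.cos (0 * α) = _
    rw [abs_of_nonneg hα.1, zero_mul, Real.cos_zero, mul_one]
  rw [e, intervalIntegral.integral_sub (by simp) (by
    exact (by fun_prop : Continuous fun α : ℝ => α / A).intervalIntegrable _ _)]
  simp only [intervalIntegral.integral_const, intervalIntegral.integral_div, integral_id]
  simp
  field_simp
  ring

/-- the limit of `F` in `α > 0` -/
noncomputable def mm (α : ℝ) : ℝ := min α 1

lemma mm_cont : Continuous mm := by unfold mm; fun_prop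

lemma mm_le (α : ℝ) : mm α ≤ 1 := min_le_right _ _

lemma mm_nonneg {α : ℝ} (h : 0 ≤ α) : 0 ≤ mm α := le_min h zero_le_one

/-- `∫_a^A min(α, 1) (1 - α / A) dα` -/
lemma mm_int {a A : ℝ} (ha : 0 ≤ a) (ha1 : a ≤ 1) (hA : 1 ≤ A) :
    ∫ α in a..A, mm α * RA A α = A / 2 - 1 / 2 + 1 / (6 * A) - a ^ 2 / 2 + a ^ 3 / (3 * A) := by
  have hA0 : 0 < A := by linarith
  have hc : Continuous fun α => mm α * RA A α := mm_cont.mul (RA_cont A)
  rw [← intervalIntegral.integral_add_adjacent_intervals (a := a) (b := 1) (c := A)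
    (hc.intervalIntegrable _ _) (hc.intervalIntegrable _ _)]
  have e1 : ∫ α in a..1, mm α * RA A α = ∫ α in a..1, (α - α ^ 2 / A) := by
    refine intervalIntegral.integral_congr fun α hα => ?_
    rw [Set.uIcc_of_le ha1] at hα
    show min α 1 * (1 - |α| / A) = _
    rw [min_eq_left hα.2, abs_of_nonneg (ha.trans hα.1)]
    ring
  have e2 : ∫ α in (1 : ℝ)..A, mm α * RA A α = ∫ α in (1 : ℝ)..A, (1 - α / A) := by
    refine intervalIntegral.integral_congr fun α hα => ?_
    rw [Set.uIcc_of_le hA] at hα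
    show min α 1 * (1 - |α| / A) = _
    rw [min_eq_right hα.1, abs_of_nonneg (zero_le_one.trans hα.1)]
    ring
  rw [e1, e2, intervalIntegral.integral_sub (by exact continuous_id.intervalIntegrable _ _) (by
    exact (by fun_prop : Continuous fun α : ℝ => α ^ 2 / A).intervalIntegrable _ _),
    intervalIntegral.integral_sub (by simp) (by
    exact (by fun_prop : Continuous fun α : ℝ => α / A).intervalIntegrable _ _)]
  simp only [intervalIntegral.integral_const, intervalIntegral.integral_div, integral_id,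
    integral_pow]
  simp
  field_simp
  ring

/-- partition lemma: upper bounds for windows give upper bounds for decreasing weights -/
lemma part_up {f m g : ℝ → ℝ} (hf : Continuous f) (hm : Continuous m) (hg : Continuous g)
    {a b δ : ℝ} (hab : a ≤ b) (hf0 : ∀ x ∈ Set.Icc a b, 0 ≤ f x)
    (hm0 : ∀ x ∈ Set.Icc a b, 0 ≤ m x) (hm1 : ∀ x ∈ Set.Icc a b, m x ≤ 1)
    (hga : AntitoneOn g (Set.Icc a b)) (hg0 : ∀ x ∈ Set.Icc a b, 0 ≤ g x)
    (hg1 : ∀ x ∈ Set.Icc a b, g x ≤ 1) (hδ : 0 ≤ δ) (n : ℕ) (hn : 0 < n)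
    (h : ∀ i < n, ∫ x in (a + i * ((b - a) / n))..(a + (i + 1) * ((b - a) / n)), f x ≤
      (∫ x in (a + i * ((b - a) / n))..(a + (i + 1) * ((b - a) / n)), m x) + δ) :
    ∫ x in a..b, f x * g x ≤ (∫ x in a..b, m x * g x) + (b - a) / n + n * δ := by
  have hn0 : (0 : ℝ) < n := by exact_mod_cast hn
  set s : ℝ := (b - a) / n with hs
  have hs0 : 0 ≤ s := div_nonneg (by linarith) hn0.le
  set p : ℕ → ℝ := fun i => a + i * s with hp
  have hp0 : p 0 = a := by simp [hp]
  have hpn : p n = b := by
    simp only [hp, hs]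
    field_simp
    ring
  have hpm : ∀ i, p i ≤ p (i + 1) := by
    intro i
    simp only [hp]
    push_cast
    nlinarith
  have hpa : ∀ i, a ≤ p i := by
    intro i
    simp only [hp]
    have : (0 : ℝ) ≤ i := Nat.cast_nonneg i
    nlinarith
  have hpb : ∀ i ≤ n, p i ≤ b := by
    intro i hi
    rw [← hpn]
    simp only [hp]
    have : (i : ℝ) ≤ n := by exact_mod_cast hi
    nlinarith
  have hpi : ∀ i < n, p i ∈ Set.Icc a b := fun i hi => ⟨hpa i, hpb i hi.le⟩
  have hpi' : ∀ i < n, p (i + 1) ∈ Set.Icc a b := fun i hi => ⟨hpa _, hpb _ hi⟩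
  have hsum : ∀ φ : ℝ → ℝ, Continuous φ → ∫ x in a..b, φ x =
      ∑ i ∈ Finset.range n, ∫ x in (p i)..(p (i + 1)), φ x := by
    intro φ hφ
    rw [intervalIntegral.sum_integral_adjacent_intervals (fun i _ => hφ.intervalIntegrable _ _),
      hp0, hpn]
  rw [hsum (fun x => f x * g x) (hf.mul hg), hsum (fun x => m x * g x) (hm.mul hg)]
  have hstep : ∀ i ∈ Finset.range n, ∫ x in (p i)..(p (i + 1)), f x * g x ≤
      (∫ x in (p i)..(p (i + 1)), m x * g x) + (g (p i) - g (p (i + 1))) * s + δ := by
    intro i hi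
    rw [Finset.mem_range] at hi
    have hsub : ∀ x ∈ Set.Icc (p i) (p (i + 1)), x ∈ Set.Icc a b := fun x hx =>
      ⟨(hpa i).trans hx.1, hx.2.trans (hpb _ hi)⟩
    have h1 : ∫ x in (p i)..(p (i + 1)), f x * g x ≤ g (p i) * ∫ x in (p i)..(p (i + 1)), f x := by
      rw [← intervalIntegral.integral_const_mul]
      refine intervalIntegral.integral_mono_on (hpm i) ((hf.mul hg).intervalIntegrable _ _)
        ((continuous_const.mul hf).intervalIntegrable _ _) fun x hx => ?_
      rw [mul_comm]
      exact mul_le_mul_of_nonneg_right (hga (hpi i hi) (hsub x hx) hx.1) (hf0 x (hsub x hx))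
    have h2 : g (p (i + 1)) * ∫ x in (p i)..(p (i + 1)), m x ≤
        ∫ x in (p i)..(p (i + 1)), m x * g x := by
      rw [← intervalIntegral.integral_const_mul]
      refine intervalIntegral.integral_mono_on (hpm i) ((continuous_const.mul hm).intervalIntegrable _ _)
        ((hm.mul hg).intervalIntegrable _ _) fun x hx => ?_
      show g (p (i + 1)) * m x ≤ m x * g x
      rw [mul_comm]
      exact mul_le_mul_of_nonneg_left (hga (hsub x hx) (hpi' i hi) hx.2) (hm0 x (hsub x hx))
    have h3 : ∫ x in (p i)..(p (i + 1)), m x ≤ s := by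
      calc ∫ x in (p i)..(p (i + 1)), m x ≤ ∫ x in (p i)..(p (i + 1)), (1 : ℝ) :=
            intervalIntegral.integral_mono_on (hpm i) (hm.intervalIntegrable _ _)
              (by simp) fun x hx => hm1 x (hsub x hx)
        _ = s := by
            simp only [intervalIntegral.integral_const, smul_eq_mul, mul_one, hp]
            push_cast
            ring
    have h4 := h i hi
    have e1 : a + (i : ℝ) * s = p i := rfl
    have e2 : a + ((i : ℝ) + 1) * s = p (i + 1) := by
      simp only [hp]
      push_cast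
      ring
    rw [e1, e2] at h4
    have h5 := mul_le_mul_of_nonneg_left h4 (hg0 _ (hpi i hi))
    have h6 : g (p i) * δ ≤ δ := by
      have := hg1 _ (hpi i hi)
      nlinarith
    have h7 : 0 ≤ g (p i) - g (p (i + 1)) := by
      have := hga (hpi i hi) (hpi' i hi) (hpm i)
      linarith
    have h8 := mul_le_mul_of_nonneg_left h3 h7
    nlinarith
  refine (Finset.sum_le_sum hstep).trans ?_
  rw [Finset.sum_add_distrib, Finset.sum_add_distrib, ← Finset.sum_mul,
    Finset.sum_range_sub' (fun i => g (p i))]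
  simp only [Finset.sum_const, Finset.card_range, nsmul_eq_mul]
  have h9 : (g (p 0) - g (p n)) * s ≤ s := by
    have h10 : g (p 0) ≤ 1 := hg1 _ (by rw [hp0]; exact ⟨le_rfl, hab⟩)
    have h11 : 0 ≤ g (p n) := hg0 _ (by rw [hpn]; exact ⟨hab, le_rfl⟩)
    nlinarith
  linarith

end Pool.Agent.J4H67.OS
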