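import Pool.Agent.J4H67.OS.A
import Pool.Agent.J4H67.OS.P

/-! The Fejér lower bound, and the mass of `F` on `[-c, c]`, `c < 1`. -/

open MeasureTheory Filter Topology Real

namespace Pool.Agent.J4H67.OS

open H370 TH803TW Pool.Agent.Y744 Pool.Agent.Results.MP_103a5c_nt.BohrSetPairs

/-- the Fejér average is at least `A` times the diagonal -/
lemma fejer_diag {T : ℝ} (hT : 1 < T) {A : ℝ} (hA : 0 < A) :
    A * Aa T 0 ≤ ∫ α in (-A)..A, RA A α * Fr T α := by
  rw [Fr_int T _ _ (RA_cont A)]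
  unfold Aa PC
  have hX := Xf_pos hT
  have hL := Real.log_pos hT
  have hpi := Real.pi_pos
  rw [mul_left_comm]
  refine mul_le_mul_of_nonneg_left ?_ (inv_nonneg.2 hX.le)
  rw [Finset.mul_sum]
  refine Finset.sum_le_sum fun s _ => ?_
  rw [Finset.mul_sum]
  refine Finset.sum_le_sum fun s' _ => ?_
  have hm : 0 ≤ mz s * mz s' := mul_nonneg (mz_nonneg _) (mz_nonneg _)
  rw [mul_left_comm]
  refine mul_le_mul_of_nonneg_left ?_ hm
  by_cases h : s.im - s'.im = 0
  · rw [h, mul_zero, fejer_zero hA, W_zero, one_mul]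
    have : Set.indicator {x : ℝ | |x| ≤ 0} (fun _ => (1 : ℝ)) (dd T s s') ≤ 1 :=
      Set.indicator_le' (fun _ _ => le_rfl) (fun _ _ => zero_le_one) _
    nlinarith
  · rw [Set.indicator_of_notMem, mul_zero]
    · exact mul_nonneg (W_nonneg _) (fejer_nonneg hA _)
    · show ¬ |dd T s s'| ≤ 0
      rw [not_le, abs_pos]
      unfold dd
      have := hL.ne'
      positivity

/-- sums of `1 / (1 + y²)` over the pairs -/
lemma sum_inv (RH : RiemannHypothesis) : ∃ C T0 : ℝ, 0 ≤ C ∧ 20 ≤ T0 ∧ ∀ T : ℝ, T0 ≤ T →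
    ∑ s ∈ Zt T, ∑ s' ∈ Zt T, mz s * mz s' * (1 / (1 + (dd T s s') ^ 2)) ≤ C * Xf T := by
  obtain ⟨C, B0, V0, hC, hB0, hV0, hblk, hloc⟩ := PP_bound RH
  have hpi := Real.pi_pos
  refine ⟨3200 * (B0 + C) * (2 * π), V0, by positivity, hV0, fun T hT => ?_⟩
  have hT20 : 20 ≤ T := hV0.trans hT
  have hX := Xf_pos (V := T) (by linarith)
  have hL1 : 1 ≤ Real.log T := by
    rw [Real.le_log_iff_exp_le (by linarith)]
    linarith [Real.exp_one_lt_d9]
  have h1 := QS_abs_bound (x := fun s : ℂ => s.im) (Zt T) (Zt T) mz_nonneg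
    (f := fun y : ℝ => 1 / (1 + y ^ 2)) (K := 1) (fun y => by
      rw [abs_of_nonneg (by positivity)]) (Λ := Real.log T) (lam := 1) (by linarith) one_pos
  have h2 := hloc T hT (Real.log T) le_rfl
  have h3 : ∑ s ∈ Zt T, ∑ s' ∈ Zt T, mz s * mz s' * (1 / (1 + (dd T s s') ^ 2)) ≤
      ∑ s ∈ Zt T, ∑ s' ∈ Zt T, mz s * mz s' *
        |(fun y : ℝ => 1 / (1 + y ^ 2)) ((s.im - s'.im) * Real.log T / (2 * π))| := by
    refine Finset.sum_le_sum fun s _ => Finset.sum_le_sum fun s' _ => ?_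
    refine mul_le_mul_of_nonneg_left (le_abs_self _) (mul_nonneg (mz_nonneg _) (mz_nonneg _))
  refine h3.trans (h1.trans ?_)
  have h4 : 0 ≤ T * Real.log T := by nlinarith
  have h5 : B0 + C * (T * Real.log T) ≤ (B0 + C) * (T * Real.log T) := by
    have : 1 ≤ T * Real.log T := by nlinarith
    nlinarith
  have h6 : (B0 + C) * (T * Real.log T) = (B0 + C) * (2 * π) * Xf T := by
    unfold Xf
    field_simp
  rw [div_one, one_mul]
  linarith

variable {κ : ℝ} {K : ℝ → ℝ} {h : ℝ}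

/-- Montgomery's theorem, paired with the test functions `Kav` -/
lemma mont_F (RH : RiemannHypothesis) (hK : TK κ K) (hκ0 : 0 < κ) (hκ : κ < 1) (hh : 0 < h) :
    Tendsto (fun T => ∫ α in (-1 : ℝ)..1, Kav K h α * Fr T α) atTop (𝓝 (mont (Kav K h))) := by
  have hlim := mont_lim RH (NTf_fav hK hκ0 hκ hh)
  obtain ⟨C, T0, hC, hT0, hS⟩ := sum_inv RH
  obtain ⟨D, hD0, hD⟩ := fav_decay hK hh
  have hpi := Real.pi_pos
  -- the weight
  have hdiff : ∀ T : ℝ, T0 ≤ T → |(∫ α in (-1 : ℝ)..1, Kav K h α * Fr T α) -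
      Q2 (fav K h) T (Real.log T) / Xf T| ≤ D * C * (2 * π) ^ 2 / (Real.log T) ^ 2 := by
    intro T hT
    have hT20 : 20 ≤ T := hT0.trans hT
    have hX := Xf_pos (V := T) (by linarith)
    have hL : 0 < Real.log T := Real.log_pos (by linarith)
    rw [Fr_int T _ _ (Kav_cont hK)]
    unfold Q2 QS
    rw [div_eq_inv_mul, ← mul_sub, abs_mul, abs_of_pos (inv_pos.2 hX), inv_mul_le_iff₀ hX,
      ← Finset.sum_sub_distrib]
    have h1 : D * (2 * π) ^ 2 / (Real.log T) ^ 2 *
        ∑ s ∈ Zt T, ∑ s' ∈ Zt T, mz s * mz s' * (1 / (1 + (dd T s s') ^ 2)) ≤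
        Xf T * (D * C * (2 * π) ^ 2 / (Real.log T) ^ 2) := by
      have := mul_le_mul_of_nonneg_left (hS T hT)
        (show 0 ≤ D * (2 * π) ^ 2 / (Real.log T) ^ 2 by positivity)
      refine this.trans (le_of_eq ?_)
      ring
    refine le_trans ?_ h1
    rw [Finset.mul_sum]
    refine (Finset.abs_sum_le_sum_abs _ _).trans (Finset.sum_le_sum fun s _ => ?_)
    rw [← Finset.sum_sub_distrib, Finset.mul_sum]
    refine (Finset.abs_sum_le_sum_abs _ _).trans (Finset.sum_le_sum fun s' _ => ?_)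
    have hm : 0 ≤ mz s * mz s' := mul_nonneg (mz_nonneg _) (mz_nonneg _)
    have e1 : ∫ α in (-1 : ℝ)..1, Kav K h α * Real.cos (Real.log T * (s.im - s'.im) * α) =
        fav K h (dd T s s') := by
      rw [← r_Kav hK hκ hh]
      unfold r
      refine intervalIntegral.integral_congr fun α _ => ?_
      show Kav K h α * Real.cos (Real.log T * (s.im - s'.im) * α) =
        Kav K h α * Real.cos (2 * π * dd T s s' * α)
      congr 2
      unfold dd
      field_simp
    rw [e1, show (s.im - s'.im) * Real.log T / (2 * π) = dd T s s' from rfl, ← mul_sub, abs_mul,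
      abs_of_nonneg hm, mul_left_comm]
    refine mul_le_mul_of_nonneg_left ?_ hm
    set y := dd T s s' with hy
    set x := s.im - s'.im with hx
    have hxy : x = y * (2 * π) / Real.log T := by
      rw [hy, hx]
      unfold dd
      field_simp
    have e2 : W x * fav K h y - fav K h y = -((x ^ 2 / (4 + x ^ 2)) * fav K h y) := by
      unfold W
      field_simp
      ring
    rw [e2, abs_neg, abs_mul, abs_of_nonneg (by positivity)]
    have h2 : x ^ 2 / (4 + x ^ 2) ≤ x ^ 2 := by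
      rw [div_le_iff₀ (by positivity)]
      nlinarith [sq_nonneg x, sq_nonneg (x ^ 2)]
    calc x ^ 2 / (4 + x ^ 2) * |fav K h y| ≤ x ^ 2 * (D / (1 + y ^ 2) ^ 2) :=
          mul_le_mul h2 (hD y) (abs_nonneg _) (sq_nonneg _)
      _ = D * (2 * π) ^ 2 / (Real.log T) ^ 2 * (y ^ 2 / (1 + y ^ 2) ^ 2) := by
          rw [hxy]
          field_simp
      _ ≤ D * (2 * π) ^ 2 / (Real.log T) ^ 2 * (1 / (1 + y ^ 2)) := by
          refine mul_le_mul_of_nonneg_left ?_ (by positivity)
          rw [div_le_div_iff₀ (by positivity) (by positivity)]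
          nlinarith [sq_nonneg y, sq_nonneg (y ^ 2)]
  have h0 : Tendsto (fun T : ℝ => D * C * (2 * π) ^ 2 / (Real.log T) ^ 2) atTop (𝓝 0) := by
    have h1 : Tendsto (fun T : ℝ => (Real.log T) ^ 2) atTop atTop :=
      (tendsto_pow_atTop (by norm_num)).comp Real.tendsto_log_atTop
    exact h1.const_div_atTop _
  have h1 : Tendsto (fun T => (∫ α in (-1 : ℝ)..1, Kav K h α * Fr T α) -
      Q2 (fav K h) T (Real.log T) / Xf T) atTop (𝓝 0) := by
    refine squeeze_zero_norm' ?_ h0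
    filter_upwards [eventually_ge_atTop T0] with T hT
    rw [Real.norm_eq_abs]
    exact hdiff T hT
  have h2 := h1.add hlim
  simpa using h2

end Pool.Agent.J4H67.OS
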