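import Pool.Agent.J4H67.OS.B

/-! The mass of `F` on `[-c, c]`, `c < 1`. -/

open MeasureTheory Filter Topology Real
open scoped ContDiff

namespace Pool.Agent.J4H67.OS

open H370 TH803TW Pool.Agent.Y744 Pool.Agent.Results.MP_103a5c_nt.BohrSetPairs

lemma exists_bump {c c' : ℝ} (hc : 0 < c) (hcc : c < c') : ∃ K, TK c' K ∧ (∀ x, 0 ≤ K x) ∧
    (∀ x, K x ≤ 1) ∧ ∀ x, |x| ≤ c → K x = 1 := by
  set f : ContDiffBump (0 : ℝ) := ⟨c, c', hc, hcc⟩ with hf
  refine ⟨f, ⟨f.contDiff, f.neg, fun x hx => ?_⟩, fun x => f.nonneg, fun x => f.le_one,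
    fun x hx => ?_⟩
  · refine f.zero_of_le_dist ?_
    rw [Real.dist_eq, sub_zero]
    exact hx.le
  · refine f.one_of_mem_closedBall ?_
    rw [Metric.mem_closedBall, Real.dist_eq, sub_zero]
    exact hx

lemma exists_h {η : ℝ} (hη : 0 < η) : ∃ h : ℝ, 0 < h ∧ ∀ α : ℝ, |α| ≤ 1 →
    1 - η ≤ Real.sinc (2 * π * h * α) := by
  have h1 : Tendsto Real.sinc (𝓝 0) (𝓝 1) := by
    have := Real.continuous_sinc.tendsto 0
    rwa [Real.sinc_zero] at this
  obtain ⟨δ, hδ, h2⟩ := Metric.tendsto_nhds_nhds.1 h1 η hη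
  have hpi := Real.pi_pos
  refine ⟨δ / (4 * π), by positivity, fun α hα => ?_⟩
  have h3 : dist (2 * π * (δ / (4 * π)) * α) 0 < δ := by
    rw [Real.dist_eq, sub_zero]
    have e : 2 * π * (δ / (4 * π)) * α = δ / 2 * α := by
      field_simp
      ring
    rw [e, abs_mul, abs_of_pos (by positivity)]
    nlinarith
  have h4 := h2 h3
  rw [Real.dist_eq] at h4
  linarith [(abs_lt.1 h4).1]

lemma mont_up {K : ℝ → ℝ} {h c c' : ℝ} (hh : 0 < h) (hK : TK c' K) (hK0 : ∀ x, 0 ≤ K x)
    (hK1 : ∀ x, K x ≤ 1) (hc' : 0 < c') (hc'1 : c' < 1) :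
    mont (Kav K h) ≤ 2 * h * (1 + c' ^ 2) := by
  have hc1 : Continuous fun α => α * Kav K h α := continuous_id.mul (Kav_cont hK)
  have e0 : Kav K h 0 ≤ 2 * h := by
    unfold Kav
    rw [mul_zero, Real.sinc_zero, mul_one]
    have := hK1 0
    nlinarith
  have hz : ∫ α in c'..1, α * Kav K h α = 0 := by
    rw [intervalIntegral.integral_congr (g := fun _ => (0 : ℝ))]
    · simp
    · intro x hx
      rw [Set.uIcc_of_le hc'1.le] at hx
      show x * Kav K h x = 0
      rcases eq_or_lt_of_le hx.1 with h1 | h1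
      · have hcl : IsClosed {x : ℝ | Kav K h x = 0} := isClosed_eq (Kav_cont hK) continuous_const
        have h2 : Set.Ioi c' ⊆ {x : ℝ | Kav K h x = 0} := fun y (hy : c' < y) =>
          Kav_supp hK y (hy.trans_le (le_abs_self y))
        have h3 : c' ∈ closure (Set.Ioi c') := by rw [closure_Ioi]; exact Set.self_mem_Ici
        have h4 := hcl.closure_subset_iff.2 h2 h3
        rw [← h1]
        show c' * Kav K h c' = 0
        rw [show Kav K h c' = 0 from h4, mul_zero]
      · rw [Kav_supp hK x (h1.trans_le (le_abs_self x)), mul_zero]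
  have h1 : ∫ α in (0 : ℝ)..1, α * Kav K h α ≤ h * c' ^ 2 := by
    rw [← intervalIntegral.integral_add_adjacent_intervals (a := 0) (b := c') (c := 1)
      (hc1.intervalIntegrable _ _) (hc1.intervalIntegrable _ _), hz, add_zero]
    calc ∫ α in (0 : ℝ)..c', α * Kav K h α ≤ ∫ α in (0 : ℝ)..c', α * (2 * h) := by
          refine intervalIntegral.integral_mono_on hc'.le (hc1.intervalIntegrable _ _)
            ((by fun_prop : Continuous fun α : ℝ => α * (2 * h)).intervalIntegrable _ _)
            fun α hα => ?_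
          refine mul_le_mul_of_nonneg_left ?_ hα.1
          unfold Kav
          have h2 := Real.sinc_le_one (2 * π * h * α)
          have h3 := hK0 α
          have h4 := hK1 α
          have h5 : K α * (2 * h * Real.sinc (2 * π * h * α)) ≤ K α * (2 * h * 1) := by
            gcongr
          nlinarith
      _ = h * c' ^ 2 := by
          rw [intervalIntegral.integral_mul_const, integral_id]
          ring
  unfold mont
  linarith

lemma mont_low {K : ℝ → ℝ} {h c c' η : ℝ} (hh : 0 < h) (hη1 : η ≤ 1) (hK : TK c' K)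
    (hK0 : ∀ x, 0 ≤ K x) (hKc : ∀ x, |x| ≤ c → K x = 1) (hc : 0 < c) (hc1 : c ≤ 1)
    (hs : ∀ α : ℝ, |α| ≤ 1 → 1 - η ≤ Real.sinc (2 * π * h * α)) :
    2 * h * ((1 - η) * (1 + c ^ 2)) ≤ mont (Kav K h) := by
  have hc2 : Continuous fun α => α * Kav K h α := continuous_id.mul (Kav_cont hK)
  have e0 : Kav K h 0 = 2 * h := by
    unfold Kav
    rw [mul_zero, Real.sinc_zero, mul_one, hKc 0 (by rw [abs_zero]; exact hc.le), one_mul]
  have hη : 0 ≤ η := by
    have h1 := hs 0 (by simp)
    rw [mul_zero, Real.sinc_zero] at h1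
    linarith
  have hnn : ∀ α ∈ Set.Icc (0 : ℝ) 1, 0 ≤ Kav K h α := by
    intro α hα
    unfold Kav
    have h1 := hs α (by rw [abs_of_nonneg hα.1]; exact hα.2)
    have h2 : 0 ≤ Real.sinc (2 * π * h * α) := by linarith
    have := hK0 α
    positivity
  have h1 : (1 - η) * (h * c ^ 2) ≤ ∫ α in (0 : ℝ)..1, α * Kav K h α := by
    rw [← intervalIntegral.integral_add_adjacent_intervals (a := 0) (b := c) (c := 1)
      (hc2.intervalIntegrable _ _) (hc2.intervalIntegrable _ _)]
    have h2 : 0 ≤ ∫ α in c..1, α * Kav K h α :=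
      intervalIntegral.integral_nonneg hc1 fun α hα =>
        mul_nonneg (hc.le.trans hα.1) (hnn α ⟨hc.le.trans hα.1, hα.2⟩)
    have h3 : (1 - η) * (h * c ^ 2) ≤ ∫ α in (0 : ℝ)..c, α * Kav K h α := by
      calc (1 - η) * (h * c ^ 2) = ∫ α in (0 : ℝ)..c, α * (2 * h * (1 - η)) := by
            rw [intervalIntegral.integral_mul_const, integral_id]
            ring
        _ ≤ _ := by
            refine intervalIntegral.integral_mono_on hc.le
              ((by fun_prop : Continuous fun α : ℝ => α * (2 * h * (1 - η))).intervalIntegrable _ _)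
              (hc2.intervalIntegrable _ _) fun α hα => ?_
            refine mul_le_mul_of_nonneg_left ?_ hα.1
            unfold Kav
            rw [hKc α (by rw [abs_of_nonneg hα.1]; exact hα.2), one_mul]
            refine mul_le_mul_of_nonneg_left (hs α ?_) (by positivity)
            rw [abs_of_nonneg hα.1]
            exact hα.2.trans hc1
    linarith
  unfold mont
  rw [e0]
  nlinarith

/-- the mass of `F` on `[-c, c]` -/
noncomputable def G (T c : ℝ) : ℝ := ∫ α in (-c)..c, Fr T α

/-- an integral of a nonnegative function over a larger interval -/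
lemma int_mono_set {f : ℝ → ℝ} (hf : Continuous f) {a b : ℝ} (hb : 0 ≤ a) (hab : a ≤ b)
    (h0 : ∀ x ∈ Set.Icc (-b) b, 0 ≤ f x) : ∫ x in (-a)..a, f x ≤ ∫ x in (-b)..b, f x := by
  rw [← intervalIntegral.integral_add_adjacent_intervals (a := -b) (b := -a) (c := b)
    (hf.intervalIntegrable _ _) (hf.intervalIntegrable _ _),
    ← intervalIntegral.integral_add_adjacent_intervals (a := -a) (b := a) (c := b)
    (hf.intervalIntegrable _ _) (hf.intervalIntegrable _ _)]
  have h1 : 0 ≤ ∫ x in (-b)..(-a), f x := intervalIntegral.integral_nonneg (by linarith)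
    fun x hx => h0 x ⟨hx.1, by linarith [hx.2]⟩
  have h2 : 0 ≤ ∫ x in a..b, f x := intervalIntegral.integral_nonneg hab
    fun x hx => h0 x ⟨by linarith [hx.1], hx.2⟩
  linarith

lemma G_up (RH : RiemannHypothesis) {c : ℝ} (hc : 0 < c) (hc1 : c < 1) {ε : ℝ} (hε : 0 < ε)
    (hε1 : ε ≤ 1) : ∀ᶠ T in atTop, G T c ≤ 1 + c ^ 2 + ε := by
  set c' := min ((c + 1) / 2) (c + ε / 16) with hc'
  have hcc : c < c' := lt_min (by linarith) (by linarith)
  have hc'1 : c' < 1 := (min_le_left _ _).trans_lt (by linarith)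
  have hc'2 : c' ^ 2 ≤ c ^ 2 + ε / 8 := by
    have h1 : c' ≤ c + ε / 16 := min_le_right _ _
    nlinarith
  obtain ⟨K, hK, hK0, hK1, hKc⟩ := exists_bump hc hcc
  obtain ⟨h, hh, hs⟩ := exists_h (show 0 < ε / 16 by positivity)
  have hlim := mont_F RH hK (hc.trans hcc) hc'1 hh
  have hup := mont_up (c := c) hh hK hK0 hK1 (hc.trans hcc) hc'1
  have hev := hlim.eventually_le_const (show mont (Kav K h) <
    2 * h * (1 + c' ^ 2) + 2 * h * (ε / 8) by
      have : 0 < 2 * h * (ε / 8) := by positivity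
      linarith)
  filter_upwards [hev, eventually_gt_atTop 1] with T h1 hT
  have hF0 := fun α => Fr_nonneg RH hT α
  have hsn : ∀ α : ℝ, |α| ≤ 1 → 0 ≤ Real.sinc (2 * π * h * α) := fun α hα => by
    have := hs α hα
    linarith
  have hcont : Continuous fun α => Kav K h α * Fr T α := (Kav_cont hK).mul (Fr_cont T)
  have h2 : 2 * h * (1 - ε / 16) * G T c ≤ ∫ α in (-1 : ℝ)..1, Kav K h α * Fr T α := by
    refine le_trans ?_ (int_mono_set hcont hc.le hc1.le fun x hx => ?_)
    · unfold G
      rw [← intervalIntegral.integral_const_mul]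
      refine intervalIntegral.integral_mono_on (by linarith)
        ((continuous_const.mul (Fr_cont T)).intervalIntegrable _ _)
        (hcont.intervalIntegrable _ _) fun α hα => ?_
      refine mul_le_mul_of_nonneg_right ?_ (hF0 α)
      unfold Kav
      have hα' : |α| ≤ c := abs_le.2 hα
      rw [hKc α hα', one_mul]
      exact mul_le_mul_of_nonneg_left (hs α (hα'.trans hc1.le)) (by positivity)
    · unfold Kav
      have h3 := hsn x (abs_le.2 hx)
      have h4 := hK0 x
      have h5 := hF0 x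
      positivity
  have h3 : (1 - ε / 16) * G T c ≤ 1 + c' ^ 2 + ε / 8 := by
    have h4 : 2 * h * ((1 - ε / 16) * G T c) ≤ 2 * h * (1 + c' ^ 2 + ε / 8) := by
      calc 2 * h * ((1 - ε / 16) * G T c) = 2 * h * (1 - ε / 16) * G T c := by ring
        _ ≤ _ := h2
        _ ≤ _ := h1
        _ = _ := by ring
    exact le_of_mul_le_mul_left h4 (by positivity)
  by_contra hcon
  push Not at hcon
  have hc2 : c ^ 2 ≤ 1 := by nlinarith
  nlinarith

lemma G_low (RH : RiemannHypothesis) {c : ℝ} (hc : 0 < c) (hc1 : c < 1) {ε : ℝ} (hε : 0 < ε)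
    (hε1 : ε ≤ 1) : ∀ᶠ T in atTop, 1 + c ^ 2 - ε ≤ G T c := by
  set c' := max (c / 2) (c - ε / 16) with hc'
  have hcc : c' < c := max_lt (by linarith) (by linarith)
  have hc'0 : 0 < c' := lt_of_lt_of_le (by linarith) (le_max_left _ _)
  have hc'2 : c ^ 2 - ε / 8 ≤ c' ^ 2 := by
    have h1 : c - ε / 16 ≤ c' := le_max_right _ _
    nlinarith
  obtain ⟨K, hK, hK0, hK1, hKc⟩ := exists_bump hc'0 hcc
  obtain ⟨h, hh, hs⟩ := exists_h (show 0 < ε / 16 by positivity)
  have hlim := mont_F RH hK hc hc1 hh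
  have hlow := mont_low (c := c') (η := ε / 16) hh (by linarith) hK hK0 hKc hc'0 (by linarith) hs
  have hev := hlim.eventually_const_le (show 2 * h * ((1 - ε / 16) * (1 + c' ^ 2)) - 2 * h * (ε / 8)
    < mont (Kav K h) by
      have : 0 < 2 * h * (ε / 8) := by positivity
      linarith)
  filter_upwards [hev, eventually_gt_atTop 1] with T h1 hT
  have hF0 := fun α => Fr_nonneg RH hT α
  have hcont : Continuous fun α => Kav K h α * Fr T α := (Kav_cont hK).mul (Fr_cont T)
  have hsplit : ∫ α in (-1 : ℝ)..1, Kav K h α * Fr T α =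
      ∫ α in (-c)..c, Kav K h α * Fr T α := by
    have hz : ∀ x, c ≤ |x| → Kav K h x = 0 := by
      intro x hx
      rcases eq_or_lt_of_le hx with h1 | h1
      · have hcl : IsClosed {x : ℝ | Kav K h x = 0} := isClosed_eq (Kav_cont hK) continuous_const
        have h2 : Set.Ioi c ⊆ {x : ℝ | Kav K h x = 0} := fun y (hy : c < y) =>
          Kav_supp hK y (hy.trans_le (le_abs_self y))
        have h3 : c ∈ closure (Set.Ioi c) := by rw [closure_Ioi]; exact Set.self_mem_Ici
        have h4 : Kav K h c = 0 := hcl.closure_subset_iff.2 h2 h3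
        rcases abs_choice x with h5 | h5
        · rw [h5] at h1
          rw [← h1, h4]
        · rw [h5] at h1
          rw [show x = -c by linarith, Kav_even hK, h4]
      · exact Kav_supp hK x h1
    have hz2 : ∀ a b : ℝ, (∀ x ∈ Set.uIcc a b, c ≤ |x|) →
        ∫ α in a..b, Kav K h α * Fr T α = 0 := by
      intro a b hab
      rw [intervalIntegral.integral_congr (g := fun _ => (0 : ℝ))]
      · simp
      · intro x hx
        show Kav K h x * Fr T x = 0
        rw [hz x (hab x hx), zero_mul]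
    rw [← intervalIntegral.integral_add_adjacent_intervals (a := -1) (b := -c) (c := 1)
      (hcont.intervalIntegrable _ _) (hcont.intervalIntegrable _ _),
      ← intervalIntegral.integral_add_adjacent_intervals (a := -c) (b := c) (c := 1)
      (hcont.intervalIntegrable _ _) (hcont.intervalIntegrable _ _), hz2 (-1) (-c) (fun x hx => by
        rw [Set.uIcc_of_le (by linarith)] at hx
        rw [abs_of_nonpos (by linarith [hx.2])]
        linarith [hx.2]), hz2 c 1 (fun x hx => by
        rw [Set.uIcc_of_le hc1.le] at hx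
        exact hx.1.trans (le_abs_self x))]
    ring
  have h2 : ∫ α in (-1 : ℝ)..1, Kav K h α * Fr T α ≤ 2 * h * G T c := by
    rw [hsplit]
    unfold G
    rw [← intervalIntegral.integral_const_mul]
    refine intervalIntegral.integral_mono_on (by linarith) (hcont.intervalIntegrable _ _)
      ((continuous_const.mul (Fr_cont T)).intervalIntegrable _ _) fun α _ => ?_
    refine mul_le_mul_of_nonneg_right ?_ (hF0 α)
    unfold Kav
    have h3 := Real.sinc_le_one (2 * π * h * α)
    have h4 := hK0 α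
    have h5 := hK1 α
    have h6 : K α * (2 * h * Real.sinc (2 * π * h * α)) ≤ K α * (2 * h * 1) := by gcongr
    nlinarith
  have h3 : (1 - ε / 16) * (1 + c' ^ 2) - ε / 8 ≤ G T c := by
    have h4 : 2 * h * ((1 - ε / 16) * (1 + c' ^ 2) - ε / 8) ≤ 2 * h * G T c := by
      refine le_trans ?_ h2
      linarith
    exact le_of_mul_le_mul_left h4 (by positivity)
  have hc2 : c' ^ 2 ≤ 1 := by nlinarith
  nlinarith

end Pool.Agent.J4H67.OS
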