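import Pool.Agent.J4H67.OS.C

/-! The balance argument. -/

open MeasureTheory Filter Topology Real

namespace Pool.Agent.J4H67.OS

open H370 TH803TW Pool.Agent.Y744 Pool.Agent.Results.MP_103a5c_nt.BohrSetPairs

/-- upper bounds for all windows inside `[c, d]` -/
def UpI (l : Filter ℝ) (c d : ℝ) : Prop := ∀ a b, c ≤ a → a < b → b ≤ d → ∀ ε : ℝ, 0 < ε →
  ∀ᶠ T in l, ∫ α in a..b, Fr T α ≤ (∫ α in a..b, mm α) + ε

/-- lower bounds for all windows inside `[c, d]` -/
def LoI (l : Filter ℝ) (c d : ℝ) : Prop := ∀ a b, c ≤ a → a < b → b ≤ d → ∀ ε : ℝ, 0 < ε →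
  ∀ᶠ T in l, (∫ α in a..b, mm α) - ε ≤ ∫ α in a..b, Fr T α

/-- the upper bound for the mass of `[-c, c]` -/
def GU (c : ℝ) : Prop := ∀ ε : ℝ, 0 < ε → ∀ᶠ T in atTop, G T c ≤ 1 + c ^ 2 + ε

lemma GU_lt (RH : RiemannHypothesis) {c : ℝ} (hc : 0 < c) (hc1 : c < 1) : GU c := by
  intro ε hε
  filter_upwards [G_up RH hc hc1 (ε := min ε 1) (lt_min hε one_pos) (min_le_right _ _)] with T hT
  have := min_le_left ε 1
  linarith

lemma GL_lt (RH : RiemannHypothesis) {c : ℝ} (hc : 0 < c) (hc1 : c < 1) {ε : ℝ} (hε : 0 < ε) :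
    ∀ᶠ T in atTop, 1 + c ^ 2 - ε ≤ G T c := by
  filter_upwards [G_low RH hc hc1 (ε := min ε 1) (lt_min hε one_pos) (min_le_right _ _)] with T hT
  have := min_le_left ε 1
  linarith

lemma win_G (T : ℝ) (a b : ℝ) : ∫ α in a..b, Fr T α = (G T b - G T a) / 2 := by
  unfold G
  rw [even_int (Fr_cont T) (Fr_even T), even_int (Fr_cont T) (Fr_even T),
    ← intervalIntegral.integral_add_adjacent_intervals (a := 0) (b := a) (c := b)
    ((Fr_cont T).intervalIntegrable _ _) ((Fr_cont T).intervalIntegrable _ _)]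
  ring

lemma mm_win {a b : ℝ} (ha : a ≤ b) (hb : b ≤ 1) :
    ∫ α in a..b, mm α = (b ^ 2 - a ^ 2) / 2 := by
  rw [← integral_id]
  refine intervalIntegral.integral_congr fun α hα => ?_
  rw [Set.uIcc_of_le ha] at hα
  exact min_eq_left (hα.2.trans hb)

lemma UpI_low (RH : RiemannHypothesis) {c a : ℝ} (ha : 0 < a) (hac : a < c) (hc1 : c ≤ 1)
    (hG : GU c) : UpI atTop a c := by
  intro x y hx hxy hy ε hε
  have hx0 : 0 < x := ha.trans_le hx
  have hGy : GU y := by
    rcases eq_or_lt_of_le hy with h | h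
    · rw [h]; exact hG
    · exact GU_lt RH (hx0.trans hxy) (h.trans_le hc1)
  filter_upwards [hGy ε hε, GL_lt RH hx0 (hxy.trans_le (hy.trans hc1)) hε] with T h1 h2
  rw [win_G, mm_win hxy.le (hy.trans hc1)]
  linarith

lemma LoI_low (RH : RiemannHypothesis) {c a : ℝ} (ha : 0 < a) (hc1 : c < 1) :
    LoI atTop a c := by
  intro x y hx hxy hy ε hε
  have hx0 : 0 < x := ha.trans_le hx
  filter_upwards [GU_lt RH hx0 (hxy.trans_le (hy.trans hc1.le)) ε hε,
    GL_lt RH (hx0.trans hxy) (hy.trans_lt hc1) hε] with T h1 h2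
  rw [win_G, mm_win hxy.le (hy.trans hc1.le)]
  linarith

lemma UpI.mono {l l' : Filter ℝ} (h : l' ≤ l) {c d : ℝ} (hU : UpI l c d) : UpI l' c d :=
  fun a b h1 h2 h3 ε hε => h (hU a b h1 h2 h3 ε hε)

/-- concatenation -/
lemma UpI.glue {l : Filter ℝ} {a c d : ℝ} (h1 : UpI l a c) (h2 : UpI l c d) : UpI l a d := by
  intro x y hx hxy hy ε hε
  rcases le_or_gt y c with h3 | h3
  · exact h1 x y hx hxy h3 ε hε
  rcases le_or_gt c x with h4 | h4
  · exact h2 x y h4 hxy hy ε hε
  filter_upwards [h1 x c hx h4 le_rfl (ε / 2) (by positivity),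
    h2 c y le_rfl h3 hy (ε / 2) (by positivity)] with T h5 h6
  rw [← intervalIntegral.integral_add_adjacent_intervals (a := x) (b := c) (c := y)
    ((Fr_cont T).intervalIntegrable _ _) ((Fr_cont T).intervalIntegrable _ _),
    ← intervalIntegral.integral_add_adjacent_intervals (a := x) (b := c) (c := y)
    (mm_cont.intervalIntegrable _ _) (mm_cont.intervalIntegrable _ _)]
  linarith

lemma RA_anti {A : ℝ} (hA : 0 < A) : AntitoneOn (RA A) (Set.Ici 0) := by
  intro x hx y hy hxy
  unfold RA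
  rw [abs_of_nonneg (show 0 ≤ x from hx), abs_of_nonneg (show 0 ≤ y from hy)]
  have : x / A ≤ y / A := by gcongr
  linarith

/-- weighted upper bound -/
lemma UpI.weight (RH : RiemannHypothesis) {l : Filter ℝ} (hl : l ≤ atTop) {a b A : ℝ} (ha : 0 ≤ a)
    (hab : a ≤ b) (hbA : b ≤ A) (hA : 0 < A) (hU : UpI l a b) {ε : ℝ} (hε : 0 < ε) :
    ∀ᶠ T in l, ∫ α in a..b, Fr T α * RA A α ≤ (∫ α in a..b, mm α * RA A α) + ε := by
  rcases eq_or_lt_of_le hab with rfl | hlt
  · filter_upwards with T
    simp [hε.le]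
  obtain ⟨n, hn⟩ := exists_nat_gt (2 * (b - a) / ε)
  have hn0' : (0 : ℝ) < n := lt_of_le_of_lt (by
    have : 0 ≤ b - a := by linarith
    positivity) hn
  have hn0 : 0 < n := by exact_mod_cast hn0'
  set s : ℝ := (b - a) / n with hs
  have hs0 : 0 < s := div_pos (by linarith) hn0'
  have hns : n * s = b - a := by rw [hs]; field_simp
  have hev : ∀ᶠ T in l, ∀ i ∈ Finset.range n,
      ∫ x in (a + i * s)..(a + (i + 1) * s), Fr T x ≤
        (∫ x in (a + i * s)..(a + (i + 1) * s), mm x) + ε / (2 * n) := by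
    rw [Filter.eventually_all_finset]
    intro i hi
    rw [Finset.mem_range] at hi
    have hi0 : (0 : ℝ) ≤ i := Nat.cast_nonneg i
    have hi1 : (i : ℝ) + 1 ≤ n := by exact_mod_cast hi
    refine hU _ _ (by nlinarith) (by nlinarith) ?_ _ (by positivity)
    have : (i + 1) * s ≤ n * s := mul_le_mul_of_nonneg_right hi1 hs0.le
    linarith
  have h1T : ∀ᶠ T in l, 1 < T := hl (eventually_gt_atTop 1)
  filter_upwards [hev, h1T] with T h1 hT
  have hsub : ∀ x ∈ Set.Icc a b, x ∈ Set.Ici (0 : ℝ) := fun x hx => ha.trans hx.1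
  have habs : ∀ x ∈ Set.Icc a b, |x| ≤ A := fun x hx => by
    rw [abs_of_nonneg (ha.trans hx.1)]
    exact hx.2.trans hbA
  have h2 := part_up (Fr_cont T) mm_cont (RA_cont A) (δ := ε / (2 * n)) hab
    (fun x _ => Fr_nonneg RH hT x) (fun x hx => mm_nonneg (ha.trans hx.1)) (fun x _ => mm_le x)
    ((RA_anti hA).mono hsub) (fun x hx => RA_nonneg hA (habs x hx)) (fun x _ => RA_le hA x)
    (by positivity) n hn0 (fun i hi => h1 i (Finset.mem_range.2 hi))
  have h3 : (b - a) / n ≤ ε / 2 := by
    rw [div_lt_iff₀ hε] at hn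
    rw [div_le_iff₀ hn0']
    linarith
  have h4 : n * (ε / (2 * n)) = ε / 2 := by field_simp
  rw [h4] at h2
  linarith

/-- the Fejér lower bound -/
lemma fejer_low (A : ℝ) (hA : 1 ≤ A) {ε : ℝ} (hε : 0 < ε) :
    ∀ᶠ T in atTop, A - ε ≤ ∫ α in (-A)..A, RA A α * Fr T α := by
  filter_upwards [Aa_diag (ε := ε / A) (by positivity), eventually_gt_atTop 1] with T h1 hT
  refine le_trans ?_ (fejer_diag hT (A := A) (by linarith))
  have h2 := mul_le_mul_of_nonneg_left h1 (by linarith : (0 : ℝ) ≤ A)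
  have h3 : A * (1 - ε / A) = A - ε := by field_simp
  linarith

/-- **the balance**: a lower bound for the weighted integral over `[a, A]` -/
lemma balance (RH : RiemannHypothesis) {a A : ℝ} (ha : 0 < a) (ha1 : a < 1) (hA : 1 ≤ A)
    {ε : ℝ} (hε : 0 < ε) : ∀ᶠ T in atTop, (∫ α in a..A, mm α * RA A α) - 1 / (6 * A) -
      a ^ 3 / (3 * A) - ε ≤ ∫ α in a..A, Fr T α * RA A α := by
  have hA0 : 0 < A := by linarith
  filter_upwards [fejer_low A hA hε, GU_lt RH ha ha1 ε hε, eventually_gt_atTop 1] with T h1 h2 hT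
  have hc : Continuous fun α => RA A α * Fr T α := (RA_cont A).mul (Fr_cont T)
  have hce : ∀ x, RA A (-x) * Fr T (-x) = RA A x * Fr T x := fun x => by
    rw [RA_even, Fr_even]
  rw [even_int hc hce, ← intervalIntegral.integral_add_adjacent_intervals (a := 0) (b := a) (c := A)
    (hc.intervalIntegrable _ _) (hc.intervalIntegrable _ _)] at h1
  have h3 : 2 * ∫ α in (0 : ℝ)..a, RA A α * Fr T α ≤ G T a := by
    unfold G
    rw [even_int (Fr_cont T) (Fr_even T)]
    refine mul_le_mul_of_nonneg_left ?_ (by norm_num)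
    refine intervalIntegral.integral_mono_on ha.le (hc.intervalIntegrable _ _)
      ((Fr_cont T).intervalIntegrable _ _) fun x _ => ?_
    have h4 := RA_le hA0 x
    have h5 := Fr_nonneg RH hT x
    nlinarith
  have h4 : ∫ α in a..A, RA A α * Fr T α = ∫ α in a..A, Fr T α * RA A α :=
    intervalIntegral.integral_congr fun α _ => mul_comm _ _
  rw [h4] at h1
  rw [mm_int ha.le ha1.le hA]
  have h5 : a ^ 3 / (3 * A) = a ^ 3 / (3 * A) := rfl
  linarith

/-- lower bounds from upper bounds, weighted form -/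
lemma low_of_up (RH : RiemannHypothesis) {l : Filter ℝ} (hl : l ≤ atTop) {a A x y : ℝ} (ha : 0 < a)
    (ha1 : a < 1) (hA : 1 ≤ A) (hax : a ≤ x) (hxy : x ≤ y) (hyA : y ≤ A) (hU : UpI l a A)
    {ε : ℝ} (hε : 0 < ε) : ∀ᶠ T in l, (∫ α in x..y, mm α * RA A α) - 1 / (6 * A) -
      a ^ 3 / (3 * A) - ε ≤ ∫ α in x..y, Fr T α * RA A α := by
  have hA0 : 0 < A := by linarith
  have hU1 : UpI l a x := fun u v h1 h2 h3 => hU u v h1 h2 (h3.trans (hxy.trans hyA))
  have hU2 : UpI l y A := fun u v h1 h2 h3 => hU u v (hax.trans (hxy.trans h1)) h2 h3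
  filter_upwards [hl (balance RH ha ha1 hA (ε := ε / 3) (by positivity)),
    hU1.weight RH hl ha.le hax (hxy.trans hyA) hA0 (ε := ε / 3) (by positivity),
    hU2.weight RH hl (ha.le.trans (hax.trans hxy)) hyA le_rfl hA0 (ε := ε / 3) (by positivity)]
    with T h1 h2 h3
  have hc : Continuous fun α => Fr T α * RA A α := (Fr_cont T).mul (RA_cont A)
  have hc' : Continuous fun α => mm α * RA A α := mm_cont.mul (RA_cont A)
  have e1 := intervalIntegral.integral_add_adjacent_intervals (a := a) (b := x) (c := y)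
    (hc.intervalIntegrable (μ := volume) _ _) (hc.intervalIntegrable _ _)
  have e2 := intervalIntegral.integral_add_adjacent_intervals (a := a) (b := y) (c := A)
    (hc.intervalIntegrable (μ := volume) _ _) (hc.intervalIntegrable _ _)
  have e3 := intervalIntegral.integral_add_adjacent_intervals (a := a) (b := x) (c := y)
    (hc'.intervalIntegrable (μ := volume) _ _) (hc'.intervalIntegrable _ _)
  have e4 := intervalIntegral.integral_add_adjacent_intervals (a := a) (b := y) (c := A)
    (hc'.intervalIntegrable (μ := volume) _ _) (hc'.intervalIntegrable _ _)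
  linarith

/-- **the upper half implies the lower half** -/
theorem one_sided (RH : RiemannHypothesis) {l : Filter ℝ} (hl : l ≤ atTop) {c : ℝ} (hc : 0 < c)
    (hc1 : c ≤ 1) (hG : GU c) (hU : ∀ d, UpI l c d) : ∀ d, LoI l c d := by
  intro d x y hx hxy _ ε hε
  have hx0 : 0 < x := hc.trans_le hx
  set a : ℝ := c / 2 with ha
  have ha0 : 0 < a := by rw [ha]; linarith
  have hac : a < c := by rw [ha]; linarith
  have hUa : ∀ d, UpI l a d := fun d => ((UpI_low RH ha0 hac hc1 hG).mono hl).glue (hU d)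
  set A : ℝ := 1 + y + 4 * (y ^ 2 + 1) / ε with hA
  have hy0 : 0 < y := hx0.trans hxy
  have hA1 : 1 ≤ A := by
    rw [hA]
    have : 0 ≤ 4 * (y ^ 2 + 1) / ε := by positivity
    linarith
  have hyA : y ≤ A := by
    rw [hA]
    have : 0 ≤ 4 * (y ^ 2 + 1) / ε := by positivity
    linarith
  have hA0 : 0 < A := by linarith
  filter_upwards [low_of_up RH hl ha0 (hac.trans_le hc1) hA1 (hac.le.trans hx) hxy.le hyA (hUa A)
    (ε := ε / 4) (by positivity), hl (eventually_gt_atTop 1)] with T h1 hT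
  have hcF : Continuous fun α => Fr T α * RA A α := (Fr_cont T).mul (RA_cont A)
  have hcm : Continuous fun α => mm α * RA A α := mm_cont.mul (RA_cont A)
  have h2 : ∫ α in x..y, Fr T α * RA A α ≤ ∫ α in x..y, Fr T α := by
    refine intervalIntegral.integral_mono_on hxy.le (hcF.intervalIntegrable _ _)
      ((Fr_cont T).intervalIntegrable _ _) fun α _ => ?_
    have h4 := RA_le hA0 α
    have h5 := Fr_nonneg RH hT α
    nlinarith
  have h3 : (∫ α in x..y, mm α) - y ^ 2 / A ≤ ∫ α in x..y, mm α * RA A α := by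
    have h4 : ∫ α in x..y, (mm α - y / A) ≤ ∫ α in x..y, mm α * RA A α := by
      refine intervalIntegral.integral_mono_on hxy.le
        ((mm_cont.sub continuous_const).intervalIntegrable _ _) (hcm.intervalIntegrable _ _)
        fun α hα => ?_
      have h5 : 0 ≤ α := hx0.le.trans hα.1
      have h6 := mm_le α
      have h7 := mm_nonneg h5
      unfold RA
      rw [abs_of_nonneg h5]
      have h8 : α / A ≤ y / A := by
        have := hα.2
        gcongr
      have h9 : 0 ≤ α / A := by positivity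
      nlinarith
    rw [intervalIntegral.integral_sub (mm_cont.intervalIntegrable _ _) (by simp),
      intervalIntegral.integral_const, smul_eq_mul] at h4
    have h5 : (y - x) * (y / A) ≤ y ^ 2 / A := by
      rw [mul_div_assoc']
      gcongr
      nlinarith
    linarith
  have hAε : 4 * (y ^ 2 + 1) ≤ ε * A := by
    rw [hA]
    have : ε * (1 + y + 4 * (y ^ 2 + 1) / ε) = ε * (1 + y) + 4 * (y ^ 2 + 1) := by field_simp
    rw [this]
    nlinarith
  have h4 : y ^ 2 / A ≤ ε / 4 := by
    rw [div_le_iff₀ hA0]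
    nlinarith
  have h5 : 1 / (6 * A) + a ^ 3 / (3 * A) ≤ ε / 4 := by
    have h6 : 1 / (6 * A) + a ^ 3 / (3 * A) = (1 + 2 * a ^ 3) / (6 * A) := by
      field_simp
      ring
    have h7 : a ^ 3 ≤ 1 := pow_le_one₀ ha0.le (by linarith)
    rw [h6, div_le_iff₀ (by positivity)]
    nlinarith [sq_nonneg y]
  linarith

/-- **the quantitative form** -/
theorem quant (RH : RiemannHypothesis) {c A : ℝ} (hc : 0 < c) (hc1 : c ≤ 1) (hG : GU c)
    (hA : 1 ≤ A) {ε : ℝ} (hε : 0 < ε) : ∀ᶠ T in atTop,
      ∫ α in c..A, |Fr T α - mm α| * RA A α ≤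
        2 * (∫ α in c..A, max (Fr T α - mm α) 0 * RA A α) + 1 / (6 * A) + ε := by
  have hA0 : 0 < A := by linarith
  -- choose `a` small
  set a : ℝ := min (c / 2) (min (1 / 2) (ε / 4)) with ha
  have ha0 : 0 < a := lt_min (by linarith) (lt_min (by norm_num) (by positivity))
  have hac : a < c := (min_le_left _ _).trans_lt (by linarith)
  have haε : a ≤ ε / 4 := (min_le_right _ _).trans (min_le_right _ _)
  have ha1 : a < 1 := hac.trans_le hc1
  filter_upwards [balance RH ha0 ha1 hA (ε := ε / 4) (by positivity),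
    (UpI_low RH ha0 hac hc1 hG).weight RH le_rfl ha0.le hac.le (hc1.trans hA) hA0 (ε := ε / 4)
      (by positivity)] with T h1 h2
  have hcF : Continuous fun α => Fr T α * RA A α := (Fr_cont T).mul (RA_cont A)
  have hcm : Continuous fun α => mm α * RA A α := mm_cont.mul (RA_cont A)
  have e1 := intervalIntegral.integral_add_adjacent_intervals (a := a) (b := c) (c := A)
    (hcF.intervalIntegrable (μ := volume) _ _) (hcF.intervalIntegrable _ _)
  have e2 := intervalIntegral.integral_add_adjacent_intervals (a := a) (b := c) (c := A)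
    (hcm.intervalIntegrable (μ := volume) _ _) (hcm.intervalIntegrable _ _)
  have hcd : Continuous fun α => Fr T α - mm α := (Fr_cont T).sub mm_cont
  have hcp : Continuous fun α => max (Fr T α - mm α) 0 * RA A α :=
    (hcd.max continuous_const).mul (RA_cont A)
  have e3 : ∫ α in c..A, |Fr T α - mm α| * RA A α =
      2 * (∫ α in c..A, max (Fr T α - mm α) 0 * RA A α) -
        ((∫ α in c..A, Fr T α * RA A α) - ∫ α in c..A, mm α * RA A α) := by
    have i1 : IntervalIntegrable (fun α => 2 * (max (Fr T α - mm α) 0 * RA A α)) volume c A :=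
      (continuous_const.mul hcp).intervalIntegrable _ _
    have i2 : IntervalIntegrable (fun α => Fr T α * RA A α - mm α * RA A α) volume c A :=
      (hcF.sub hcm).intervalIntegrable _ _
    rw [← intervalIntegral.integral_const_mul, ← intervalIntegral.integral_sub
      (hcF.intervalIntegrable _ _) (hcm.intervalIntegrable _ _),
      ← intervalIntegral.integral_sub i1 i2]
    refine intervalIntegral.integral_congr fun α _ => ?_
    show |Fr T α - mm α| * RA A α = 2 * (max (Fr T α - mm α) 0 * RA A α) -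
      (Fr T α * RA A α - mm α * RA A α)
    rcases le_total (Fr T α) (mm α) with h | h
    · rw [abs_of_nonpos (by linarith), max_eq_right (by linarith)]
      ring
    · rw [abs_of_nonneg (by linarith), max_eq_left (by linarith)]
      ring
  have h5 : a ^ 3 / (3 * A) ≤ ε / 4 := by
    rw [div_le_iff₀ (by positivity)]
    have h6 : a ^ 3 ≤ a := by
      have : a ^ 2 ≤ 1 := pow_le_one₀ ha0.le ha1.le
      nlinarith
    nlinarith
  rw [e3]
  linarith

/-- the pointwise upper half implies convergence in `L¹` -/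
theorem sup_L1 (RH : RiemannHypothesis) {l : Filter ℝ} (hl : l ≤ atTop) {c : ℝ} (hc : 0 < c)
    (hc1 : c ≤ 1) (hG : GU c)
    (hU : ∀ d ε : ℝ, 0 < ε → ∀ᶠ T in l, ∀ α ∈ Set.Icc c d, Fr T α ≤ mm α + ε)
    (d : ℝ) (hd : c ≤ d) {ε : ℝ} (hε : 0 < ε) :
    ∀ᶠ T in l, ∫ α in c..d, |Fr T α - mm α| ≤ ε := by
  have hUI : ∀ d, UpI l c d := by
    intro d a b h1 h2 h3 ε hε
    filter_upwards [hU b (ε / (b - a)) (div_pos hε (by linarith))] with T hT
    have h4 : ∫ α in a..b, Fr T α ≤ ∫ α in a..b, (mm α + ε / (b - a)) :=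
      intervalIntegral.integral_mono_on h2.le ((Fr_cont T).intervalIntegrable _ _)
        ((mm_cont.add continuous_const).intervalIntegrable _ _)
        fun α hα => hT α ⟨h1.trans hα.1, hα.2⟩
    refine h4.trans (le_of_eq ?_)
    rw [intervalIntegral.integral_add (mm_cont.intervalIntegrable _ _) (by simp),
      intervalIntegral.integral_const, smul_eq_mul]
    have : b - a ≠ 0 := by
      have : 0 < b - a := by linarith
      exact this.ne'
    field_simp
  rcases eq_or_lt_of_le hd with rfl | hlt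
  · filter_upwards with T
    simp [hε.le]
  have hL := one_sided RH hl hc hc1 hG hUI d c d le_rfl hlt le_rfl (ε / 2) (by positivity)
  filter_upwards [hL, hU d (ε / (4 * (d - c))) (div_pos hε (by linarith))] with T h1 h2
  have hcd : Continuous fun α => Fr T α - mm α := (Fr_cont T).sub mm_cont
  have h3 : ∫ α in c..d, |Fr T α - mm α| ≤
      ∫ α in c..d, (2 * (ε / (4 * (d - c))) - (Fr T α - mm α)) := by
    refine intervalIntegral.integral_mono_on hd (hcd.abs.intervalIntegrable _ _)
      ((continuous_const.sub hcd).intervalIntegrable _ _) fun α hα => ?_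
    have h4 := h2 α hα
    have h5 : 0 < ε / (4 * (d - c)) := div_pos hε (by linarith)
    rcases le_total (Fr T α) (mm α) with h | h
    · rw [abs_of_nonpos (by linarith)]
      linarith
    · rw [abs_of_nonneg (by linarith)]
      linarith
  refine h3.trans ?_
  rw [intervalIntegral.integral_sub (by simp) (hcd.intervalIntegrable _ _),
    intervalIntegral.integral_sub ((Fr_cont T).intervalIntegrable _ _)
      (mm_cont.intervalIntegrable _ _), intervalIntegral.integral_const, smul_eq_mul]
  have h6 : (d - c) * (2 * (ε / (4 * (d - c)))) = ε / 2 := by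
    have : d - c ≠ 0 := by
      have : 0 < d - c := by linarith
      exact this.ne'
    field_simp
    ring
  linarith

end Pool.Agent.J4H67.OS
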