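import Pool.Agent.J4H67.OS.D

/-! The lower half and weak repulsion imply the upper half. -/

open MeasureTheory Filter Topology Real

namespace Pool.Agent.J4H67.OS

open H370 TH803TW Pool.Agent.Y744 Pool.Agent.Results.MP_103a5c_nt.BohrSetPairs

/-- partition lemma, lower bounds -/
lemma part_low {f m g : ℝ → ℝ} (hf : Continuous f) (hm : Continuous m) (hg : Continuous g)
    {a b δ : ℝ} (hab : a ≤ b) (hf0 : ∀ x ∈ Set.Icc a b, 0 ≤ f x)
    (hm0 : ∀ x ∈ Set.Icc a b, 0 ≤ m x) (hm1 : ∀ x ∈ Set.Icc a b, m x ≤ 1)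
    (hga : AntitoneOn g (Set.Icc a b)) (hg0 : ∀ x ∈ Set.Icc a b, 0 ≤ g x)
    (hg1 : ∀ x ∈ Set.Icc a b, g x ≤ 1) (hδ : 0 ≤ δ) (n : ℕ) (hn : 0 < n)
    (h : ∀ i < n, (∫ x in (a + i * ((b - a) / n))..(a + (i + 1) * ((b - a) / n)), m x) - δ ≤
      (∫ x in (a + i * ((b - a) / n))..(a + (i + 1) * ((b - a) / n)), f x)) :
    (∫ x in a..b, m x * g x) - (b - a) / n - n * δ ≤ ∫ x in a..b, f x * g x := by
  have hn0 : (0 : ℝ) < n := by exact_mod_cast hn
  set s : ℝ := (b - a) / n with hs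
  have hs0 : 0 ≤ s := div_nonneg (by linarith) hn0.le
  set p : ℕ → ℝ := fun i => a + i * s with hp
  have hp0 : p 0 = a := by simp [hp]
  have hpn : p n = b := by
    simp only [hp, hs]
    field_simp
    ring
  have hpm : ∀ i, p i ≤ p (i + 1) := by
    intro i
    simp only [hp]
    push_cast
    nlinarith
  have hpa : ∀ i, a ≤ p i := by
    intro i
    simp only [hp]
    have : (0 : ℝ) ≤ i := Nat.cast_nonneg i
    nlinarith
  have hpb : ∀ i ≤ n, p i ≤ b := by
    intro i hi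
    rw [← hpn]
    simp only [hp]
    have : (i : ℝ) ≤ n := by exact_mod_cast hi
    nlinarith
  have hpi : ∀ i < n, p i ∈ Set.Icc a b := fun i hi => ⟨hpa i, hpb i hi.le⟩
  have hpi' : ∀ i < n, p (i + 1) ∈ Set.Icc a b := fun i hi => ⟨hpa _, hpb _ hi⟩
  have hsum : ∀ φ : ℝ → ℝ, Continuous φ → ∫ x in a..b, φ x =
      ∑ i ∈ Finset.range n, ∫ x in (p i)..(p (i + 1)), φ x := by
    intro φ hφ
    rw [intervalIntegral.sum_integral_adjacent_intervals (fun i _ => hφ.intervalIntegrable _ _),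
      hp0, hpn]
  rw [hsum (fun x => f x * g x) (hf.mul hg), hsum (fun x => m x * g x) (hm.mul hg)]
  have hstep : ∀ i ∈ Finset.range n, (∫ x in (p i)..(p (i + 1)), m x * g x) ≤
      (∫ x in (p i)..(p (i + 1)), f x * g x) + (g (p i) - g (p (i + 1))) * s + δ := by
    intro i hi
    rw [Finset.mem_range] at hi
    have hsub : ∀ x ∈ Set.Icc (p i) (p (i + 1)), x ∈ Set.Icc a b := fun x hx =>
      ⟨(hpa i).trans hx.1, hx.2.trans (hpb _ hi)⟩
    have h1 : ∫ x in (p i)..(p (i + 1)), m x * g x ≤ g (p i) * ∫ x in (p i)..(p (i + 1)), m x := by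
      rw [← intervalIntegral.integral_const_mul]
      refine intervalIntegral.integral_mono_on (hpm i) ((hm.mul hg).intervalIntegrable _ _)
        ((continuous_const.mul hm).intervalIntegrable _ _) fun x hx => ?_
      rw [mul_comm]
      exact mul_le_mul_of_nonneg_right (hga (hpi i hi) (hsub x hx) hx.1) (hm0 x (hsub x hx))
    have h2 : g (p (i + 1)) * ∫ x in (p i)..(p (i + 1)), f x ≤
        ∫ x in (p i)..(p (i + 1)), f x * g x := by
      rw [← intervalIntegral.integral_const_mul]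
      refine intervalIntegral.integral_mono_on (hpm i) ((continuous_const.mul hf).intervalIntegrable _ _)
        ((hf.mul hg).intervalIntegrable _ _) fun x hx => ?_
      show g (p (i + 1)) * f x ≤ f x * g x
      rw [mul_comm]
      exact mul_le_mul_of_nonneg_left (hga (hsub x hx) (hpi' i hi) hx.2) (hf0 x (hsub x hx))
    have h3 : ∫ x in (p i)..(p (i + 1)), m x ≤ s := by
      calc ∫ x in (p i)..(p (i + 1)), m x ≤ ∫ x in (p i)..(p (i + 1)), (1 : ℝ) :=
            intervalIntegral.integral_mono_on (hpm i) (hm.intervalIntegrable _ _)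
              (by simp) fun x hx => hm1 x (hsub x hx)
        _ = s := by
            simp only [intervalIntegral.integral_const, smul_eq_mul, mul_one, hp]
            push_cast
            ring
    have h4 := h i hi
    have e1 : a + (i : ℝ) * s = p i := rfl
    have e2 : a + ((i : ℝ) + 1) * s = p (i + 1) := by
      simp only [hp]
      push_cast
      ring
    rw [e1, e2] at h4
    have h5 := mul_le_mul_of_nonneg_left h4 (hg0 _ (hpi' i hi))
    have h6 : g (p (i + 1)) * δ ≤ δ := by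
      have := hg1 _ (hpi' i hi)
      nlinarith
    have h7 : 0 ≤ g (p i) - g (p (i + 1)) := by
      have := hga (hpi i hi) (hpi' i hi) (hpm i)
      linarith
    have h8 := mul_le_mul_of_nonneg_left h3 h7
    nlinarith
  have h0 := Finset.sum_le_sum hstep
  rw [Finset.sum_add_distrib, Finset.sum_add_distrib, ← Finset.sum_mul,
    Finset.sum_range_sub' (fun i => g (p i))] at h0
  simp only [Finset.sum_const, Finset.card_range, nsmul_eq_mul] at h0
  have h9 : (g (p 0) - g (p n)) * s ≤ s := by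
    have h10 : g (p 0) ≤ 1 := hg1 _ (by rw [hp0]; exact ⟨le_rfl, hab⟩)
    have h11 : 0 ≤ g (p n) := hg0 _ (by rw [hpn]; exact ⟨hab, le_rfl⟩)
    nlinarith
  linarith

lemma LoI.mono {l l' : Filter ℝ} (h : l' ≤ l) {c d : ℝ} (hU : LoI l c d) : LoI l' c d :=
  fun a b h1 h2 h3 ε hε => h (hU a b h1 h2 h3 ε hε)

/-- concatenation -/
lemma LoI.glue {l : Filter ℝ} {a c d : ℝ} (h1 : LoI l a c) (h2 : LoI l c d) : LoI l a d := by
  intro x y hx hxy hy ε hε
  rcases le_or_gt y c with h3 | h3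
  · exact h1 x y hx hxy h3 ε hε
  rcases le_or_gt c x with h4 | h4
  · exact h2 x y h4 hxy hy ε hε
  filter_upwards [h1 x c hx h4 le_rfl (ε / 2) (by positivity),
    h2 c y le_rfl h3 hy (ε / 2) (by positivity)] with T h5 h6
  rw [← intervalIntegral.integral_add_adjacent_intervals (a := x) (b := c) (c := y)
    ((Fr_cont T).intervalIntegrable _ _) ((Fr_cont T).intervalIntegrable _ _),
    ← intervalIntegral.integral_add_adjacent_intervals (a := x) (b := c) (c := y)
    (mm_cont.intervalIntegrable _ _) (mm_cont.intervalIntegrable _ _)]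
  linarith

/-- weighted lower bound -/
lemma LoI.weight (RH : RiemannHypothesis) {l : Filter ℝ} (hl : l ≤ atTop) {a b A : ℝ} (ha : 0 ≤ a)
    (hab : a ≤ b) (hbA : b ≤ A) (hA : 0 < A) (hU : LoI l a b) {ε : ℝ} (hε : 0 < ε) :
    ∀ᶠ T in l, (∫ α in a..b, mm α * RA A α) - ε ≤ ∫ α in a..b, Fr T α * RA A α := by
  rcases eq_or_lt_of_le hab with rfl | hlt
  · filter_upwards with T
    simp [hε.le]
  obtain ⟨n, hn⟩ := exists_nat_gt (2 * (b - a) / ε)
  have hn0' : (0 : ℝ) < n := lt_of_le_of_lt (by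
    have : 0 ≤ b - a := by linarith
    positivity) hn
  have hn0 : 0 < n := by exact_mod_cast hn0'
  set s : ℝ := (b - a) / n with hs
  have hs0 : 0 < s := div_pos (by linarith) hn0'
  have hns : n * s = b - a := by rw [hs]; field_simp
  have hev : ∀ᶠ T in l, ∀ i ∈ Finset.range n,
      (∫ x in (a + i * s)..(a + (i + 1) * s), mm x) - ε / (2 * n) ≤
        ∫ x in (a + i * s)..(a + (i + 1) * s), Fr T x := by
    rw [Filter.eventually_all_finset]
    intro i hi
    rw [Finset.mem_range] at hi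
    have hi0 : (0 : ℝ) ≤ i := Nat.cast_nonneg i
    have hi1 : (i : ℝ) + 1 ≤ n := by exact_mod_cast hi
    refine hU _ _ (by nlinarith) (by nlinarith) ?_ _ (by positivity)
    have : (i + 1) * s ≤ n * s := mul_le_mul_of_nonneg_right hi1 hs0.le
    linarith
  have h1T : ∀ᶠ T in l, 1 < T := hl (eventually_gt_atTop 1)
  filter_upwards [hev, h1T] with T h1 hT
  have hsub : ∀ x ∈ Set.Icc a b, x ∈ Set.Ici (0 : ℝ) := fun x hx => ha.trans hx.1
  have habs : ∀ x ∈ Set.Icc a b, |x| ≤ A := fun x hx => by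
    rw [abs_of_nonneg (ha.trans hx.1)]
    exact hx.2.trans hbA
  have h2 := part_low (Fr_cont T) mm_cont (RA_cont A) (δ := ε / (2 * n)) hab
    (fun x _ => Fr_nonneg RH hT x) (fun x hx => mm_nonneg (ha.trans hx.1)) (fun x _ => mm_le x)
    ((RA_anti hA).mono hsub) (fun x hx => RA_nonneg hA (habs x hx)) (fun x _ => RA_le hA x)
    (by positivity) n hn0 (fun i hi => h1 i (Finset.mem_range.2 hi))
  have h3 : (b - a) / n ≤ ε / 2 := by
    rw [div_lt_iff₀ hε] at hn
    rw [div_le_iff₀ hn0']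
    linarith
  have h4 : n * (ε / (2 * n)) = ε / 2 := by field_simp
  rw [h4] at h2
  linarith

/-- weak repulsion: the number of pairs at normalised distance at most `β` is at most
`(1 + o(β)) N(T)` -/
def Rep (l : Filter ℝ) : Prop := ∀ ε : ℝ, 0 < ε → ∃ β₀ : ℝ, 0 < β₀ ∧ ∀ β : ℝ, 0 < β → β ≤ β₀ →
  ∀ᶠ T in l, Aa T β ≤ 1 + ε * β

lemma fejer_le {A : ℝ} (hA : 0 < A) (x : ℝ) : ∫ α in (-A)..A, RA A α * Real.cos (x * α) ≤ A := by
  have h0 := fejer_zero hA
  refine le_trans ?_ h0.le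
  refine intervalIntegral.integral_mono_on (by linarith)
    (((RA_cont A).mul (by fun_prop)).intervalIntegrable _ _)
    (((RA_cont A).mul (by fun_prop)).intervalIntegrable _ _) fun α hα => ?_
  rw [zero_mul, Real.cos_zero, mul_one]
  have h1 := RA_nonneg hA (abs_le.2 hα)
  have h2 := Real.cos_le_one (x * α)
  nlinarith

lemma fejer_dec {A : ℝ} (hA : 0 < A) {y : ℝ} (hy : y ≠ 0) :
    ∫ α in (-A)..A, RA A α * Real.cos (2 * π * y * α) ≤ 1 / (9 * A * y ^ 2) := by
  have hpi := Real.pi_gt_three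
  have hx : 2 * π * y ≠ 0 := by positivity
  have hc : Continuous fun α => RA A α * Real.cos (2 * π * y * α) := (RA_cont A).mul (by fun_prop)
  rw [even_int hc fun α => by rw [RA_even, mul_neg, Real.cos_neg]]
  have e : ∫ α in (0 : ℝ)..A, RA A α * Real.cos (2 * π * y * α) =
      ∫ α in (0 : ℝ)..A, (1 - α / A) * Real.cos (2 * π * y * α) := by
    refine intervalIntegral.integral_congr fun α hα => ?_
    rw [Set.uIcc_of_le hA.le] at hα
    show (1 - |α| / A) * _ = _
    rw [abs_of_nonneg hα.1]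
  rw [e, fejer_half hA hx]
  have h1 := Real.neg_one_le_cos (2 * π * y * A)
  have hy2 : 0 < y ^ 2 := by positivity
  have h2 : 2 * ((1 - Real.cos (2 * π * y * A)) / (A * (2 * π * y) ^ 2)) ≤
      2 * (2 / (A * (2 * π * y) ^ 2)) := by
    gcongr
    linarith
  refine h2.trans ?_
  rw [mul_div_assoc', div_le_div_iff₀ (by positivity) (by positivity)]
  have h3 : 9 ≤ π ^ 2 := by nlinarith
  have h4 : 0 < A * y ^ 2 := by positivity
  nlinarith

/-- the indicator -/
noncomputable def ind (β y : ℝ) : ℝ := Set.indicator {x : ℝ | |x| ≤ β} (fun _ => (1 : ℝ)) y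

lemma ind_pos {β y : ℝ} (h : |y| ≤ β) : ind β y = 1 := Set.indicator_of_mem (by exact h) _

lemma ind_neg {β y : ℝ} (h : β < |y|) : ind β y = 0 :=
  Set.indicator_of_notMem (by
    intro h2
    exact absurd h2 (not_le.2 h)) _

lemma dyadic_ker {φ A β₀ : ℝ} (hA : 0 < A) (hβ : 0 < β₀) {y : ℝ} (J : ℕ)
    (hφ : φ ≤ 1 / (9 * A * y ^ 2)) (hy : β₀ / 2 ^ J < |y|) :
    φ ≤ (∑ j ∈ Finset.range J, 4 / (9 * A * (β₀ / 2 ^ j) ^ 2) *
      (ind (β₀ / 2 ^ j) y - ind (β₀ / 2 ^ (j + 1)) y)) +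
      (1 + 1 / β₀ ^ 2) / (9 * A) * (1 / (1 + y ^ 2)) := by
  have hy0 : y ≠ 0 := by
    rintro rfl
    rw [abs_zero] at hy
    have : 0 < β₀ / 2 ^ J := by positivity
    linarith
  have hy2 : 0 < y ^ 2 := by positivity
  have htail : 0 ≤ (1 + 1 / β₀ ^ 2) / (9 * A) * (1 / (1 + y ^ 2)) := by positivity
  induction J with
  | zero =>
    rw [pow_zero, div_one] at hy
    rw [Finset.sum_range_zero, zero_add]
    refine hφ.trans ?_
    have h1 : β₀ ^ 2 ≤ y ^ 2 := by
      rw [← sq_abs y]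
      gcongr
    have h2 : 1 / y ^ 2 ≤ 1 / β₀ ^ 2 := by gcongr
    have e1 : 1 / (9 * A * y ^ 2) = (1 + 1 / y ^ 2) / (9 * A) * (1 / (1 + y ^ 2)) := by
      field_simp
      ring
    rw [e1]
    gcongr
  | succ J ih =>
    rcases lt_or_ge (β₀ / 2 ^ J) |y| with h | h
    · rw [Finset.sum_range_succ, ind_neg h, ind_neg hy]
      simpa using ih h
    · rw [Finset.sum_range_succ, ind_pos h, ind_neg hy]
      have h1 : ∑ j ∈ Finset.range J, 4 / (9 * A * (β₀ / 2 ^ j) ^ 2) *
          (ind (β₀ / 2 ^ j) y - ind (β₀ / 2 ^ (j + 1)) y) = 0 := by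
        refine Finset.sum_eq_zero fun j hj => ?_
        rw [Finset.mem_range] at hj
        have h2 : ∀ i ≤ J, |y| ≤ β₀ / 2 ^ i := by
          intro i hi
          refine h.trans ?_
          gcongr
          · norm_num
        rw [ind_pos (h2 j hj.le), ind_pos (h2 (j + 1) hj), sub_self, mul_zero]
      rw [h1, zero_add, sub_zero, mul_one]
      have h3 : 1 / (9 * A * y ^ 2) ≤ 4 / (9 * A * (β₀ / 2 ^ J) ^ 2) := by
        have h4 : (β₀ / 2 ^ (J + 1)) ^ 2 ≤ y ^ 2 := by
          rw [← sq_abs y]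
          gcongr
        have e : 4 / (9 * A * (β₀ / 2 ^ J) ^ 2) = 1 / (9 * A * (β₀ / 2 ^ (J + 1)) ^ 2) := by
          rw [pow_succ]
          field_simp
          ring
        rw [e]
        gcongr
      linarith

/-- the Fejér average, from above, under weak repulsion -/
lemma fejer_up (RH : RiemannHypothesis) {l : Filter ℝ} (hl : l ≤ atTop) (hR : Rep l) {ε : ℝ}
    (hε : 0 < ε) (A₀ : ℝ) : ∃ A : ℝ, A₀ ≤ A ∧ 1 ≤ A ∧
      ∀ᶠ T in l, ∫ α in (-A)..A, RA A α * Fr T α ≤ A + ε := by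
  obtain ⟨C, T0, hC, hT0, hS⟩ := sum_inv RH
  obtain ⟨β₀, hβ0, hβ⟩ := hR (ε / 4) (by positivity)
  obtain ⟨J, hJ⟩ := pow_unbounded_of_one_lt
    (β₀ * (|A₀| + 1 + 4 * C * (1 + 1 / β₀ ^ 2) / ε)) (one_lt_two)
  set A : ℝ := 2 ^ J / β₀ with hA
  have hAbig : |A₀| + 1 + 4 * C * (1 + 1 / β₀ ^ 2) / ε ≤ A := by
    rw [hA, le_div_iff₀ hβ0]
    linarith
  have hq : 0 ≤ 4 * C * (1 + 1 / β₀ ^ 2) / ε := by positivity
  have hA1 : 1 ≤ A := by
    have := abs_nonneg A₀
    linarith
  have hA0 : 0 < A := by linarith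
  refine ⟨A, by have := le_abs_self A₀; linarith, hA1, ?_⟩
  set ε' : ℝ := ε / (4 * (J + 1) * A) with hε'
  have hε'0 : 0 < ε' := by positivity
  have hev : ∀ᶠ T in l, ∀ j ∈ Finset.range (J + 1), Aa T (β₀ / 2 ^ j) ≤ 1 + ε / 4 * (β₀ / 2 ^ j) := by
    rw [Filter.eventually_all_finset]
    intro j _
    refine hβ _ (by positivity) ?_
    exact div_le_self hβ0.le (one_le_pow₀ (by norm_num))
  filter_upwards [hev, hl (Aa_diag hε'0), hl (eventually_ge_atTop T0),
    hl (eventually_gt_atTop 1)] with T h1 h2 h3 hT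
  have hX := Xf_pos hT
  have hL := Real.log_pos hT
  have hpi := Real.pi_pos
  have hβJ : β₀ / 2 ^ J = 1 / A := by rw [hA]; field_simp
  -- pointwise bound for the kernel
  have hker : ∀ s s' : ℂ, W (s.im - s'.im) *
      (∫ α in (-A)..A, RA A α * Real.cos (Real.log T * (s.im - s'.im) * α)) ≤
      A * ind (β₀ / 2 ^ J) (dd T s s') +
      (∑ j ∈ Finset.range J, 4 / (9 * A * (β₀ / 2 ^ j) ^ 2) *
        (ind (β₀ / 2 ^ j) (dd T s s') - ind (β₀ / 2 ^ (j + 1)) (dd T s s'))) +
      (1 + 1 / β₀ ^ 2) / (9 * A) * (1 / (1 + (dd T s s') ^ 2)) := by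
    intro s s'
    have e1 : Real.log T * (s.im - s'.im) = 2 * π * dd T s s' := by
      unfold dd
      field_simp
    rw [e1]
    set y := dd T s s'
    have hφ0 := fejer_nonneg hA0 (2 * π * y)
    have hW : W (s.im - s'.im) * (∫ α in (-A)..A, RA A α * Real.cos (2 * π * y * α)) ≤
        ∫ α in (-A)..A, RA A α * Real.cos (2 * π * y * α) := by
      have := W_le (s.im - s'.im)
      nlinarith
    refine hW.trans ?_
    rcases le_or_gt |y| (β₀ / 2 ^ J) with h | h
    · rw [ind_pos h, mul_one]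
      have h4 : ∑ j ∈ Finset.range J, 4 / (9 * A * (β₀ / 2 ^ j) ^ 2) *
          (ind (β₀ / 2 ^ j) y - ind (β₀ / 2 ^ (j + 1)) y) = 0 := by
        refine Finset.sum_eq_zero fun j hj => ?_
        rw [Finset.mem_range] at hj
        have h5 : ∀ i ≤ J, |y| ≤ β₀ / 2 ^ i := by
          intro i hi
          refine h.trans ?_
          gcongr
          · norm_num
        rw [ind_pos (h5 j hj.le), ind_pos (h5 (j + 1) hj), sub_self, mul_zero]
      rw [h4, add_zero]
      have h6 := fejer_le hA0 (2 * π * y)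
      have h7 : 0 ≤ (1 + 1 / β₀ ^ 2) / (9 * A) * (1 / (1 + y ^ 2)) := by positivity
      linarith
    · rw [ind_neg h, mul_zero, zero_add]
      have hy0 : y ≠ 0 := by
        intro h0
        rw [h0, abs_zero] at h
        have : 0 < β₀ / 2 ^ J := by positivity
        linarith
      exact dyadic_ker hA0 hβ0 J (fejer_dec hA0 hy0) h
  rw [Fr_int T _ _ (RA_cont A)]
  have hAa : ∀ β : ℝ, ∑ s ∈ Zt T, ∑ s' ∈ Zt T, mz s * mz s' * ind β (dd T s s') =
      Xf T * Aa T β := by
    intro β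
    unfold Aa PC ind
    rw [← mul_assoc, mul_inv_cancel₀ hX.ne', one_mul]
  have hsum : ∑ s ∈ Zt T, ∑ s' ∈ Zt T, mz s * mz s' * (W (s.im - s'.im) *
      (∫ α in (-A)..A, RA A α * Real.cos (Real.log T * (s.im - s'.im) * α))) ≤
      A * (Xf T * Aa T (β₀ / 2 ^ J)) + (∑ j ∈ Finset.range J, 4 / (9 * A * (β₀ / 2 ^ j) ^ 2) *
        (Xf T * Aa T (β₀ / 2 ^ j) - Xf T * Aa T (β₀ / 2 ^ (j + 1)))) +
      (1 + 1 / β₀ ^ 2) / (9 * A) * (C * Xf T) := by
    have e1 : ∑ s ∈ Zt T, ∑ s' ∈ Zt T, mz s * mz s' * (A * ind (β₀ / 2 ^ J) (dd T s s') +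
      (∑ j ∈ Finset.range J, 4 / (9 * A * (β₀ / 2 ^ j) ^ 2) *
        (ind (β₀ / 2 ^ j) (dd T s s') - ind (β₀ / 2 ^ (j + 1)) (dd T s s'))) +
      (1 + 1 / β₀ ^ 2) / (9 * A) * (1 / (1 + (dd T s s') ^ 2))) =
      A * (Xf T * Aa T (β₀ / 2 ^ J)) + (∑ j ∈ Finset.range J, 4 / (9 * A * (β₀ / 2 ^ j) ^ 2) *
        (Xf T * Aa T (β₀ / 2 ^ j) - Xf T * Aa T (β₀ / 2 ^ (j + 1)))) +
      (1 + 1 / β₀ ^ 2) / (9 * A) * ∑ s ∈ Zt T, ∑ s' ∈ Zt T, mz s * mz s' *
        (1 / (1 + (dd T s s') ^ 2)) := by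
      simp_rw [← hAa]
      simp_rw [mul_add, Finset.sum_add_distrib, Finset.mul_sum]
      congr 1
      · congr 1
        · refine Finset.sum_congr rfl fun s _ => Finset.sum_congr rfl fun s' _ => ?_
          ring
        · have e2 : ∀ j : ℕ, 4 / (9 * A * (β₀ / 2 ^ j) ^ 2) *
              ((∑ s ∈ Zt T, ∑ s' ∈ Zt T, mz s * mz s' * ind (β₀ / 2 ^ j) (dd T s s')) -
              ∑ s ∈ Zt T, ∑ s' ∈ Zt T, mz s * mz s' * ind (β₀ / 2 ^ (j + 1)) (dd T s s')) =
              ∑ s ∈ Zt T, ∑ s' ∈ Zt T, mz s * mz s' * (4 / (9 * A * (β₀ / 2 ^ j) ^ 2) *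
                (ind (β₀ / 2 ^ j) (dd T s s') - ind (β₀ / 2 ^ (j + 1)) (dd T s s'))) := by
            intro j
            rw [← Finset.sum_sub_distrib, Finset.mul_sum]
            refine Finset.sum_congr rfl fun s _ => ?_
            rw [← Finset.sum_sub_distrib, Finset.mul_sum]
            refine Finset.sum_congr rfl fun s' _ => ?_
            ring
          simp_rw [e2]
          symm
          rw [Finset.sum_comm]
          refine Finset.sum_congr rfl fun s _ => ?_
          rw [Finset.sum_comm]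
      · refine Finset.sum_congr rfl fun s _ => Finset.sum_congr rfl fun s' _ => ?_
        ring
    calc _ ≤ ∑ s ∈ Zt T, ∑ s' ∈ Zt T, mz s * mz s' * (A * ind (β₀ / 2 ^ J) (dd T s s') +
      (∑ j ∈ Finset.range J, 4 / (9 * A * (β₀ / 2 ^ j) ^ 2) *
        (ind (β₀ / 2 ^ j) (dd T s s') - ind (β₀ / 2 ^ (j + 1)) (dd T s s'))) +
      (1 + 1 / β₀ ^ 2) / (9 * A) * (1 / (1 + (dd T s s') ^ 2))) :=
          Finset.sum_le_sum fun s _ => Finset.sum_le_sum fun s' _ =>
            mul_le_mul_of_nonneg_left (hker s s') (mul_nonneg (mz_nonneg _) (mz_nonneg _))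
      _ = _ := e1
      _ ≤ _ := by
          have := hS T h3
          gcongr
  -- the three terms
  have g1 : A * Aa T (β₀ / 2 ^ J) ≤ A + ε / 4 := by
    have h4 := h1 J (Finset.mem_range.2 (by omega))
    have h5 := mul_le_mul_of_nonneg_left h4 hA0.le
    rw [hβJ] at h5
    rw [hβJ]
    have e : A * (1 + ε / 4 * (1 / A)) = A + ε / 4 := by field_simp
    linarith
  have g2 : ∑ j ∈ Finset.range J, 4 / (9 * A * (β₀ / 2 ^ j) ^ 2) *
      (Aa T (β₀ / 2 ^ j) - Aa T (β₀ / 2 ^ (j + 1))) ≤ ε / 4 := by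
    have h4 : ∀ j ∈ Finset.range J, 4 / (9 * A * (β₀ / 2 ^ j) ^ 2) *
        (Aa T (β₀ / 2 ^ j) - Aa T (β₀ / 2 ^ (j + 1))) ≤
        ε / (9 * A * β₀) * 2 ^ j + ε / (9 * (J + 1)) := by
      intro j hj
      rw [Finset.mem_range] at hj
      have h5 := h1 j (Finset.mem_range.2 (by omega))
      have h6 : 1 - ε' ≤ Aa T (β₀ / 2 ^ (j + 1)) := h2.trans (Aa_mono hT (by positivity))
      have h7 : Aa T (β₀ / 2 ^ j) - Aa T (β₀ / 2 ^ (j + 1)) ≤ ε / 4 * (β₀ / 2 ^ j) + ε' := by
        linarith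
      refine (mul_le_mul_of_nonneg_left h7 (by positivity)).trans ?_
      rw [mul_add]
      refine add_le_add (le_of_eq ?_) ?_
      · field_simp
      · have h8 : (2 : ℝ) ^ j / β₀ ≤ A := by
          rw [hA]
          gcongr
          · norm_num
        have e3 : 4 / (9 * A * (β₀ / 2 ^ j) ^ 2) * ε' =
            ε / (9 * (J + 1)) * (((2 : ℝ) ^ j / β₀) / A) ^ 2 := by
          rw [hε']
          field_simp
        rw [e3]
        have h9 : ((2 : ℝ) ^ j / β₀) / A ≤ 1 := by rw [div_le_one hA0]; exact h8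
        have h10 : (((2 : ℝ) ^ j / β₀) / A) ^ 2 ≤ 1 := pow_le_one₀ (by positivity) h9
        exact mul_le_of_le_one_right (by positivity) h10
    refine (Finset.sum_le_sum h4).trans ?_
    rw [Finset.sum_add_distrib, ← Finset.mul_sum, Finset.sum_const, Finset.card_range, nsmul_eq_mul]
    have h5 : ∑ j ∈ Finset.range J, (2 : ℝ) ^ j ≤ 2 ^ J := by
      have h6 := geom_sum_eq (show (2 : ℝ) ≠ 1 by norm_num) J
      rw [h6]
      norm_num
    have h6 : ε / (9 * A * β₀) * ∑ j ∈ Finset.range J, (2 : ℝ) ^ j ≤ ε / 9 := by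
      calc ε / (9 * A * β₀) * ∑ j ∈ Finset.range J, (2 : ℝ) ^ j ≤ ε / (9 * A * β₀) * 2 ^ J := by
            gcongr
        _ = ε / 9 := by
            rw [hA]
            field_simp
    have h7 : (J : ℝ) * (ε / (9 * (J + 1))) ≤ ε / 9 := by
      have e : (J : ℝ) * (ε / (9 * (J + 1))) = ε / 9 * (J / (J + 1)) := by field_simp
      rw [e]
      refine mul_le_of_le_one_right (by positivity) ?_
      rw [div_le_one (by positivity)]
      linarith
    linarith
  have g3 : (1 + 1 / β₀ ^ 2) / (9 * A) * C ≤ ε / 4 := by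
    have h4 : 4 * C * (1 + 1 / β₀ ^ 2) / ε ≤ A := by
      have := abs_nonneg A₀
      linarith
    rw [div_le_iff₀ hε] at h4
    rw [div_mul_eq_mul_div, div_le_iff₀ (by positivity)]
    nlinarith
  rw [inv_mul_le_iff₀ hX]
  refine hsum.trans ?_
  have e4 : A * (Xf T * Aa T (β₀ / 2 ^ J)) + (∑ j ∈ Finset.range J,
      4 / (9 * A * (β₀ / 2 ^ j) ^ 2) *
        (Xf T * Aa T (β₀ / 2 ^ j) - Xf T * Aa T (β₀ / 2 ^ (j + 1)))) +
      (1 + 1 / β₀ ^ 2) / (9 * A) * (C * Xf T) =
      Xf T * (A * Aa T (β₀ / 2 ^ J) + (∑ j ∈ Finset.range J, 4 / (9 * A * (β₀ / 2 ^ j) ^ 2) *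
      (Aa T (β₀ / 2 ^ j) - Aa T (β₀ / 2 ^ (j + 1)))) + (1 + 1 / β₀ ^ 2) / (9 * A) * C) := by
    rw [mul_add, mul_add, Finset.mul_sum]
    congr 1
    · congr 1
      · ring
      · refine Finset.sum_congr rfl fun j _ => ?_
        ring
    · ring
  rw [e4]
  refine mul_le_mul_of_nonneg_left ?_ hX.le
  linarith

/-- **the lower half and weak repulsion imply the upper half** -/
theorem low_rep (RH : RiemannHypothesis) {l : Filter ℝ} (hl : l ≤ atTop) {c : ℝ} (hc : 0 < c)
    (hc1 : c < 1) (hU : ∀ d, LoI l c d) (hR : Rep l) : ∀ d, UpI l c d := by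
  intro d x y hx hxy _ ε hε
  have hx0 : 0 < x := hc.trans_le hx
  have hy0 : 0 < y := hx0.trans hxy
  set a : ℝ := c / 2 with ha
  have ha0 : 0 < a := by rw [ha]; linarith
  have hac : a < c := by rw [ha]; linarith
  have ha1 : a < 1 := hac.trans hc1
  have hUa : ∀ d, LoI l a d := fun d => ((LoI_low RH ha0 hc1).mono hl).glue (hU d)
  set δ : ℝ := min (ε / 8) 1 with hδ
  have hδ0 : 0 < δ := lt_min (by positivity) one_pos
  obtain ⟨A, hA2, hA1, hF⟩ := fejer_up RH hl hR (ε := δ) hδ0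
    (2 * y + 4 * y * (y + 6) / ε + 8 / ε)
  have hA0 : 0 < A := by linarith
  have hq1 : 0 ≤ 4 * y * (y + 6) / ε := by positivity
  have hq2 : 0 ≤ 8 / ε := by positivity
  have hyA2 : 2 * y ≤ A := by linarith
  have hyA : y ≤ A := by linarith
  have hL1 : LoI l a x := hUa x
  have hL2 : LoI l y A := fun u v h1 h2 h3 =>
    hUa A u v ((hac.le.trans hx).trans (hxy.le.trans h1)) h2 h3
  filter_upwards [hF, hl (GL_lt RH ha0 ha1 (ε := δ) hδ0),
    hL1.weight RH hl ha0.le (hac.le.trans hx) (hxy.le.trans hyA) hA0 (ε := δ) hδ0,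
    hL2.weight RH hl hy0.le hyA le_rfl hA0 (ε := δ) hδ0, hl (eventually_gt_atTop 1)]
    with T h1 h2 h3 h4 hT
  have hc : Continuous fun α => RA A α * Fr T α := (RA_cont A).mul (Fr_cont T)
  have hce : ∀ x, RA A (-x) * Fr T (-x) = RA A x * Fr T x := fun x => by
    rw [RA_even, Fr_even]
  rw [even_int hc hce, ← intervalIntegral.integral_add_adjacent_intervals (a := 0) (b := a) (c := A)
    (hc.intervalIntegrable _ _) (hc.intervalIntegrable _ _)] at h1
  have h5 : ∫ α in a..A, RA A α * Fr T α = ∫ α in a..A, Fr T α * RA A α :=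
    intervalIntegral.integral_congr fun α _ => mul_comm _ _
  rw [h5] at h1
  have hF0 := fun α => Fr_nonneg RH hT α
  -- near `0`
  have h6 : (1 - a / A) * G T a ≤ 2 * ∫ α in (0 : ℝ)..a, RA A α * Fr T α := by
    unfold G
    rw [even_int (Fr_cont T) (Fr_even T)]
    have h7 : ∫ α in (0 : ℝ)..a, (1 - a / A) * Fr T α ≤ ∫ α in (0 : ℝ)..a, RA A α * Fr T α := by
      refine intervalIntegral.integral_mono_on ha0.le
        ((continuous_const.mul (Fr_cont T)).intervalIntegrable _ _)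
        (hc.intervalIntegrable _ _) fun x hx => ?_
      refine mul_le_mul_of_nonneg_right ?_ (hF0 x)
      unfold RA
      rw [abs_of_nonneg hx.1]
      have : x / A ≤ a / A := by
        have := hx.2
        gcongr
      linarith
    rw [intervalIntegral.integral_const_mul] at h7
    linarith
  have haA : a / A ≤ 1 / A := by gcongr
  have haA0 : 0 ≤ a / A := by positivity
  have h1A : 1 / A ≤ ε / 8 := by
    rw [div_le_div_iff₀ hA0 (by norm_num)]
    have : 8 / ε ≤ A := by linarith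
    rw [div_le_iff₀ hε] at this
    linarith
  have h1A1 : 1 / A ≤ 1 := by rw [div_le_one hA0]; exact hA1
  have hδ1 : δ ≤ 1 := min_le_right _ _
  have hδε : δ ≤ ε / 8 := min_le_left _ _
  have ha2 : a ^ 2 ≤ 1 := pow_le_one₀ ha0.le ha1.le
  have h8 : 1 + a ^ 2 - δ - 2 * (ε / 8) ≤ (1 - a / A) * G T a := by
    have h9 : (1 - a / A) * (1 + a ^ 2 - δ) ≤ (1 - a / A) * G T a :=
      mul_le_mul_of_nonneg_left h2 (by linarith)
    have h10 : a / A * (1 + a ^ 2 - δ) ≤ 2 * (ε / 8) := by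
      have h11 : a / A * (1 + a ^ 2 - δ) ≤ a / A * 2 :=
        mul_le_mul_of_nonneg_left (by linarith) haA0
      linarith
    nlinarith
  have hcF : Continuous fun α => Fr T α * RA A α := (Fr_cont T).mul (RA_cont A)
  have hcm : Continuous fun α => mm α * RA A α := mm_cont.mul (RA_cont A)
  have e1 := intervalIntegral.integral_add_adjacent_intervals (a := a) (b := x) (c := y)
    (hcF.intervalIntegrable (μ := volume) _ _) (hcF.intervalIntegrable _ _)
  have e2 := intervalIntegral.integral_add_adjacent_intervals (a := a) (b := y) (c := A)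
    (hcF.intervalIntegrable (μ := volume) _ _) (hcF.intervalIntegrable _ _)
  have e3 := intervalIntegral.integral_add_adjacent_intervals (a := a) (b := x) (c := y)
    (hcm.intervalIntegrable (μ := volume) _ _) (hcm.intervalIntegrable _ _)
  have e4 := intervalIntegral.integral_add_adjacent_intervals (a := a) (b := y) (c := A)
    (hcm.intervalIntegrable (μ := volume) _ _) (hcm.intervalIntegrable _ _)
  have e5 := mm_int ha0.le ha1.le hA1
  have h12 : 0 ≤ 1 / (6 * A) := by positivity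
  have h13 : 0 ≤ a ^ 3 / (3 * A) := by positivity
  -- the weighted bound for the window
  have h14 : ∫ α in x..y, Fr T α * RA A α ≤ (∫ α in x..y, mm α * RA A α) + ε / 2 := by
    linarith
  have h15 : (1 - y / A) * ∫ α in x..y, Fr T α ≤ ∫ α in x..y, Fr T α * RA A α := by
    rw [← intervalIntegral.integral_const_mul]
    refine intervalIntegral.integral_mono_on hxy.le
      ((continuous_const.mul (Fr_cont T)).intervalIntegrable _ _) (hcF.intervalIntegrable _ _)
      fun α hα => ?_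
    rw [mul_comm]
    refine mul_le_mul_of_nonneg_left ?_ (hF0 α)
    unfold RA
    rw [abs_of_nonneg (hx0.le.trans hα.1)]
    have : α / A ≤ y / A := by
      have := hα.2
      gcongr
    linarith
  have h16 : ∫ α in x..y, mm α * RA A α ≤ ∫ α in x..y, mm α := by
    refine intervalIntegral.integral_mono_on hxy.le (hcm.intervalIntegrable _ _)
      (mm_cont.intervalIntegrable _ _) fun α hα => ?_
    have := RA_le hA0 α
    have := mm_nonneg (hx0.le.trans hα.1)
    nlinarith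
  have h17 : ∫ α in x..y, mm α ≤ y := by
    calc ∫ α in x..y, mm α ≤ ∫ α in x..y, (1 : ℝ) :=
          intervalIntegral.integral_mono_on hxy.le (mm_cont.intervalIntegrable _ _)
            (by simp) fun α _ => mm_le α
      _ = y - x := by simp
      _ ≤ y := by linarith
  set I := ∫ α in x..y, Fr T α with hI
  set M := ∫ α in x..y, mm α with hM
  have hI0 : 0 ≤ I := intervalIntegral.integral_nonneg hxy.le fun α _ => hF0 α
  have h18 : (1 - y / A) * I ≤ M + ε / 2 := by linarith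
  have hyA3 : y / A ≤ 1 / 2 := by
    rw [div_le_div_iff₀ hA0 (by norm_num)]
    linarith
  have h19 : I ≤ 2 * y + ε := by nlinarith
  have h20 : 4 * y * (y + 6) / ε + 2 * y ≤ A := by linarith
  have h21 : y / A * (2 * y + ε) ≤ ε / 2 := by
    rw [div_mul_eq_mul_div, div_le_iff₀ hA0]
    have h22 : 4 * y * (y + 6) + 2 * y * ε ≤ A * ε := by
      have h23 := mul_le_mul_of_nonneg_right h20 hε.le
      have h24 : (4 * y * (y + 6) / ε + 2 * y) * ε = 4 * y * (y + 6) + 2 * y * ε := by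
        field_simp
      linarith
    nlinarith
  have h22 : y / A * I ≤ y / A * (2 * y + ε) := mul_le_mul_of_nonneg_left h19 (by positivity)
  have h23 : I = (1 - y / A) * I + y / A * I := by ring
  linarith

end Pool.Agent.J4H67.OS
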