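import Pool.Agent.J4H67.OS.S
import Pool.Agent.H345R2.A2.Four

/-! A decreasing band-limited function and the positive weight `sin⁴ (a t) / (a² t³)`. -/

open MeasureTheory Filter Topology Real Set

namespace Pool.Agent.J4H67.OS

/-- the weight -/
noncomputable def ph (κ t : ℝ) : ℝ :=
  Real.sin (π * κ / 2 * t) ^ 4 / ((π * κ / 2) ^ 2 * t ^ 3)

lemma ph_nonneg (κ : ℝ) {t : ℝ} (ht : 0 ≤ t) : 0 ≤ ph κ t := by unfold ph; positivity

lemma ph_meas (κ : ℝ) : Measurable (ph κ) := by unfold ph; fun_prop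

lemma ph_le_small {κ : ℝ} (hκ : 0 < κ) {t : ℝ} (ht : 0 < t) : ph κ t ≤ (π * κ / 2) ^ 2 * t := by
  have hpi := Real.pi_pos
  set a := π * κ / 2 with ha
  have ha0 : 0 < a := by positivity
  unfold ph
  rw [div_le_iff₀ (by positivity)]
  have h1 : |Real.sin (a * t)| ≤ |a * t| := Real.abs_sin_le_abs
  have h2 : Real.sin (a * t) ^ 4 ≤ (a * t) ^ 4 := by
    have := pow_le_pow_left₀ (abs_nonneg _) h1 4
    rwa [Even.pow_abs (by decide), Even.pow_abs (by decide)] at this
  calc Real.sin (a * t) ^ 4 ≤ (a * t) ^ 4 := h2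
    _ = a ^ 2 * t * (a ^ 2 * t ^ 3) := by ring

lemma ph_le_large {κ : ℝ} (hκ : 0 < κ) {t : ℝ} (ht : 0 < t) :
    ph κ t ≤ 1 / ((π * κ / 2) ^ 2 * t ^ 3) := by
  have hpi := Real.pi_pos
  unfold ph
  have h1 : Real.sin (π * κ / 2 * t) ^ 4 ≤ 1 := by
    have := pow_le_one₀ (n := 4) (abs_nonneg _) (Real.abs_sin_le_one (π * κ / 2 * t))
    rwa [Even.pow_abs (by decide)] at this
  gcongr

/-- integrability of the weight, with a linear factor -/
lemma ph_int {κ : ℝ} (hκ : 0 < κ) : IntegrableOn (fun t => ph κ t * (1 + t)) (Ioi 0) := by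
  have hpi := Real.pi_pos
  set a := π * κ / 2 with ha
  have ha0 : 0 < a := by positivity
  set C : ℝ := 4 * a ^ 2 + 4 / a ^ 2 with hC
  have hC0 : 0 ≤ C := by positivity
  refine (integrable_inv_one_add_sq.const_mul C).integrableOn.mono' ?_ ?_
  · exact ((ph_meas κ).mul (by fun_prop)).aestronglyMeasurable
  · refine (ae_restrict_iff' measurableSet_Ioi).2 (Filter.Eventually.of_forall fun t ht => ?_)
    have ht0 : 0 < t := ht
    rw [Real.norm_eq_abs, abs_of_nonneg (mul_nonneg (ph_nonneg κ ht0.le) (by linarith)),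
      ← div_eq_mul_inv, le_div_iff₀ (by positivity)]
    rcases le_or_gt t 1 with h | h
    · have h1 := ph_le_small hκ ht0
      rw [← ha] at h1
      have h2 : (1 + t) * (1 + t ^ 2) ≤ 4 := by nlinarith
      have h3 := ph_nonneg κ ht0.le
      calc ph κ t * (1 + t) * (1 + t ^ 2) = ph κ t * ((1 + t) * (1 + t ^ 2)) := by ring
        _ ≤ (a ^ 2 * t) * 4 := by gcongr
        _ ≤ (a ^ 2 * 1) * 4 := by gcongr
        _ ≤ C := by
            have : 0 ≤ 4 / a ^ 2 := by positivity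
            rw [hC]; linarith
    · have h1 := ph_le_large hκ ht0
      rw [← ha] at h1
      have h2 : (1 + t) * (1 + t ^ 2) ≤ 4 * t ^ 3 := by nlinarith [sq_nonneg t, sq_nonneg (t - 1)]
      have h3 := ph_nonneg κ ht0.le
      calc ph κ t * (1 + t) * (1 + t ^ 2) = ph κ t * ((1 + t) * (1 + t ^ 2)) := by ring
        _ ≤ (1 / (a ^ 2 * t ^ 3)) * (4 * t ^ 3) := by gcongr
        _ = 4 / a ^ 2 := by field_simp
        _ ≤ C := by
            have : 0 ≤ 4 * a ^ 2 := by positivity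
            rw [hC]; linarith

lemma ph_int0 {κ : ℝ} (hκ : 0 < κ) : IntegrableOn (ph κ) (Ioi 0) := by
  refine (ph_int hκ).mono' (ph_meas κ).aestronglyMeasurable ?_
  refine (ae_restrict_iff' measurableSet_Ioi).2 (Filter.Eventually.of_forall fun t ht => ?_)
  have ht0 : 0 < t := ht
  have h3 := ph_nonneg κ ht0.le
  rw [Real.norm_eq_abs, abs_of_nonneg h3]
  nlinarith

/-- the decreasing function -/
noncomputable def rr (κ y : ℝ) : ℝ := ∫ c in (κ / 2)..κ, 2 / c ^ 3 * Cc (2 * π * y) c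

/-- the integrand in the variable `c y` -/
noncomputable def Gg (v : ℝ) : ℝ := (1 - Real.cos (2 * π * v)) / (2 * π ^ 2 * v ^ 3)

lemma rr_eq {κ y : ℝ} (hκ : 0 < κ) (hy : 0 < y) :
    rr κ y = ∫ v in (κ / 2 * y)..(κ * y), Gg v := by
  have hpi := Real.pi_pos
  rw [← intervalIntegral.mul_integral_comp_mul_right, ← intervalIntegral.integral_const_mul]
  unfold rr
  refine intervalIntegral.integral_congr fun c hc => ?_
  rw [Set.uIcc_of_le (by linarith)] at hc
  have hc0 : 0 < c := by linarith [hc.1]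
  show 2 / c ^ 3 * Cc (2 * π * y) c = y * Gg (c * y)
  rw [Cc_ne (by positivity)]
  unfold Gg
  rw [show 2 * π * (c * y) = 2 * π * y * c by ring]
  field_simp

lemma Gg_cont : ContinuousOn Gg (Ioi 0) := by
  unfold Gg
  have hpi := Real.pi_pos
  refine ContinuousOn.div (by fun_prop) (by fun_prop) fun v hv => ?_
  have : 0 < v := hv
  positivity

lemma rr_deriv {κ y : ℝ} (hκ : 0 < κ) (hy : 0 < y) : HasDerivAt (rr κ) (-ph κ y) y := by
  have hpi := Real.pi_pos
  have hF : ∀ v : ℝ, 0 < v → HasDerivAt (fun v => ∫ u in (1 : ℝ)..v, Gg u) (Gg v) v := by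
    intro v hv
    refine intervalIntegral.integral_hasDerivAt_right ?_ ?_ ?_
    · refine (Gg_cont.mono ?_).intervalIntegrable
      intro u hu
      exact lt_of_lt_of_le (lt_min one_pos hv) hu.1
    · exact Gg_cont.stronglyMeasurableAtFilter isOpen_Ioi _ hv
    · exact Gg_cont.continuousAt (isOpen_Ioi.mem_nhds hv)
  have h1 : HasDerivAt (fun y => (∫ u in (1 : ℝ)..(κ * y), Gg u) -
      ∫ u in (1 : ℝ)..(κ / 2 * y), Gg u) (Gg (κ * y) * κ - Gg (κ / 2 * y) * (κ / 2)) y := by
    have e1 : HasDerivAt (fun y : ℝ => κ * y) κ y := by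
      simpa using (hasDerivAt_id y).const_mul κ
    have e2 : HasDerivAt (fun y : ℝ => κ / 2 * y) (κ / 2) y := by
      simpa using (hasDerivAt_id y).const_mul (κ / 2)
    exact ((hF (κ * y) (by positivity)).comp y e1).sub ((hF (κ / 2 * y) (by positivity)).comp y e2)
  have h2 : Gg (κ * y) * κ - Gg (κ / 2 * y) * (κ / 2) = -ph κ y := by
    unfold Gg ph
    set x := π * κ / 2 * y with hx
    have c1 : 2 * π * (κ * y) = 2 * (2 * x) := by rw [hx]; ring
    have c2 : 2 * π * (κ / 2 * y) = 2 * x := by rw [hx]; ring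
    rw [c1, c2, Real.cos_two_mul, Real.cos_two_mul x]
    have hs : Real.cos x ^ 2 = 1 - Real.sin x ^ 2 := Real.cos_sq' x
    rw [hs]
    field_simp
    ring
  rw [h2] at h1
  refine h1.congr_of_eventuallyEq ?_
  filter_upwards [isOpen_Ioi.mem_nhds (show y ∈ Ioi 0 from hy)] with z hz
  have hz0 : 0 < z := hz
  have hii : ∀ b : ℝ, 0 < b → IntervalIntegrable Gg volume 1 b := by
    intro b hb
    refine (Gg_cont.mono ?_).intervalIntegrable
    intro u hu
    exact lt_of_lt_of_le (lt_min one_pos hb) hu.1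
  rw [rr_eq hκ hz0, intervalIntegral.integral_interval_sub_left (hii _ (by positivity))
    (hii _ (by positivity))]

lemma rr_bound {κ y : ℝ} (hκ : 0 < κ) (hy : y ≠ 0) : |rr κ y| ≤ 8 / (π ^ 2 * κ ^ 2 * y ^ 2) := by
  have hpi := Real.pi_pos
  have h1 : ‖rr κ y‖ ≤ 16 / (π ^ 2 * κ ^ 3 * y ^ 2) * |κ - κ / 2| := by
    unfold rr
    refine intervalIntegral.norm_integral_le_of_norm_le_const fun c hc => ?_
    rw [Set.uIoc_of_le (by linarith)] at hc
    have hc0 : 0 < c := by linarith [hc.1]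
    have h2 : 0 ≤ 2 / c ^ 3 * Cc (2 * π * y) c := mul_nonneg (by positivity) (Cc_nonneg _ _)
    rw [Real.norm_eq_abs, abs_of_nonneg h2, Cc_ne (by positivity)]
    have h3 : 1 - Real.cos (2 * π * y * c) ≤ 2 := by
      linarith [Real.neg_one_le_cos (2 * π * y * c)]
    have h4 : 2 / c ^ 3 ≤ 16 / κ ^ 3 := by
      rw [div_le_div_iff₀ (by positivity) (by positivity)]
      have : (κ / 2) ^ 3 ≤ c ^ 3 := by
        have := hc.1
        gcongr
      nlinarith
    calc 2 / c ^ 3 * ((1 - Real.cos (2 * π * y * c)) / (2 * π * y) ^ 2) ≤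
        16 / κ ^ 3 * (2 / (2 * π * y) ^ 2) := by
          have h5 : 0 ≤ 1 - Real.cos (2 * π * y * c) := by
            linarith [Real.cos_le_one (2 * π * y * c)]
          gcongr
      _ = 8 / (π ^ 2 * κ ^ 3 * y ^ 2) := by field_simp; ring
      _ ≤ 16 / (π ^ 2 * κ ^ 3 * y ^ 2) := by gcongr; norm_num
  rw [Real.norm_eq_abs] at h1
  refine h1.trans (le_of_eq ?_)
  rw [abs_of_pos (by linarith)]
  field_simp
  ring

lemma rr_tendsto {κ : ℝ} (hκ : 0 < κ) : Tendsto (rr κ) atTop (𝓝 0) := by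
  have hpi := Real.pi_pos
  have h0 : Tendsto (fun y : ℝ => 8 / (π ^ 2 * κ ^ 2 * y ^ 2)) atTop (𝓝 0) := by
    have h1 : Tendsto (fun y : ℝ => π ^ 2 * κ ^ 2 * y ^ 2) atTop atTop :=
      Tendsto.const_mul_atTop (by positivity) (tendsto_pow_atTop (by norm_num))
    exact h1.const_div_atTop _
  refine squeeze_zero_norm' ?_ h0
  filter_upwards [eventually_gt_atTop 0] with y hy
  exact rr_bound hκ hy.ne'

lemma Cc_near {θ c : ℝ} (hc : 0 ≤ c) : |Cc θ c - c ^ 2 / 2| ≤ θ ^ 2 * c ^ 4 / 2 := by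
  rcases eq_or_ne θ 0 with rfl | h
  · rw [Cc_zero]
    simp
  · have h1 := Cc_le θ c
    rw [abs_of_nonpos (by linarith)]
    have h2 : c ^ 2 / 2 - θ ^ 2 * c ^ 4 / 2 ≤ Cc θ c := by
      unfold Cc
      have e : c ^ 2 / 2 - θ ^ 2 * c ^ 4 / 2 = ∫ a in (0 : ℝ)..c, ((c - a) - θ ^ 2 * c ^ 3 / 2) := by
        rw [intervalIntegral.integral_sub ((by fun_prop : Continuous fun a : ℝ => c - a).intervalIntegrable
          _ _) (by simp), intervalIntegral.integral_sub (by simp)
          (by exact continuous_id.intervalIntegrable _ _)]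
        simp only [intervalIntegral.integral_const, integral_id, smul_eq_mul]
        ring
      rw [e]
      refine intervalIntegral.integral_mono_on hc
        ((by fun_prop : Continuous fun a : ℝ => (c - a) - θ ^ 2 * c ^ 3 / 2).intervalIntegrable _ _)
        ((by fun_prop : Continuous fun a : ℝ => (c - a) * Real.cos (θ * a)).intervalIntegrable _ _)
        fun a ha => ?_
      have h3 := Real.one_sub_sq_div_two_le_cos (x := θ * a)
      have h4 : 0 ≤ c - a := by linarith [ha.2]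
      have h5 : (c - a) * (1 - (θ * a) ^ 2 / 2) ≤ (c - a) * Real.cos (θ * a) :=
        mul_le_mul_of_nonneg_left h3 h4
      have h6 : (c - a) * ((θ * a) ^ 2 / 2) ≤ θ ^ 2 * c ^ 3 / 2 := by
        have h7 : a ^ 2 ≤ c ^ 2 := pow_le_pow_left₀ ha.1 ha.2 2
        have h8 : c - a ≤ c := by linarith [ha.1]
        calc (c - a) * ((θ * a) ^ 2 / 2) = θ ^ 2 / 2 * ((c - a) * a ^ 2) := by ring
          _ ≤ θ ^ 2 / 2 * (c * c ^ 2) := by gcongr
          _ = _ := by ring
      linarith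
    linarith

lemma rr_cont0 {κ : ℝ} (hκ : 0 < κ) : ContinuousAt (rr κ) 0 := by
  have hpi := Real.pi_pos
  have hci : ∀ y, IntervalIntegrable (fun c => 2 / c ^ 3 * Cc (2 * π * y) c) volume (κ / 2) κ := by
    intro y
    refine ContinuousOn.intervalIntegrable ?_
    rw [Set.uIcc_of_le (by linarith)]
    refine ContinuousOn.mul ?_ ?_
    · refine ContinuousOn.div continuousOn_const (by fun_prop) fun c hc => ?_
      have : 0 < c := by linarith [hc.1]
      positivity
    · have : Continuous fun c => Cc (2 * π * y) c := by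
        rcases eq_or_ne (2 * π * y) 0 with h | h
        · rw [h]; simp_rw [Cc_zero]; fun_prop
        · simp_rw [Cc_ne h]; fun_prop
      exact this.continuousOn
  have h1 : ∀ y, |rr κ y - rr κ 0| ≤ (8 * π ^ 2 * κ ^ 2) * y ^ 2 := by
    intro y
    unfold rr
    rw [← intervalIntegral.integral_sub (hci y) (hci 0), ← Real.norm_eq_abs]
    have h2 : ‖∫ c in (κ / 2)..κ, (2 / c ^ 3 * Cc (2 * π * y) c - 2 / c ^ 3 * Cc (2 * π * 0) c)‖ ≤
        (8 * π ^ 2 * κ * y ^ 2) * |κ - κ / 2| := by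
      refine intervalIntegral.norm_integral_le_of_norm_le_const fun c hc => ?_
      rw [Set.uIoc_of_le (by linarith)] at hc
      have hc0 : 0 < c := by linarith [hc.1]
      rw [mul_zero, Cc_zero, ← mul_sub, Real.norm_eq_abs, abs_mul, abs_of_pos (by positivity)]
      have h3 := Cc_near (θ := 2 * π * y) hc0.le
      calc 2 / c ^ 3 * |Cc (2 * π * y) c - c ^ 2 / 2| ≤ 2 / c ^ 3 * ((2 * π * y) ^ 2 * c ^ 4 / 2) := by
            gcongr
        _ = 4 * π ^ 2 * c * y ^ 2 := by field_simp; ring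
        _ ≤ 8 * π ^ 2 * κ * y ^ 2 := by
            have := hc.2
            gcongr
            norm_num
    refine h2.trans ?_
    rw [abs_of_pos (by linarith)]
    have : 0 ≤ π ^ 2 * κ ^ 2 * y ^ 2 := by positivity
    nlinarith
  rw [Metric.continuousAt_iff']
  intro ε hε
  have h2 : Tendsto (fun y : ℝ => (8 * π ^ 2 * κ ^ 2) * y ^ 2) (𝓝 0) (𝓝 0) := by
    have : Continuous fun y : ℝ => (8 * π ^ 2 * κ ^ 2) * y ^ 2 := by fun_prop
    have h3 := this.tendsto 0
    simpa using h3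
  filter_upwards [h2.eventually_lt_const hε] with y hy
  rw [Real.dist_eq]
  exact (h1 y).trans_lt hy

/-- the layer cake -/
lemma rr_layer {κ y : ℝ} (hκ : 0 < κ) (hy : 0 ≤ y) : rr κ y = ∫ t in Ioi y, ph κ t := by
  have h1 := integral_Ioi_of_hasDerivAt_of_tendsto (a := y) (f := rr κ) (f' := fun t => -ph κ t)
    (m := 0) ?_ (fun x hx => rr_deriv hκ (lt_of_le_of_lt hy hx)) ?_ (rr_tendsto hκ)
  · rw [integral_neg] at h1
    linarith
  · rcases eq_or_lt_of_le hy with rfl | hy0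
    · exact (rr_cont0 hκ).continuousWithinAt
    · exact (rr_deriv hκ hy0).continuousAt.continuousWithinAt
  · exact ((ph_int0 hκ).mono_set (Ioi_subset_Ioi hy)).neg

lemma rr_even (κ y : ℝ) : rr κ (-y) = rr κ y := by
  unfold rr
  refine intervalIntegral.integral_congr fun c _ => ?_
  show 2 / c ^ 3 * Cc (2 * π * (-y)) c = 2 / c ^ 3 * Cc (2 * π * y) c
  congr 1
  rcases eq_or_ne y 0 with rfl | h
  · simp
  · have hpi := Real.pi_pos
    rw [Cc_ne (mul_ne_zero (by positivity) (neg_ne_zero.2 h)), Cc_ne (by positivity),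
      show 2 * π * (-y) * c = -(2 * π * y * c) by ring, Real.cos_neg]
    ring

end Pool.Agent.J4H67.OS
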