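import Pool.Agent.J4H67.OS.H1

/-! The identity for the pair correlation of the GUE. -/

open MeasureTheory Filter Topology Real Set

namespace Pool.Agent.J4H67.OS

open H370.A2

/-- `(sin π u / π u)²` -/
noncomputable def fs (u : ℝ) : ℝ := (Real.sin (π * u) / (π * u)) ^ 2

/-- the density of the pair correlation -/
noncomputable def wg (u : ℝ) : ℝ := 1 - fs u

lemma fs_le (u : ℝ) : fs u ≤ 1 := by
  unfold fs
  have : |Real.sin (π * u) / (π * u)| ≤ 1 := by
    rw [abs_div]
    exact div_le_one_of_le₀ Real.abs_sin_le_abs (abs_nonneg _)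
  rw [← sq_abs]
  exact pow_le_one₀ (abs_nonneg _) this

lemma fs_nonneg (u : ℝ) : 0 ≤ fs u := by unfold fs; positivity

lemma wg_nonneg (u : ℝ) : 0 ≤ wg u := by unfold wg; linarith [fs_le u]

lemma wg_le (u : ℝ) : wg u ≤ 1 := by unfold wg; linarith [fs_nonneg u]

lemma wg_meas : Measurable wg := by unfold wg fs; fun_prop

lemma wg_even (u : ℝ) : wg (-u) = wg u := by
  unfold wg fs
  rw [mul_neg, Real.sin_neg, neg_div_neg_eq]

lemma wg_ii (a b : ℝ) : IntervalIntegrable wg volume a b := by
  rw [intervalIntegrable_iff]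
  refine (integrableOn_const (C := (1 : ℝ)) (by simp)).mono' wg_meas.aestronglyMeasurable ?_
  refine Filter.Eventually.of_forall fun u => ?_
  rw [Real.norm_eq_abs, abs_of_nonneg (wg_nonneg u)]
  exact wg_le u

/-- the pair correlation function, the diagonal included -/
noncomputable def ng (t : ℝ) : ℝ := 1 + ∫ u in (-t)..t, wg u

/-- the triangle -/
noncomputable def tri (c α : ℝ) : ℝ := max (c - |α|) 0

lemma tri_cont (c : ℝ) : Continuous (tri c) := by unfold tri; fun_prop

lemma tri_zero {c x : ℝ} (h : c ≤ |x|) : tri c x = 0 := by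
  unfold tri
  exact max_eq_right (by linarith)

lemma tri_RR {c : ℝ} (hc : 0 ≤ c) (x : ℝ) : RR (tri c) c x = 2 * Cc (2 * π * x) c := by
  unfold RR
  have hcont : Continuous fun α => tri c α * Real.cos (2 * π * α * x) :=
    (tri_cont c).mul (by fun_prop)
  rw [even_int hcont fun α => by
    show tri c (-α) * Real.cos (2 * π * (-α) * x) = tri c α * Real.cos (2 * π * α * x)
    rw [show 2 * π * (-α) * x = -(2 * π * α * x) by ring, Real.cos_neg]
    unfold tri
    rw [abs_neg]]
  congr 1
  unfold Cc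
  refine intervalIntegral.integral_congr fun α hα => ?_
  rw [Set.uIcc_of_le hc] at hα
  show tri c α * Real.cos (2 * π * α * x) = (c - α) * Real.cos (2 * π * x * α)
  unfold tri
  rw [abs_of_nonneg hα.1, max_eq_left (by linarith [hα.2]), show 2 * π * α * x = 2 * π * x * α by ring]

lemma tri_decay {c : ℝ} (hc : 0 ≤ c) (x : ℝ) : |RR (tri c) c x| * x ^ 2 ≤ 1 := by
  have hpi := Real.pi_gt_three
  rw [tri_RR hc, abs_of_nonneg (mul_nonneg (by norm_num) (Cc_nonneg _ _))]
  rcases eq_or_ne x 0 with rfl | hx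
  · simp
  · rw [Cc_ne (by positivity)]
    have h1 : 1 - Real.cos (2 * π * x * c) ≤ 2 := by
      linarith [Real.neg_one_le_cos (2 * π * x * c)]
    rw [mul_div_assoc', div_mul_eq_mul_div, div_le_one (by positivity)]
    have h2 : 0 < x ^ 2 := by positivity
    have h3 : 9 ≤ π ^ 2 := by nlinarith
    have h4 : 2 * (1 - Real.cos (2 * π * x * c)) * x ^ 2 ≤ 4 * x ^ 2 := by nlinarith
    nlinarith

/-- the integral of the Fejér kernels against the density -/
lemma Cc_wg {c : ℝ} (hc : 0 ≤ c) (hc1 : c ≤ 1) :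
    c ^ 2 / 2 + ∫ y, Cc (2 * π * y) c * wg y = SG c := by
  have h1 := main_term (tri_cont c) (μ := c) (fun x hx => tri_zero hx) hc1 (C := 1)
    (tri_decay hc)
  rw [tri_RR hc, mul_zero, Cc_zero] at h1
  simp_rw [tri_RR hc] at h1
  have e1 : ∫ x, 2 * Cc (2 * π * x) c * (1 - (Real.sin (π * x) / (π * x)) ^ 2) =
      2 * ∫ y, Cc (2 * π * y) c * wg y := by
    rw [← integral_const_mul]
    refine integral_congr_ae (Filter.Eventually.of_forall fun y => ?_)
    show 2 * Cc (2 * π * y) c * (1 - (Real.sin (π * y) / (π * y)) ^ 2) =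
      2 * (Cc (2 * π * y) c * wg y)
    unfold wg fs
    ring
  have e2 : tri c 0 = c := by unfold tri; rw [abs_zero, sub_zero, max_eq_left hc]
  have e3 : ∫ α in (-c)..c, |α| * tri c α = c ^ 3 / 3 := by
    have hct : Continuous fun α : ℝ => |α| * tri c α := continuous_abs.mul (tri_cont c)
    rw [even_int hct fun x => by
      show |-x| * tri c (-x) = |x| * tri c x
      unfold tri; rw [abs_neg]]
    have : ∫ α in (0 : ℝ)..c, |α| * tri c α = ∫ α in (0 : ℝ)..c, (c * α - α ^ 2) := by
      refine intervalIntegral.integral_congr fun α hα => ?_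
      rw [Set.uIcc_of_le hc] at hα
      show |α| * tri c α = c * α - α ^ 2
      unfold tri
      rw [abs_of_nonneg hα.1, max_eq_left (by linarith [hα.2])]
      ring
    show 2 * ∫ α in (0 : ℝ)..c, |α| * tri c α = _
    rw [this, intervalIntegral.integral_sub
      ((by fun_prop : Continuous fun α : ℝ => c * α).intervalIntegrable _ _)
      ((by fun_prop : Continuous fun α : ℝ => α ^ 2).intervalIntegrable _ _)]
    have e4 : ∫ α in (0 : ℝ)..c, c * α = c * (c ^ 2 / 2) := by
      rw [intervalIntegral.integral_const_mul, integral_id]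
      ring
    rw [e4, integral_pow]
    norm_num
    ring
  rw [e1, e2, e3] at h1
  rw [SG_small hc hc1]
  linarith

lemma Cc_wg_int {c : ℝ} (hc : 0 ≤ c) : Integrable fun y => Cc (2 * π * y) c * wg y := by
  have h1 := RR_integrable (tri_cont c) (μ := c) (fun x hx => tri_zero hx) (C := 1) (tri_decay hc)
  have h2 : Integrable fun y => Cc (2 * π * y) c := by
    have := h1.const_mul (1 / 2)
    refine this.congr (Filter.Eventually.of_forall fun y => ?_)
    show 1 / 2 * RR (tri c) c y = Cc (2 * π * y) c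
    rw [tri_RR hc]
    ring
  refine h2.norm.mono' (h2.aestronglyMeasurable.mul wg_meas.aestronglyMeasurable)
    (Filter.Eventually.of_forall fun y => ?_)
  rw [norm_mul, Real.norm_eq_abs (wg y), abs_of_nonneg (wg_nonneg y)]
  exact mul_le_of_le_one_right (norm_nonneg _) (wg_le y)

lemma Cc_meas : Measurable fun p : ℝ × ℝ => Cc (2 * π * p.1) p.2 := by
  have h : (fun p : ℝ × ℝ => Cc (2 * π * p.1) p.2) = fun p : ℝ × ℝ =>
      if p.1 = 0 then p.2 ^ 2 / 2 else (1 - Real.cos (2 * π * p.1 * p.2)) / (2 * π * p.1) ^ 2 := by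
    funext p
    have hpi := Real.pi_pos
    split_ifs with h
    · rw [h, mul_zero, Cc_zero]
    · rw [Cc_ne (by positivity)]
  rw [h]
  refine Measurable.ite ?_ (by fun_prop) (by fun_prop)
  exact measurableSet_eq_fun measurable_fst measurable_const

lemma Cc_int {c : ℝ} (hc : 0 ≤ c) : Integrable fun y => Cc (2 * π * y) c := by
  have h1 := RR_integrable (tri_cont c) (μ := c) (fun x hx => tri_zero hx) (C := 1) (tri_decay hc)
  have := h1.const_mul (1 / 2)
  refine this.congr (Filter.Eventually.of_forall fun y => ?_)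
  show 1 / 2 * RR (tri c) c y = Cc (2 * π * y) c
  rw [tri_RR hc]
  ring

lemma Cc_integral {c : ℝ} (hc : 0 ≤ c) : ∫ y, Cc (2 * π * y) c = c / 2 := by
  have h1 := RR_inv (tri_cont c) (μ := c) (fun x hx => tri_zero hx) (C := 1) (tri_decay hc) 0
  simp only [mul_zero, Real.cos_zero, mul_one] at h1
  simp_rw [tri_RR hc] at h1
  rw [integral_const_mul] at h1
  have e : evp (tri c) 0 = c := by
    unfold evp tri
    simp [max_eq_left hc]
  rw [e] at h1
  linarith

lemma Cc_fs (c : ℝ) : (fun y => Cc (2 * π * y) c) =ᵐ[volume] fun y => c ^ 2 / 2 * fs (c * y) := by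
  have hpi := Real.pi_pos
  have h0 : ∀ᵐ t : ℝ, t ≠ 0 := by
    rw [ae_iff]
    simp
  filter_upwards [h0] with y hy
  rcases eq_or_ne c 0 with rfl | hc
  · rw [Cc_ne (by positivity)]
    simp
  · rw [Cc_ne (by positivity)]
    unfold fs
    rw [show 2 * π * y * c = 2 * (π * (c * y)) by ring, Real.cos_two_mul, Real.cos_sq', div_pow]
    field_simp
    ring

lemma fs_meas : Measurable fs := by unfold fs; fun_prop

lemma fs_scale {c : ℝ} (hc : 0 < c) :
    ∫ y, fs (c * y) * fs y = c⁻¹ * ∫ y, fs (c⁻¹ * y) * fs y := by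
  have h := Measure.integral_comp_mul_left (fun v => fs (c⁻¹ * v) * fs v) c
  rw [abs_of_pos (inv_pos.2 hc), smul_eq_mul] at h
  rw [← h]
  refine integral_congr_ae (Filter.Eventually.of_forall fun y => ?_)
  show fs (c * y) * fs y = fs (c⁻¹ * (c * y)) * fs (c * y)
  rw [inv_mul_cancel_left₀ hc.ne', mul_comm]

lemma Cc_wg_eq {c : ℝ} (hc : 0 ≤ c) :
    ∫ y, Cc (2 * π * y) c * wg y = c / 2 - c ^ 2 / 2 * ∫ y, fs (c * y) * fs y := by
  have h1 := Cc_int hc
  have h2 : Integrable fun y => Cc (2 * π * y) c * fs y := by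
    refine h1.norm.mono' (h1.aestronglyMeasurable.mul fs_meas.aestronglyMeasurable)
      (Filter.Eventually.of_forall fun y => ?_)
    rw [norm_mul, Real.norm_eq_abs (fs y), abs_of_nonneg (fs_nonneg y)]
    exact mul_le_of_le_one_right (norm_nonneg _) (fs_le y)
  have e1 : ∫ y, Cc (2 * π * y) c * wg y =
      (∫ y, Cc (2 * π * y) c) - ∫ y, Cc (2 * π * y) c * fs y := by
    rw [← integral_sub h1 h2]
    refine integral_congr_ae (Filter.Eventually.of_forall fun y => ?_)
    show Cc (2 * π * y) c * wg y = Cc (2 * π * y) c - Cc (2 * π * y) c * fs y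
    unfold wg
    ring
  rw [e1, Cc_integral hc, ← integral_const_mul]
  congr 1
  refine integral_congr_ae ?_
  filter_upwards [Cc_fs c] with y hy
  rw [hy]
  ring

/-- the integral of the Fejér kernels against the density, for all lengths -/
lemma Cc_wg_all {c : ℝ} (hc : 0 ≤ c) :
    c ^ 2 / 2 + ∫ y, Cc (2 * π * y) c * wg y = SG c := by
  rcases le_or_gt c 1 with hc1 | hc1
  · exact Cc_wg hc hc1
  · have hc0 : 0 < c := by linarith
    have hi : 0 < c⁻¹ := inv_pos.2 hc0
    have hi1 : c⁻¹ ≤ 1 := inv_le_one_of_one_le₀ hc1.le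
    have h1 := Cc_wg hi.le hi1
    rw [Cc_wg_eq hi.le, SG_small hi.le hi1] at h1
    rw [Cc_wg_eq hc, SG_large hc1.le, fs_scale hc0]
    set K := ∫ y, fs (c⁻¹ * y) * fs y with hK
    have e : c * c⁻¹ = 1 := mul_inv_cancel₀ hc0.ne'
    have h2 : c⁻¹ ^ 2 * K = c⁻¹ ^ 2 * (1 - c⁻¹ / 3) := by
      linear_combination (-2) * h1
    have h3 : K = 1 - c⁻¹ / 3 := mul_left_cancel₀ (by positivity) h2
    rw [h3]
    linear_combination (c / 2 * (c⁻¹ / 3 - 1)) * e + (1 / 6) * e

lemma SG_nonneg {c : ℝ} (hc : 0 ≤ c) : 0 ≤ SG c := by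
  rcases le_or_gt c 1 with h | h
  · rw [SG_small hc h]; positivity
  · rw [SG_large h.le]; positivity

/-- **the identity**: the two sides of the mean of the GUE counting function -/
lemma gue_identity {κ : ℝ} (hκ : 0 < κ) :
    ∫ t in Ioi (0 : ℝ), ph κ t * ng t = ∫ c in (κ / 2)..κ, 2 / c ^ 3 * SG c := by
  have hpi := Real.pi_pos
  have hle : κ / 2 ≤ κ := by linarith
  -- the pointwise layer cake, in lintegral form
  have hlay : ∀ y : ℝ, ∫⁻ t in Ioi (0 : ℝ), ENNReal.ofReal (ph κ t * (if |y| < t then 1 else 0)) =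
      ENNReal.ofReal (rr κ y) := by
    intro y
    have h1 : rr κ y = ∫ t in Ioi |y|, ph κ t := by
      rw [← rr_layer hκ (abs_nonneg y)]
      rcases abs_choice y with h | h
      · rw [h]
      · rw [h, rr_even]
    rw [h1, ofReal_integral_eq_lintegral_ofReal ((ph_int0 hκ).mono_set (Ioi_subset_Ioi (abs_nonneg y)))
      ((ae_restrict_iff' measurableSet_Ioi).2 (Filter.Eventually.of_forall fun t ht =>
        ph_nonneg κ (le_of_lt (lt_of_le_of_lt (abs_nonneg y) ht)))),
      ← lintegral_indicator measurableSet_Ioi, ← lintegral_indicator measurableSet_Ioi]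
    refine lintegral_congr fun t => ?_
    by_cases h2 : |y| < t
    · have h3 : (0 : ℝ) < t := lt_of_le_of_lt (abs_nonneg y) h2
      rw [indicator_of_mem (show t ∈ Ioi (0 : ℝ) from h3), indicator_of_mem (show t ∈ Ioi |y| from h2),
        if_pos h2, mul_one]
    · rw [indicator_of_notMem (show t ∉ Ioi |y| from h2)]
      by_cases h3 : (0 : ℝ) < t
      · rw [indicator_of_mem (show t ∈ Ioi (0 : ℝ) from h3), if_neg h2, mul_zero, ENNReal.ofReal_zero]
      · rw [indicator_of_notMem (show t ∉ Ioi (0 : ℝ) from h3)]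
  have hcpos : ∀ c ∈ Ioc (κ / 2) κ, 0 < c := fun c hc => by linarith [hc.1]
  have hrr : ∀ y : ℝ, ENNReal.ofReal (rr κ y) =
      ∫⁻ c in Ioc (κ / 2) κ, ENNReal.ofReal (2 / c ^ 3 * Cc (2 * π * y) c) := by
    intro y
    unfold rr
    rw [intervalIntegral.integral_of_le hle, ofReal_integral_eq_lintegral_ofReal]
    · have : ContinuousOn (fun c => 2 / c ^ 3 * Cc (2 * π * y) c) (Icc (κ / 2) κ) := by
        refine ContinuousOn.mul ?_ ?_
        · refine ContinuousOn.div continuousOn_const (by fun_prop) fun c hc => ?_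
          have : 0 < c := by linarith [hc.1]
          positivity
        · have : Continuous fun c => Cc (2 * π * y) c := by
            rcases eq_or_ne (2 * π * y) 0 with h | h
            · rw [h]; simp_rw [Cc_zero]; fun_prop
            · simp_rw [Cc_ne h]; fun_prop
          exact this.continuousOn
      exact (this.integrableOn_Icc).mono_set Ioc_subset_Icc_self
    · refine (ae_restrict_iff' measurableSet_Ioc).2 (Filter.Eventually.of_forall fun c hc => ?_)
      have := hcpos c hc
      exact mul_nonneg (by positivity) (Cc_nonneg _ _)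
  -- the absolutely continuous part
  have hac : ∫⁻ t in Ioi (0 : ℝ), ENNReal.ofReal (ph κ t * ∫ u in (-t)..t, wg u) =
      ∫⁻ c in Ioc (κ / 2) κ, ENNReal.ofReal (2 / c ^ 3 * ∫ y, Cc (2 * π * y) c * wg y) := by
    have e1 : ∫⁻ t in Ioi (0 : ℝ), ENNReal.ofReal (ph κ t * ∫ u in (-t)..t, wg u) =
        ∫⁻ t in Ioi (0 : ℝ), ∫⁻ y, ENNReal.ofReal (ph κ t * (if |y| < t then 1 else 0)) *
          ENNReal.ofReal (wg y) := by
      refine setLIntegral_congr_fun measurableSet_Ioi fun t ht => ?_
      have ht0 : (0 : ℝ) < t := ht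
      show ENNReal.ofReal (ph κ t * ∫ u in (-t)..t, wg u) = _
      rw [ENNReal.ofReal_mul (ph_nonneg κ ht0.le), intervalIntegral.integral_of_le (by linarith),
        integral_Ioc_eq_integral_Ioo, ofReal_integral_eq_lintegral_ofReal
          (((intervalIntegrable_iff_integrableOn_Ioo_of_le (by linarith)).1 (wg_ii (-t) t)))
          (Filter.Eventually.of_forall fun y => wg_nonneg y),
        ← lintegral_const_mul _ (wg_meas.ennreal_ofReal), ← lintegral_indicator measurableSet_Ioo]
      refine lintegral_congr fun y => ?_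
      by_cases h : |y| < t
      · rw [indicator_of_mem (show y ∈ Ioo (-t) t from abs_lt.1 h), if_pos h, mul_one]
      · rw [indicator_of_notMem (show y ∉ Ioo (-t) t from fun h2 => h (abs_lt.2 h2)), if_neg h,
          mul_zero, ENNReal.ofReal_zero, zero_mul]
    have e2 : ∫⁻ c in Ioc (κ / 2) κ, ENNReal.ofReal (2 / c ^ 3 * ∫ y, Cc (2 * π * y) c * wg y) =
        ∫⁻ c in Ioc (κ / 2) κ, ∫⁻ y, ENNReal.ofReal (2 / c ^ 3 * Cc (2 * π * y) c) *
          ENNReal.ofReal (wg y) := by
      refine setLIntegral_congr_fun measurableSet_Ioc fun c hc => ?_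
      have hc0 := hcpos c hc
      show ENNReal.ofReal (2 / c ^ 3 * ∫ y, Cc (2 * π * y) c * wg y) = _
      rw [ENNReal.ofReal_mul (by positivity), ofReal_integral_eq_lintegral_ofReal
        (Cc_wg_int hc0.le) (Filter.Eventually.of_forall fun y =>
          mul_nonneg (Cc_nonneg _ _) (wg_nonneg y)), ← lintegral_const_mul']
      · refine lintegral_congr fun y => ?_
        rw [ENNReal.ofReal_mul (Cc_nonneg (2 * π * y) c), ← mul_assoc,
          ← ENNReal.ofReal_mul (show (0 : ℝ) ≤ 2 / c ^ 3 by positivity)]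
      · exact ENNReal.ofReal_ne_top
    have s1 := lintegral_lintegral_swap (μ := volume.restrict (Ioi (0 : ℝ))) (ν := volume)
      (f := fun t y : ℝ => ENNReal.ofReal (ph κ t * (if |y| < t then 1 else 0)) *
        ENNReal.ofReal (wg y)) (by
      refine Measurable.aemeasurable ?_
      have h1 : Measurable fun p : ℝ × ℝ => ENNReal.ofReal (ph κ p.1 * (if |p.2| < p.1 then 1 else 0)) := by
        refine Measurable.ennreal_ofReal (Measurable.mul ((ph_meas κ).comp measurable_fst) ?_)
        refine Measurable.ite ?_ measurable_const measurable_const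
        exact measurableSet_lt (by fun_prop) measurable_fst
      exact h1.mul (wg_meas.comp measurable_snd).ennreal_ofReal)
    have s2 := lintegral_lintegral_swap (μ := volume.restrict (Ioc (κ / 2) κ)) (ν := volume)
      (f := fun c y : ℝ => ENNReal.ofReal (2 / c ^ 3 * Cc (2 * π * y) c) *
        ENNReal.ofReal (wg y)) (by
      refine Measurable.aemeasurable ?_
      have h1 : Measurable fun p : ℝ × ℝ => ENNReal.ofReal (2 / p.1 ^ 3 * Cc (2 * π * p.2) p.1) := by
        refine Measurable.ennreal_ofReal (Measurable.mul (by fun_prop) ?_)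
        exact Cc_meas.comp (measurable_snd.prodMk measurable_fst)
      exact h1.mul (wg_meas.comp measurable_snd).ennreal_ofReal)
    rw [e1, e2, s1, s2]
    refine lintegral_congr fun y => ?_
    rw [lintegral_mul_const', lintegral_mul_const', hlay, hrr]
    · exact ENNReal.ofReal_ne_top
    · exact ENNReal.ofReal_ne_top
  -- the diagonal
  have hdiag : ∫⁻ t in Ioi (0 : ℝ), ENNReal.ofReal (ph κ t) =
      ∫⁻ c in Ioc (κ / 2) κ, ENNReal.ofReal (2 / c ^ 3 * (c ^ 2 / 2)) := by
    have h1 := hlay 0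
    rw [hrr 0] at h1
    simp_rw [mul_zero, Cc_zero] at h1
    rw [← h1]
    refine setLIntegral_congr_fun measurableSet_Ioi fun t ht => ?_
    show ENNReal.ofReal (ph κ t) = ENNReal.ofReal (ph κ t * (if |(0 : ℝ)| < t then 1 else 0))
    rw [abs_zero, if_pos (show (0 : ℝ) < t from ht), mul_one]
  have hwnn : ∀ t : ℝ, 0 ≤ t → 0 ≤ ∫ u in (-t)..t, wg u := fun t ht =>
    intervalIntegral.integral_nonneg (by linarith) fun u _ => wg_nonneg u
  have hwle : ∀ t : ℝ, 0 ≤ t → ∫ u in (-t)..t, wg u ≤ 2 * t := fun t ht => by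
    calc ∫ u in (-t)..t, wg u ≤ ∫ u in (-t)..t, (1 : ℝ) :=
          intervalIntegral.integral_mono_on (by linarith) (wg_ii _ _) (by simp) fun u _ => wg_le u
      _ = 2 * t := by simp; ring
  have hsum : ∫⁻ t in Ioi (0 : ℝ), ENNReal.ofReal (ph κ t * ng t) =
      ∫⁻ c in Ioc (κ / 2) κ, ENNReal.ofReal (2 / c ^ 3 * SG c) := by
    have e1 : ∫⁻ t in Ioi (0 : ℝ), ENNReal.ofReal (ph κ t * ng t) =
        (∫⁻ t in Ioi (0 : ℝ), ENNReal.ofReal (ph κ t)) +
        ∫⁻ t in Ioi (0 : ℝ), ENNReal.ofReal (ph κ t * ∫ u in (-t)..t, wg u) := by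
      rw [← lintegral_add_left (ph_meas κ).ennreal_ofReal]
      refine setLIntegral_congr_fun measurableSet_Ioi fun t ht => ?_
      have ht0 : (0 : ℝ) < t := ht
      show ENNReal.ofReal (ph κ t * ng t) = ENNReal.ofReal (ph κ t) +
        ENNReal.ofReal (ph κ t * ∫ u in (-t)..t, wg u)
      rw [← ENNReal.ofReal_add (ph_nonneg κ ht0.le)
        (mul_nonneg (ph_nonneg κ ht0.le) (hwnn t ht0.le))]
      unfold ng
      congr 1
      ring
    have e2 : ∫⁻ c in Ioc (κ / 2) κ, ENNReal.ofReal (2 / c ^ 3 * SG c) =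
        (∫⁻ c in Ioc (κ / 2) κ, ENNReal.ofReal (2 / c ^ 3 * (c ^ 2 / 2))) +
        ∫⁻ c in Ioc (κ / 2) κ, ENNReal.ofReal (2 / c ^ 3 * ∫ y, Cc (2 * π * y) c * wg y) := by
      rw [← lintegral_add_left (Measurable.ennreal_ofReal (by fun_prop))]
      refine setLIntegral_congr_fun measurableSet_Ioc fun c hc => ?_
      have hc0 := hcpos c hc
      show ENNReal.ofReal (2 / c ^ 3 * SG c) = ENNReal.ofReal (2 / c ^ 3 * (c ^ 2 / 2)) +
        ENNReal.ofReal (2 / c ^ 3 * ∫ y, Cc (2 * π * y) c * wg y)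
      rw [← ENNReal.ofReal_add (by positivity) (mul_nonneg (by positivity)
        (integral_nonneg fun y => mul_nonneg (Cc_nonneg _ _) (wg_nonneg y))),
        ← Cc_wg_all hc0.le]
      congr 1
      ring
    rw [e1, e2, hdiag, hac]
  have hng : ∀ t : ℝ, 0 ≤ t → 0 ≤ ng t := fun t ht => by
    unfold ng; linarith [hwnn t ht]
  have hngm : Measurable fun t => ph κ t * ng t := by
    refine (ph_meas κ).mul ?_
    unfold ng
    have h1 : Continuous fun t : ℝ => ∫ u in (0 : ℝ)..t, wg u :=
      intervalIntegral.continuous_primitive wg_ii 0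
    have h2 : (fun t : ℝ => 1 + ∫ u in (-t)..t, wg u) = fun t =>
        1 + ((∫ u in (0 : ℝ)..t, wg u) - ∫ u in (0 : ℝ)..(-t), wg u) := by
      funext t
      rw [intervalIntegral.integral_interval_sub_left (wg_ii _ _) (wg_ii _ _)]
    rw [h2]
    exact (continuous_const.add (h1.sub (h1.comp continuous_neg))).measurable
  have l1 : ENNReal.ofReal (∫ t in Ioi (0 : ℝ), ph κ t * ng t) =
      ∫⁻ t in Ioi (0 : ℝ), ENNReal.ofReal (ph κ t * ng t) := by
    refine ofReal_integral_eq_lintegral_ofReal ?_ ?_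
    · refine ((ph_int hκ).const_mul 2).mono' hngm.aestronglyMeasurable ?_
      refine (ae_restrict_iff' measurableSet_Ioi).2 (Filter.Eventually.of_forall fun t ht => ?_)
      have ht0 : (0 : ℝ) < t := ht
      have hp := ph_nonneg κ ht0.le
      rw [Real.norm_eq_abs, abs_of_nonneg (mul_nonneg hp (hng t ht0.le))]
      have : ng t ≤ 2 * (1 + t) := by unfold ng; linarith [hwle t ht0.le]
      calc ph κ t * ng t ≤ ph κ t * (2 * (1 + t)) := mul_le_mul_of_nonneg_left this hp
        _ = 2 * (ph κ t * (1 + t)) := by ring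
    · exact (ae_restrict_iff' measurableSet_Ioi).2 (Filter.Eventually.of_forall fun t ht =>
        mul_nonneg (ph_nonneg κ (le_of_lt ht)) (hng t (le_of_lt ht)))
  have hSGc : ContinuousOn (fun c => 2 / c ^ 3 * SG c) (Icc (κ / 2) κ) := by
    refine ContinuousOn.mul ?_ ?_
    · refine ContinuousOn.div continuousOn_const (by fun_prop) fun c hc => ?_
      have : 0 < c := by linarith [hc.1]
      positivity
    · have : Continuous SG :=
        intervalIntegral.continuous_primitive (fun _ _ => mmI_cont.intervalIntegrable _ _) 0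
      exact this.continuousOn
  have hSG0 : ∀ c ∈ Icc (κ / 2) κ, 0 ≤ 2 / c ^ 3 * SG c := by
    intro c hc
    have hc0 : 0 < c := by linarith [hc.1]
    exact mul_nonneg (by positivity) (SG_nonneg hc0.le)
  have l2 : ENNReal.ofReal (∫ c in (κ / 2)..κ, 2 / c ^ 3 * SG c) =
      ∫⁻ c in Ioc (κ / 2) κ, ENNReal.ofReal (2 / c ^ 3 * SG c) := by
    rw [intervalIntegral.integral_of_le hle]
    refine ofReal_integral_eq_lintegral_ofReal ?_ ?_
    · exact (hSGc.integrableOn_Icc).mono_set Ioc_subset_Icc_self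
    · exact (ae_restrict_iff' measurableSet_Ioc).2 (Filter.Eventually.of_forall fun c hc =>
        hSG0 c (Ioc_subset_Icc_self hc))
  rw [← l1, ← l2] at hsum
  have p1 : 0 ≤ ∫ t in Ioi (0 : ℝ), ph κ t * ng t :=
    setIntegral_nonneg measurableSet_Ioi fun t ht =>
      mul_nonneg (ph_nonneg κ (le_of_lt ht)) (hng t (le_of_lt ht))
  have p2 : 0 ≤ ∫ c in (κ / 2)..κ, 2 / c ^ 3 * SG c :=
    intervalIntegral.integral_nonneg hle hSG0
  exact (ENNReal.ofReal_eq_ofReal_iff p1 p2).1 hsum

end Pool.Agent.J4H67.OS
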