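import Pool.Agent.J4H67.OS.H2

/-! One half of the pair correlation conjecture implies the other one. -/

open MeasureTheory Filter Topology Real Set

namespace Pool.Agent.J4H67.OS

open H370 TH803TW Pool.Agent.Y744 Pool.Agent.Results.MP_103a5c_nt.BohrSetPairs

/-- the weighted number of the pairs -/
noncomputable def Bw (T t : ℝ) : ℝ := (Xf T)⁻¹ * ∑ s ∈ Zt T, ∑ s' ∈ Zt T,
  mz s * mz s' * (W (s.im - s'.im) * ind t (dd T s s'))

lemma ind_nonneg (t y : ℝ) : 0 ≤ ind t y := by
  unfold ind
  exact Set.indicator_nonneg (fun _ _ => zero_le_one) _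

lemma ind_le (t y : ℝ) : ind t y ≤ 1 := by
  unfold ind
  exact Set.indicator_le' (fun _ _ => le_rfl) (fun _ _ => zero_le_one) _

lemma ind_mono {t t' : ℝ} (h : t ≤ t') (y : ℝ) : ind t y ≤ ind t' y := by
  rcases le_or_gt |y| t with h1 | h1
  · rw [ind_pos h1, ind_pos (h1.trans h)]
  · rw [ind_neg h1]
    exact ind_nonneg _ _

lemma Bw_mono {T : ℝ} (hT : 1 < T) : Monotone (Bw T) := by
  intro t t' h
  unfold Bw
  refine mul_le_mul_of_nonneg_left (Finset.sum_le_sum fun s _ => Finset.sum_le_sum fun s' _ => ?_)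
    (inv_nonneg.2 (Xf_pos hT).le)
  refine mul_le_mul_of_nonneg_left ?_ (mul_nonneg (mz_nonneg _) (mz_nonneg _))
  exact mul_le_mul_of_nonneg_left (ind_mono h _) (W_nonneg _)

lemma Bw_nonneg {T : ℝ} (hT : 1 < T) (t : ℝ) : 0 ≤ Bw T t := by
  unfold Bw
  refine mul_nonneg (inv_nonneg.2 (Xf_pos hT).le) (Finset.sum_nonneg fun s _ =>
    Finset.sum_nonneg fun s' _ => ?_)
  exact mul_nonneg (mul_nonneg (mz_nonneg _) (mz_nonneg _)) (mul_nonneg (W_nonneg _) (ind_nonneg _ _))

lemma Bw_le {T : ℝ} (hT : 1 < T) (t : ℝ) : Bw T t ≤ Aa T t := by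
  unfold Bw Aa PC
  refine mul_le_mul_of_nonneg_left (Finset.sum_le_sum fun s _ => Finset.sum_le_sum fun s' _ => ?_)
    (inv_nonneg.2 (Xf_pos hT).le)
  refine mul_le_mul_of_nonneg_left ?_ (mul_nonneg (mz_nonneg _) (mz_nonneg _))
  exact mul_le_of_le_one_left (ind_nonneg _ _) (W_le _)

lemma Aa_le {T : ℝ} (hT : 1 < T) {t : ℝ} (ht : 0 ≤ t) :
    (1 - (π * t / Real.log T) ^ 2) * Aa T t ≤ Bw T t := by
  have hL := Real.log_pos hT
  have hpi := Real.pi_pos
  unfold Bw Aa PC
  rw [mul_left_comm]
  refine mul_le_mul_of_nonneg_left ?_ (inv_nonneg.2 (Xf_pos hT).le)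
  rw [Finset.mul_sum]
  refine Finset.sum_le_sum fun s _ => ?_
  rw [Finset.mul_sum]
  refine Finset.sum_le_sum fun s' _ => ?_
  rw [mul_left_comm]
  refine mul_le_mul_of_nonneg_left ?_ (mul_nonneg (mz_nonneg _) (mz_nonneg _))
  change (1 - (π * t / Real.log T) ^ 2) * ind t (dd T s s') ≤ _
  rcases le_or_gt |dd T s s'| t with h | h
  · rw [ind_pos h, mul_one, mul_one]
    set u := s.im - s'.im with hu
    have hd : dd T s s' = u * Real.log T / (2 * π) := rfl
    have h1 : |u| ≤ 2 * π * t / Real.log T := by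
      rw [hd, abs_div, abs_mul, abs_of_pos hL, abs_of_pos (show 0 < 2 * π by positivity),
        div_le_iff₀ (by positivity)] at h
      rw [le_div_iff₀ hL]
      linarith
    have h2 : u ^ 2 ≤ (2 * π * t / Real.log T) ^ 2 := by
      rw [← sq_abs]
      gcongr
    have h3 : 1 - u ^ 2 / 4 ≤ W u := by
      unfold W
      rw [le_div_iff₀ (by positivity)]
      nlinarith [sq_nonneg u, sq_nonneg (u ^ 2)]
    refine le_trans ?_ h3
    have e : (π * t / Real.log T) ^ 2 = (2 * π * t / Real.log T) ^ 2 / 4 := by ring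
    rw [e]
    linarith
  · rw [ind_neg h, mul_zero, mul_zero]

/-- the layer cake for the pairs -/
lemma Bw_layer (T : ℝ) {κ : ℝ} (hκ : 0 < κ) :
    ∫ t in Ioi (0 : ℝ), ph κ t * Bw T t = ∫ c in (κ / 2)..κ, 2 / c ^ 3 * ST T c := by
  have hpi := Real.pi_pos
  have hint : ∀ y : ℝ, IntegrableOn (fun t => ph κ t * ind t y) (Ioi 0) := by
    intro y
    have hm : Measurable fun t => ind t y := by
      unfold ind
      have : (fun t : ℝ => Set.indicator {x : ℝ | |x| ≤ t} (fun _ => (1 : ℝ)) y) =
          fun t => if |y| ≤ t then 1 else 0 := by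
        funext t
        simp only [Set.indicator, Set.mem_ofPred_eq]
      rw [this]
      exact Measurable.ite measurableSet_Ici measurable_const measurable_const
    refine (ph_int0 hκ).mono' ((ph_meas κ).mul hm).aestronglyMeasurable ?_
    refine (ae_restrict_iff' measurableSet_Ioi).2 (Filter.Eventually.of_forall fun t ht => ?_)
    have h1 := ph_nonneg κ (le_of_lt ht)
    rw [Real.norm_eq_abs, abs_of_nonneg (mul_nonneg h1 (ind_nonneg _ _))]
    exact mul_le_of_le_one_right h1 (ind_le _ _)
  have hval : ∀ y : ℝ, ∫ t in Ioi (0 : ℝ), ph κ t * ind t y = rr κ y := by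
    intro y
    have h1 : rr κ y = ∫ t in Ioi |y|, ph κ t := by
      rw [← rr_layer hκ (abs_nonneg y)]
      rcases abs_choice y with h | h
      · rw [h]
      · rw [h, rr_even]
    have h1' : rr κ y = ∫ t in Ici |y|, ph κ t := by rw [h1, integral_Ici_eq_integral_Ioi]
    rw [h1', ← integral_indicator measurableSet_Ici, ← integral_indicator measurableSet_Ioi]
    have h0 : ∀ᵐ t : ℝ, t ≠ 0 := by
      rw [ae_iff]
      simp
    refine integral_congr_ae ?_
    filter_upwards [h0] with t ht
    by_cases h2 : |y| ≤ t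
    · have h3 : (0 : ℝ) < t := lt_of_le_of_ne ((abs_nonneg y).trans h2) (Ne.symm ht)
      rw [indicator_of_mem (show t ∈ Ioi (0 : ℝ) from h3), indicator_of_mem (show t ∈ Ici |y| from h2),
        ind_pos h2, mul_one]
    · rw [indicator_of_notMem (show t ∉ Ici |y| from h2)]
      by_cases h3 : (0 : ℝ) < t
      · rw [indicator_of_mem (show t ∈ Ioi (0 : ℝ) from h3), ind_neg (not_le.1 h2), mul_zero]
      · rw [indicator_of_notMem (show t ∉ Ioi (0 : ℝ) from h3)]
  have hcc : ∀ y : ℝ, IntervalIntegrable (fun c => 2 / c ^ 3 * Cc (2 * π * y) c) volume (κ / 2) κ := by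
    intro y
    refine ContinuousOn.intervalIntegrable ?_
    rw [Set.uIcc_of_le (by linarith)]
    refine ContinuousOn.mul ?_ ?_
    · refine ContinuousOn.div continuousOn_const (by fun_prop) fun c hc => ?_
      have : 0 < c := by linarith [hc.1]
      positivity
    · have : Continuous fun c => Cc (2 * π * y) c := by
        rcases eq_or_ne (2 * π * y) 0 with h | h
        · rw [h]; simp_rw [Cc_zero]; fun_prop
        · simp_rw [Cc_ne h]; fun_prop
      exact this.continuousOn
  have e1 : ∀ t, ph κ t * Bw T t = (Xf T)⁻¹ * ∑ s ∈ Zt T, ∑ s' ∈ Zt T,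
      mz s * mz s' * W (s.im - s'.im) * (ph κ t * ind t (dd T s s')) := by
    intro t
    unfold Bw
    rw [mul_left_comm, Finset.mul_sum]
    congr 1
    refine Finset.sum_congr rfl fun s _ => ?_
    rw [Finset.mul_sum]
    refine Finset.sum_congr rfl fun s' _ => ?_
    ring
  have e2 : ∀ c, 2 / c ^ 3 * ST T c = (Xf T)⁻¹ * ∑ s ∈ Zt T, ∑ s' ∈ Zt T,
      mz s * mz s' * W (s.im - s'.im) * (2 / c ^ 3 * Cc (2 * π * dd T s s') c) := by
    intro c
    unfold ST
    rw [mul_left_comm, Finset.mul_sum]
    congr 1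
    refine Finset.sum_congr rfl fun s _ => ?_
    rw [Finset.mul_sum]
    refine Finset.sum_congr rfl fun s' _ => ?_
    have : 2 * π * dd T s s' = Real.log T * (s.im - s'.im) := by
      unfold dd
      field_simp
    rw [this]
    ring
  simp_rw [e1, e2]
  rw [integral_const_mul, intervalIntegral.integral_const_mul]
  congr 1
  rw [integral_finsetSum, intervalIntegral.integral_finsetSum]
  · refine Finset.sum_congr rfl fun s _ => ?_
    rw [integral_finsetSum, intervalIntegral.integral_finsetSum]
    · refine Finset.sum_congr rfl fun s' _ => ?_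
      rw [integral_const_mul, intervalIntegral.integral_const_mul, hval]
      rfl
    · intro s' _
      exact (hcc _).const_mul _
    · intro s' _
      exact (hint _).const_mul _
  · intro s _
    rw [intervalIntegrable_iff_integrableOn_Ioc_of_le (by linarith)]
    refine integrable_finsetSum _ fun s' _ => ?_
    have h := (hcc (dd T s s')).const_mul (mz s * mz s' * W (s.im - s'.im))
    rw [intervalIntegrable_iff_integrableOn_Ioc_of_le (by linarith)] at h
    exact h
  · intro s _
    refine integrable_finsetSum _ fun s' _ => ?_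
    exact (hint _).const_mul _

/-- domination -/
lemma Bw_dom (RH : RiemannHypothesis) : ∀ᶠ T in atTop, ∀ t : ℝ, 0 ≤ t →
    Bw T t ≤ π ^ 2 * (1 + t) := by
  have hpi := Real.pi_gt_three
  have h0 : ∀ᶠ T in atTop, MT T (1 / 2) ≤ 1 := by
    filter_upwards [GU_lt RH (c := 1 / 2) (by norm_num) (by norm_num) (1 / 2) (by norm_num)] with T h
    rw [MT_eq] at h
    linarith
  filter_upwards [h0, eventually_gt_atTop 1] with T h1 hT
  have hX := Xf_pos hT
  have key : ∀ t : ℝ, 1 ≤ t → Bw T t ≤ π ^ 2 * t := by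
    intro t ht
    have ht0 : 0 < t := by linarith
    set c : ℝ := 1 / (2 * t) with hc
    have hc0 : 0 < c := by positivity
    have hc2 : c ≤ 1 / 2 := by
      rw [hc, div_le_div_iff₀ (by positivity) (by norm_num)]
      linarith
    have h2 : ST T c ≤ c := by
      rw [ST_prim]
      calc ∫ t in (0 : ℝ)..c, MT T t ≤ ∫ t in (0 : ℝ)..c, (1 : ℝ) := by
            refine intervalIntegral.integral_mono_on hc0.le ((MT_cont T).intervalIntegrable _ _)
              (by simp) fun t ht => ?_
            exact (MT_mono RH hT (ht.2.trans hc2)).trans h1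
        _ = c := by simp
    have h3 : 2 / π ^ 2 * c ^ 2 * Bw T t ≤ ST T c := by
      unfold Bw ST
      rw [mul_left_comm]
      refine mul_le_mul_of_nonneg_left ?_ (inv_nonneg.2 hX.le)
      rw [Finset.mul_sum]
      refine Finset.sum_le_sum fun s _ => ?_
      rw [Finset.mul_sum]
      refine Finset.sum_le_sum fun s' _ => ?_
      rw [mul_left_comm]
      refine mul_le_mul_of_nonneg_left ?_ (mul_nonneg (mz_nonneg _) (mz_nonneg _))
      rw [mul_left_comm]
      refine mul_le_mul_of_nonneg_left ?_ (W_nonneg _)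
      have e : Real.log T * (s.im - s'.im) = 2 * π * dd T s s' := by
        unfold dd
        field_simp
      rw [e]
      rcases le_or_gt |dd T s s'| t with h | h
      · rw [ind_pos h, mul_one]
        set y := dd T s s' with hy
        rcases eq_or_ne y 0 with h0 | h0
        · rw [h0, mul_zero, Cc_zero]
          have : 2 / π ^ 2 ≤ 1 / 2 := by
            rw [div_le_div_iff₀ (by positivity) (by norm_num)]
            nlinarith
          nlinarith [sq_nonneg c]
        · rw [Cc_ne (by positivity), le_div_iff₀ (by positivity)]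
          have h4 : |2 * π * y * c| ≤ π := by
            rw [abs_mul, abs_mul, abs_of_pos (show 0 < 2 * π by positivity), abs_of_pos hc0, hc]
            rw [mul_one_div, div_le_iff₀ (by positivity)]
            nlinarith
          have h5 := Real.cos_le_one_sub_mul_cos_sq h4
          have h6 : 2 / π ^ 2 * (2 * π * y * c) ^ 2 ≤ 1 - Real.cos (2 * π * y * c) := by linarith
          calc 2 / π ^ 2 * c ^ 2 * (2 * π * y) ^ 2 = 2 / π ^ 2 * (2 * π * y * c) ^ 2 := by ring
            _ ≤ _ := h6
      · rw [ind_neg h, mul_zero]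
        exact Cc_nonneg _ _
    have h4 : 2 / π ^ 2 * c ^ 2 * Bw T t ≤ c := h3.trans h2
    have h5 : c * t = 1 / 2 := by rw [hc]; field_simp
    have h6 : c * Bw T t ≤ π ^ 2 / 2 := by
      have h7 : c * (2 / π ^ 2 * (c * Bw T t)) ≤ c * 1 := by
        calc c * (2 / π ^ 2 * (c * Bw T t)) = 2 / π ^ 2 * c ^ 2 * Bw T t := by ring
          _ ≤ c := h4
          _ = c * 1 := by ring
      have h8 := le_of_mul_le_mul_left h7 hc0
      have h9 : (c * Bw T t) = π ^ 2 / 2 * (2 / π ^ 2 * (c * Bw T t)) := by field_simp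
      rw [h9]
      calc π ^ 2 / 2 * (2 / π ^ 2 * (c * Bw T t)) ≤ π ^ 2 / 2 * 1 := by gcongr
        _ = _ := by ring
    calc Bw T t = 2 * t * (c * Bw T t) := by
          have : 2 * t * (c * Bw T t) = 2 * (c * t) * Bw T t := by ring
          rw [this, h5]; ring
      _ ≤ 2 * t * (π ^ 2 / 2) := by gcongr
      _ = π ^ 2 * t := by ring
  intro t ht
  have hp : 0 < π ^ 2 := by positivity
  rcases le_or_gt 1 t with h | h
  · have := key t h
    nlinarith
  · have := (Bw_mono hT h.le).trans (key 1 le_rfl)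
    nlinarith

lemma wgI_cont : Continuous fun t : ℝ => ∫ u in (-t)..t, wg u := by
  have h1 : Continuous fun t : ℝ => ∫ u in (0 : ℝ)..t, wg u :=
    intervalIntegral.continuous_primitive wg_ii 0
  have h2 : (fun t : ℝ => ∫ u in (-t)..t, wg u) = fun t =>
      (∫ u in (0 : ℝ)..t, wg u) - ∫ u in (0 : ℝ)..(-t), wg u := by
    funext t
    rw [intervalIntegral.integral_interval_sub_left (wg_ii _ _) (wg_ii _ _)]
  rw [h2]
  exact h1.sub (h1.comp continuous_neg)

lemma ng_cont : Continuous ng := continuous_const.add wgI_cont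

lemma ng_bounds {t : ℝ} (ht : 0 ≤ t) : 1 ≤ ng t ∧ ng t ≤ 1 + 2 * t := by
  unfold ng
  constructor
  · have : 0 ≤ ∫ u in (-t)..t, wg u :=
      intervalIntegral.integral_nonneg (by linarith) fun u _ => wg_nonneg u
    linarith
  · have : ∫ u in (-t)..t, wg u ≤ 2 * t := by
      calc ∫ u in (-t)..t, wg u ≤ ∫ u in (-t)..t, (1 : ℝ) :=
            intervalIntegral.integral_mono_on (by linarith) (wg_ii _ _) (by simp) fun u _ => wg_le u
        _ = 2 * t := by simp; ring
    linarith

/-- **the weighted mean of the discrepancy tends to `0`** -/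
lemma mean_zero (RH : RiemannHypothesis) {κ : ℝ} (hκ : 0 < κ) (hκ1 : κ < 1) :
    Tendsto (fun T => ∫ t in Ioi (0 : ℝ), ph κ t * (Bw T t - ng t)) atTop (𝓝 0) := by
  have hle : κ / 2 ≤ κ := by linarith
  have h1 : Tendsto (fun T => ∫ c in (κ / 2)..κ, 2 / c ^ 3 * ST T c) atTop
      (𝓝 (∫ c in (κ / 2)..κ, 2 / c ^ 3 * SG c)) := by
    refine intervalIntegral.tendsto_integral_filter_of_dominated_convergence
      (fun _ => 16 / κ ^ 3 * (SG κ + 1)) ?_ ?_ ?_ ?_
    · filter_upwards with T
      refine AEStronglyMeasurable.mul ?_ ?_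
      · exact (by fun_prop : Measurable fun c : ℝ => 2 / c ^ 3).aestronglyMeasurable
      · have : Continuous (ST T) := by
          have h : ST T = fun x => ∫ t in (0 : ℝ)..x, MT T t := funext fun x => ST_prim T x
          rw [h]
          exact intervalIntegral.continuous_primitive
            (fun _ _ => (MT_cont T).intervalIntegrable _ _) 0
        exact this.aestronglyMeasurable
    · filter_upwards [(ST_lim RH hκ.le hκ1).eventually_le_const (show SG κ < SG κ + 1 by linarith),
        eventually_gt_atTop 1] with T h2 hT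
      refine Filter.Eventually.of_forall fun c hc => ?_
      rw [Set.uIoc_of_le hle] at hc
      have hc0 : 0 < c := by linarith [hc.1]
      have h3 := ST_nonneg hT c
      rw [Real.norm_eq_abs, abs_of_nonneg (mul_nonneg (by positivity) h3)]
      have h4 : ST T c ≤ ST T κ := by
        have h5 : 0 ≤ ST T κ - ST T c := by
          rw [ST_sub]
          refine intervalIntegral.integral_nonneg hc.2 fun t ht => ?_
          have := MT_mono RH hT (show (0 : ℝ) ≤ t by linarith [ht.1])
          have e0 : MT T 0 = 0 := by unfold MT; simp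
          linarith
        linarith
      have h6 : 2 / c ^ 3 ≤ 16 / κ ^ 3 := by
        rw [div_le_div_iff₀ (by positivity) (by positivity)]
        have : (κ / 2) ^ 3 ≤ c ^ 3 := by
          have := hc.1
          gcongr
        nlinarith
      calc 2 / c ^ 3 * ST T c ≤ 16 / κ ^ 3 * ST T c := by gcongr
        _ ≤ 16 / κ ^ 3 * (SG κ + 1) := by gcongr; linarith
    · simp
    · refine Filter.Eventually.of_forall fun c hc => ?_
      rw [Set.uIoc_of_le hle] at hc
      exact (ST_lim RH (by linarith [hc.1]) (by linarith [hc.2])).const_mul _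
  rw [← gue_identity hκ] at h1
  simp_rw [← Bw_layer _ hκ] at h1
  have h2 : ∀ᶠ T in atTop, ∫ t in Ioi (0 : ℝ), ph κ t * (Bw T t - ng t) =
      (∫ t in Ioi (0 : ℝ), ph κ t * Bw T t) - ∫ t in Ioi (0 : ℝ), ph κ t * ng t := by
    filter_upwards [Bw_dom RH, eventually_gt_atTop 1] with T hB hT
    rw [← integral_sub]
    · refine integral_congr_ae (Filter.Eventually.of_forall fun t => ?_)
      show ph κ t * (Bw T t - ng t) = ph κ t * Bw T t - ph κ t * ng t
      ring
    · refine ((ph_int hκ).const_mul (π ^ 2)).mono'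
        ((ph_meas κ).mul (Bw_mono hT).measurable).aestronglyMeasurable ?_
      refine (ae_restrict_iff' measurableSet_Ioi).2 (Filter.Eventually.of_forall fun t ht => ?_)
      have ht0 : (0 : ℝ) < t := ht
      have hp := ph_nonneg κ ht0.le
      rw [Real.norm_eq_abs, abs_of_nonneg (mul_nonneg hp (Bw_nonneg hT t))]
      calc ph κ t * Bw T t ≤ ph κ t * (π ^ 2 * (1 + t)) :=
            mul_le_mul_of_nonneg_left (hB t ht0.le) hp
        _ = π ^ 2 * (ph κ t * (1 + t)) := by ring
    · refine ((ph_int hκ).const_mul 2).mono'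
        ((ph_meas κ).mul ng_cont.measurable).aestronglyMeasurable ?_
      refine (ae_restrict_iff' measurableSet_Ioi).2 (Filter.Eventually.of_forall fun t ht => ?_)
      have ht0 : (0 : ℝ) < t := ht
      have hp := ph_nonneg κ ht0.le
      obtain ⟨h3, h4⟩ := ng_bounds ht0.le
      rw [Real.norm_eq_abs, abs_of_nonneg (mul_nonneg hp (by linarith))]
      calc ph κ t * ng t ≤ ph κ t * (2 * (1 + t)) :=
            mul_le_mul_of_nonneg_left (by linarith) hp
        _ = 2 * (ph κ t * (1 + t)) := by ring
  have h3 := h1.sub_const (∫ t in Ioi (0 : ℝ), ph κ t * ng t)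
  rw [sub_self] at h3
  exact h3.congr' (h2.mono fun T h => h.symm)

end Pool.Agent.J4H67.OS
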