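import Pool.Agent.J4H67.OS.H3

/-! One half of the pair correlation conjecture implies the other one, and the averages of `F`. -/

open MeasureTheory Filter Topology Real Set

namespace Pool.Agent.J4H67.OS

open H370 TH803TW Pool.Agent.Y744 Pool.Agent.Results.MP_103a5c_nt.BohrSetPairs

lemma abs_Bw_sub_le {T : ℝ} (hT : 1 < T) {t : ℝ} (ht : 0 ≤ t) (hB : Bw T t ≤ π ^ 2 * (1 + t)) :
    |Bw T t - ng t| ≤ (π ^ 2 + 2) * (1 + t) := by
  have h1 := Bw_nonneg hT t
  obtain ⟨h2, h3⟩ := ng_bounds ht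
  have h4 : 0 ≤ π ^ 2 * (1 + t) := by positivity
  rw [abs_le]
  constructor <;> nlinarith

lemma ph_mul_int {κ : ℝ} (hκ : 0 < κ) {f : ℝ → ℝ} (hf : Measurable f) {C : ℝ}
    (h : ∀ t : ℝ, 0 < t → |f t| ≤ C * (1 + t)) : IntegrableOn (fun t => ph κ t * f t) (Ioi 0) := by
  refine ((ph_int hκ).const_mul C).mono' ((ph_meas κ).mul hf).aestronglyMeasurable ?_
  refine (ae_restrict_iff' measurableSet_Ioi).2 (Filter.Eventually.of_forall fun t ht => ?_)
  have ht0 : (0 : ℝ) < t := ht
  have hp := ph_nonneg κ ht0.le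
  rw [Real.norm_eq_abs, abs_mul, abs_of_nonneg hp]
  calc ph κ t * |f t| ≤ ph κ t * (C * (1 + t)) := mul_le_mul_of_nonneg_left (h t ht0) hp
    _ = C * (ph κ t * (1 + t)) := by ring

/-- one half gives convergence in `L¹` -/
lemma L1_half (RH : RiemannHypothesis) {l : Filter ℝ} (hl : l ≤ atTop) [l.IsCountablyGenerated]
    {κ : ℝ} (hκ : 0 < κ) (hκ1 : κ < 1) {σ : ℝ} (hσ : σ = 1 ∨ σ = -1)
    (h : ∀ t : ℝ, 0 < t → ∀ ε : ℝ, 0 < ε → ∀ᶠ T in l, σ * (Bw T t - ng t) ≤ ε) :
    Tendsto (fun T => ∫ t in Ioi (0 : ℝ), ph κ t * |Bw T t - ng t|) l (𝓝 0) := by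
  have hgood : ∀ᶠ T in l, 1 < T ∧ ∀ t : ℝ, 0 ≤ t → Bw T t ≤ π ^ 2 * (1 + t) :=
    Filter.Eventually.and (hl (eventually_gt_atTop 1)) (hl (Bw_dom RH))
  have hm : ∀ T : ℝ, 1 < T → Measurable fun t => Bw T t - ng t := fun T hT =>
    (Bw_mono hT).measurable.sub ng_cont.measurable
  have hσ2 : |σ| = 1 := by rcases hσ with rfl | rfl <;> simp
  have h1 : Tendsto (fun T => ∫ t in Ioi (0 : ℝ), ph κ t * max (σ * (Bw T t - ng t)) 0) l
      (𝓝 (∫ t in Ioi (0 : ℝ), ph κ t * 0)) := by
    refine tendsto_integral_filter_of_dominated_convergence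
      (fun t => (π ^ 2 + 2) * (ph κ t * (1 + t))) ?_ ?_ ((ph_int hκ).const_mul _) ?_
    · filter_upwards [hgood] with T hT
      exact ((ph_meas κ).mul (((hm T hT.1).const_mul σ).max measurable_const)).aestronglyMeasurable
    · filter_upwards [hgood] with T hT
      refine (ae_restrict_iff' measurableSet_Ioi).2 (Filter.Eventually.of_forall fun t ht => ?_)
      have ht0 : (0 : ℝ) < t := ht
      have hp := ph_nonneg κ ht0.le
      have h2 : |max (σ * (Bw T t - ng t)) 0| ≤ (π ^ 2 + 2) * (1 + t) := by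
        refine le_trans ?_ (abs_Bw_sub_le hT.1 ht0.le (hT.2 t ht0.le))
        rw [abs_of_nonneg (le_max_right _ _)]
        refine max_le ?_ (abs_nonneg _)
        calc σ * (Bw T t - ng t) ≤ |σ * (Bw T t - ng t)| := le_abs_self _
          _ = _ := by rw [abs_mul, hσ2, one_mul]
      rw [Real.norm_eq_abs, abs_mul, abs_of_nonneg hp]
      calc ph κ t * |max (σ * (Bw T t - ng t)) 0| ≤ ph κ t * ((π ^ 2 + 2) * (1 + t)) :=
            mul_le_mul_of_nonneg_left h2 hp
        _ = _ := by ring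
    · refine (ae_restrict_iff' measurableSet_Ioi).2 (Filter.Eventually.of_forall fun t ht => ?_)
      have ht0 : (0 : ℝ) < t := ht
      refine Tendsto.const_mul _ ?_
      rw [Metric.tendsto_nhds]
      intro ε hε
      filter_upwards [h t ht0 (ε / 2) (by positivity)] with T hT
      rw [Real.dist_eq, sub_zero, abs_of_nonneg (le_max_right _ _)]
      exact max_lt (by linarith) hε
  have h2 := (mean_zero RH hκ hκ1).mono_left hl
  have h3 := (h1.const_mul 2).sub (h2.const_mul σ)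
  simp only [mul_zero, integral_zero, sub_zero] at h3
  refine h3.congr' ?_
  filter_upwards [hgood] with T hT
  have hb : ∀ t : ℝ, 0 < t → |Bw T t - ng t| ≤ (π ^ 2 + 2) * (1 + t) := fun t ht =>
    abs_Bw_sub_le hT.1 ht.le (hT.2 t ht.le)
  have i1 : IntegrableOn (fun t => ph κ t * max (σ * (Bw T t - ng t)) 0) (Ioi 0) := by
    refine ph_mul_int hκ (C := π ^ 2 + 2) (((hm T hT.1).const_mul σ).max measurable_const) fun t ht => ?_
    refine le_trans ?_ (hb t ht)
    rw [abs_of_nonneg (le_max_right _ _)]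
    refine max_le ?_ (abs_nonneg _)
    calc σ * (Bw T t - ng t) ≤ |σ * (Bw T t - ng t)| := le_abs_self _
      _ = _ := by rw [abs_mul, hσ2, one_mul]
  have i2 : IntegrableOn (fun t => ph κ t * (Bw T t - ng t)) (Ioi 0) :=
    ph_mul_int hκ (hm T hT.1) hb
  rw [← integral_const_mul, ← integral_const_mul, ← integral_sub (i1.const_mul 2) (i2.const_mul σ)]
  refine integral_congr_ae (Filter.Eventually.of_forall fun t => ?_)
  show 2 * (ph κ t * max (σ * (Bw T t - ng t)) 0) - σ * (ph κ t * (Bw T t - ng t)) =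
    ph κ t * |Bw T t - ng t|
  set x := Bw T t - ng t
  have : |x| = 2 * max (σ * x) 0 - σ * x := by
    rcases hσ with rfl | rfl
    · rcases le_or_gt 0 x with hx | hx
      · rw [abs_of_nonneg hx, max_eq_left (by linarith)]; ring
      · rw [abs_of_neg hx, max_eq_right (by linarith)]; ring
    · rcases le_or_gt 0 x with hx | hx
      · rw [abs_of_nonneg hx, max_eq_right (by linarith)]; ring
      · rw [abs_of_neg hx, max_eq_left (by linarith)]; ring
  rw [this]
  ring

lemma ph_pos {κ t : ℝ} (hκ : 0 < κ) (ht : 0 < t) (h : κ * t < 2) : 0 < ph κ t := by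
  have hpi := Real.pi_pos
  unfold ph
  have h1 : 0 < Real.sin (π * κ / 2 * t) := by
    apply Real.sin_pos_of_pos_of_lt_pi (by positivity)
    nlinarith
  positivity

lemma ph_ii {κ a b : ℝ} (hκ : 0 < κ) (ha : 0 ≤ a) (hab : a ≤ b) :
    IntervalIntegrable (ph κ) volume a b := by
  rw [intervalIntegrable_iff_integrableOn_Ioc_of_le hab]
  exact (ph_int0 hκ).mono_set fun t ht => lt_of_le_of_lt ha ht.1

/-- a lower bound for the `L¹` distance -/
lemma L1_ge {T κ : ℝ} (hκ : 0 < κ) (hT : 1 < T)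
    (hB : ∀ t : ℝ, 0 ≤ t → Bw T t ≤ π ^ 2 * (1 + t)) {a b η : ℝ} (ha : 0 < a) (hab : a < b)
    (h : ∀ t ∈ Ioc a b, η ≤ |Bw T t - ng t|) :
    η * (∫ t in a..b, ph κ t) ≤ ∫ t in Ioi (0 : ℝ), ph κ t * |Bw T t - ng t| := by
  have hm : Measurable fun t => |Bw T t - ng t| :=
    ((Bw_mono hT).measurable.sub ng_cont.measurable).abs
  have i1 : IntegrableOn (fun t => ph κ t * |Bw T t - ng t|) (Ioi 0) :=
    ph_mul_int hκ hm (C := π ^ 2 + 2) fun t ht => by
      rw [abs_abs]
      exact abs_Bw_sub_le hT ht.le (hB t ht.le)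
  have hsub : Ioc a b ⊆ Ioi 0 := fun t ht => lt_trans ha ht.1
  calc η * (∫ t in a..b, ph κ t) = ∫ t in Ioc a b, η * ph κ t := by
        rw [intervalIntegral.integral_of_le hab.le, integral_const_mul]
    _ ≤ ∫ t in Ioc a b, ph κ t * |Bw T t - ng t| := by
        refine setIntegral_mono_on (((ph_int0 hκ).mono_set hsub).const_mul η) (i1.mono_set hsub)
          measurableSet_Ioc fun t ht => ?_
        have ht0 : 0 < t := hsub ht
        rw [mul_comm]
        exact mul_le_mul_of_nonneg_left (h t ht) (ph_nonneg κ ht0.le)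
    _ ≤ _ := by
        refine setIntegral_mono_set i1 ?_ hsub.eventuallyLE
        exact (ae_restrict_iff' measurableSet_Ioi).2 (Filter.Eventually.of_forall fun t ht =>
          mul_nonneg (ph_nonneg κ (le_of_lt ht)) (abs_nonneg _))

/-- pointwise convergence -/
lemma Bw_point (RH : RiemannHypothesis) {l : Filter ℝ} (hl : l ≤ atTop)
    (h : ∀ κ : ℝ, 0 < κ → κ < 1 →
      Tendsto (fun T => ∫ t in Ioi (0 : ℝ), ph κ t * |Bw T t - ng t|) l (𝓝 0)) {t₀ : ℝ}
    (ht₀ : 0 < t₀) : Tendsto (fun T => Bw T t₀) l (𝓝 (ng t₀)) := by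
  rw [Metric.tendsto_nhds]
  intro ε hε
  obtain ⟨δ₀, hδ₀, hng⟩ := Metric.continuous_iff.1 ng_cont t₀ (ε / 2) (by positivity)
  set δ := min (δ₀ / 2) (min (t₀ / 2) 1) with hδ
  have hδ0 : 0 < δ := lt_min (by positivity) (lt_min (by positivity) one_pos)
  have hδ1 : δ < δ₀ := (min_le_left _ _).trans_lt (by linarith)
  have hδ2 : δ ≤ t₀ / 2 := (min_le_right _ _).trans (min_le_left _ _)
  have hδ3 : δ ≤ 1 := (min_le_right _ _).trans (min_le_right _ _)
  have hng' : ∀ t : ℝ, |t - t₀| ≤ δ → |ng t - ng t₀| < ε / 2 := fun t ht => by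
    have := hng t (by rw [Real.dist_eq]; linarith)
    rwa [Real.dist_eq] at this
  set κ : ℝ := 1 / (t₀ + 2) with hκ
  have hκ0 : 0 < κ := by positivity
  have hκ1 : κ < 1 := by rw [hκ, div_lt_one (by positivity)]; linarith
  have hpos : ∀ t : ℝ, 0 < t → t ≤ t₀ + 1 → 0 < ph κ t := fun t h1 h2 => by
    apply ph_pos hκ0 h1
    rw [hκ, one_div, inv_mul_lt_iff₀ (by positivity)]
    linarith
  have c1 : 0 < ∫ t in (t₀ - δ)..t₀, ph κ t :=
    intervalIntegral.intervalIntegral_pos_of_pos_on (ph_ii hκ0 (by linarith) (by linarith))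
      (fun t ht => hpos t (by linarith [ht.1]) (by linarith [ht.2])) (by linarith)
  have c2 : 0 < ∫ t in t₀..(t₀ + δ), ph κ t :=
    intervalIntegral.intervalIntegral_pos_of_pos_on (ph_ii hκ0 (by linarith) (by linarith))
      (fun t ht => hpos t (by linarith [ht.1]) (by linarith [ht.2])) (by linarith)
  have h0 := h κ hκ0 hκ1
  filter_upwards [hl (eventually_gt_atTop 1), hl (Bw_dom RH),
    h0.eventually_lt_const (show 0 < ε / 2 * ∫ t in (t₀ - δ)..t₀, ph κ t by positivity),
    h0.eventually_lt_const (show 0 < ε / 2 * ∫ t in t₀..(t₀ + δ), ph κ t by positivity)]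
    with T hT hB h1 h2
  rw [Real.dist_eq, abs_lt]
  constructor
  · by_contra hc
    refine absurd (L1_ge hκ0 hT hB (a := t₀ - δ) (b := t₀) (η := ε / 2) (by linarith) (by linarith)
      fun t ht => ?_) (not_le.2 h1)
    have h3 := Bw_mono hT ht.2
    have h4 := abs_lt.1 (hng' t (abs_le.2 ⟨by linarith [ht.1], by linarith [ht.2]⟩))
    rw [abs_sub_comm]
    refine le_trans ?_ (le_abs_self _)
    linarith [h4.1, h4.2]
  · by_contra hc
    refine absurd (L1_ge hκ0 hT hB (a := t₀) (b := t₀ + δ) (η := ε / 2) (by linarith) (by linarith)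
      fun t ht => ?_) (not_le.2 h2)
    have h3 := Bw_mono hT ht.1.le
    have h4 := abs_lt.1 (hng' t (abs_le.2 ⟨by linarith [ht.1], by linarith [ht.2]⟩))
    refine le_trans ?_ (le_abs_self _)
    linarith [h4.1, h4.2]

/-- the weights are harmless -/
lemma Aa_of_Bw {l : Filter ℝ} (hl : l ≤ atTop) {t : ℝ} (ht : 0 ≤ t)
    (h : Tendsto (fun T => Bw T t) l (𝓝 (ng t))) : Tendsto (fun T => Aa T t) l (𝓝 (ng t)) := by
  have hL : Tendsto (fun T => 1 - (π * t / Real.log T) ^ 2) l (𝓝 1) := by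
    have h1 : Tendsto (fun T => π * t / Real.log T) l (𝓝 0) :=
      (Real.tendsto_log_atTop.mono_left hl).const_div_atTop _
    have h2 := (h1.pow 2).const_sub 1
    simpa using h2
  have h1 : Tendsto (fun T => Bw T t / (1 - (π * t / Real.log T) ^ 2)) l (𝓝 (ng t)) := by
    have := h.div hL one_ne_zero
    rwa [div_one] at this
  refine tendsto_of_tendsto_of_tendsto_of_le_of_le' h h1 ?_ ?_
  · filter_upwards [hl (eventually_gt_atTop 1)] with T hT
    exact Bw_le hT t
  · filter_upwards [hl (eventually_gt_atTop 1), hL.eventually_const_lt (show (0 : ℝ) < 1 by norm_num)]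
      with T hT h2
    rw [le_div_iff₀ h2, mul_comm]
    exact Aa_le hT ht

lemma Aa_half {l : Filter ℝ} (hl : l ≤ atTop) {σ : ℝ} (hσ : σ = 1 ∨ σ = -1) {t : ℝ} (ht : 0 < t)
    (h : ∀ ε : ℝ, 0 < ε → ∀ᶠ T in l, σ * (Aa T t - ng t) ≤ ε) :
    ∀ ε : ℝ, 0 < ε → ∀ᶠ T in l, σ * (Bw T t - ng t) ≤ ε := by
  intro ε hε
  rcases hσ with rfl | rfl
  · filter_upwards [h ε hε, hl (eventually_gt_atTop 1)] with T h1 hT
    have := Bw_le hT t
    linarith
  · obtain ⟨h2, h3⟩ := ng_bounds ht.le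
    have hL : Tendsto (fun T => (1 - (π * t / Real.log T) ^ 2) * (ng t - ε / 2)) l
        (𝓝 (ng t - ε / 2)) := by
      have h1 : Tendsto (fun T => π * t / Real.log T) l (𝓝 0) :=
        (Real.tendsto_log_atTop.mono_left hl).const_div_atTop _
      have h2 := ((h1.pow 2).const_sub 1).mul_const (ng t - ε / 2)
      simpa using h2
    have hL2 : Tendsto (fun T => 1 - (π * t / Real.log T) ^ 2) l (𝓝 1) := by
      have h1 : Tendsto (fun T => π * t / Real.log T) l (𝓝 0) :=
        (Real.tendsto_log_atTop.mono_left hl).const_div_atTop _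
      have h2 := (h1.pow 2).const_sub 1
      simpa using h2
    filter_upwards [h (ε / 2) (by positivity), hl (eventually_gt_atTop 1),
      hL.eventually_const_lt (show ng t - ε < ng t - ε / 2 by linarith),
      hL2.eventually_const_lt (show (0 : ℝ) < 1 by norm_num)] with T h1 hT h4 h5
    have h6 := Aa_le hT ht.le
    have h7 : ng t - ε / 2 ≤ Aa T t := by linarith
    have h8 := mul_le_mul_of_nonneg_left h7 h5.le
    linarith

/-! ### the averages of `F` -/

/-- the weighted averages of the second primitive -/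
noncomputable def JJ (f : ℝ → ℝ) (a b : ℝ) : ℝ := ∫ c in a..b, 2 / c ^ 3 * f c

lemma JJ_ii {f : ℝ → ℝ} (hf : Continuous f) {a b : ℝ} (ha : 0 < a) (hb : 0 < b) :
    IntervalIntegrable (fun c => 2 / c ^ 3 * f c) volume a b := by
  refine ContinuousOn.intervalIntegrable ?_
  refine ContinuousOn.mul ?_ hf.continuousOn
  refine ContinuousOn.div continuousOn_const (by fun_prop) fun c hc => ?_
  have : 0 < c := lt_of_lt_of_le (lt_min ha hb) hc.1
  positivity

lemma ST_cont (T : ℝ) : Continuous (ST T) := by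
  have h : ST T = fun x => ∫ t in (0 : ℝ)..x, MT T t := funext fun x => ST_prim T x
  rw [h]
  exact intervalIntegral.continuous_primitive (fun _ _ => (MT_cont T).intervalIntegrable _ _) 0

lemma SG_cont' : Continuous SG :=
  intervalIntegral.continuous_primitive (fun _ _ => mmI_cont.intervalIntegrable _ _) 0

lemma ST_mono (RH : RiemannHypothesis) {T : ℝ} (hT : 1 < T) {x y : ℝ} (hx : 0 ≤ x) (hxy : x ≤ y) :
    ST T x ≤ ST T y := by
  have h5 : 0 ≤ ST T y - ST T x := by
    rw [ST_sub]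
    refine intervalIntegral.integral_nonneg hxy fun t ht => ?_
    have := MT_mono RH hT (show (0 : ℝ) ≤ t by linarith [ht.1])
    have e0 : MT T 0 = 0 := by unfold MT; simp
    linarith
  linarith

lemma JJ_low (RH : RiemannHypothesis) {l : Filter ℝ} (hl : l ≤ atTop) {a b : ℝ} (ha : 0 < a)
    (hab : a ≤ b) (hb1 : b < 1) : Tendsto (fun T => JJ (ST T) a b) l (𝓝 (JJ SG a b)) := by
  have hb : 0 < b := by linarith
  refine Tendsto.mono_left ?_ hl
  refine intervalIntegral.tendsto_integral_filter_of_dominated_convergence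
    (fun _ => 2 / a ^ 3 * (SG b + 1)) ?_ ?_ ?_ ?_
  · filter_upwards with T
    refine AEStronglyMeasurable.mul ?_ (ST_cont T).aestronglyMeasurable
    exact (by fun_prop : Measurable fun c : ℝ => 2 / c ^ 3).aestronglyMeasurable
  · filter_upwards [(ST_lim RH hb.le hb1).eventually_le_const (show SG b < SG b + 1 by linarith),
      eventually_gt_atTop 1] with T h2 hT
    refine Filter.Eventually.of_forall fun c hc => ?_
    rw [Set.uIoc_of_le hab] at hc
    have hc0 : 0 < c := by linarith [hc.1]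
    have h3 := ST_nonneg hT c
    rw [Real.norm_eq_abs, abs_of_nonneg (mul_nonneg (by positivity) h3)]
    have h4 : ST T c ≤ ST T b := ST_mono RH hT hc0.le hc.2
    have h6 : 2 / c ^ 3 ≤ 2 / a ^ 3 := by
      have := hc.1
      gcongr
    calc 2 / c ^ 3 * ST T c ≤ 2 / a ^ 3 * ST T c := by gcongr
      _ ≤ 2 / a ^ 3 * (SG b + 1) := by gcongr; linarith
  · simp
  · refine Filter.Eventually.of_forall fun c hc => ?_
    rw [Set.uIoc_of_le hab] at hc
    exact (ST_lim RH (by linarith [hc.1]) (by linarith [hc.2])).const_mul _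

lemma JJ_dyadic (RH : RiemannHypothesis) {l : Filter ℝ} (hl : l ≤ atTop) [l.IsCountablyGenerated]
    (h : ∀ t : ℝ, 0 < t → Tendsto (fun T => Bw T t) l (𝓝 (ng t))) {κ : ℝ} (hκ : 0 < κ) :
    Tendsto (fun T => JJ (ST T) (κ / 2) κ) l (𝓝 (JJ SG (κ / 2) κ)) := by
  unfold JJ
  rw [← gue_identity hκ]
  simp_rw [← Bw_layer _ hκ]
  refine tendsto_integral_filter_of_dominated_convergence
    (fun t => π ^ 2 * (ph κ t * (1 + t))) ?_ ?_ ((ph_int hκ).const_mul _) ?_
  · filter_upwards [hl (eventually_gt_atTop 1)] with T hT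
    exact ((ph_meas κ).mul (Bw_mono hT).measurable).aestronglyMeasurable
  · filter_upwards [hl (eventually_gt_atTop 1), hl (Bw_dom RH)] with T hT hB
    refine (ae_restrict_iff' measurableSet_Ioi).2 (Filter.Eventually.of_forall fun t ht => ?_)
    have ht0 : (0 : ℝ) < t := ht
    have hp := ph_nonneg κ ht0.le
    rw [Real.norm_eq_abs, abs_of_nonneg (mul_nonneg hp (Bw_nonneg hT t))]
    calc ph κ t * Bw T t ≤ ph κ t * (π ^ 2 * (1 + t)) :=
          mul_le_mul_of_nonneg_left (hB t ht0.le) hp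
      _ = π ^ 2 * (ph κ t * (1 + t)) := by ring
  · refine (ae_restrict_iff' measurableSet_Ioi).2 (Filter.Eventually.of_forall fun t ht => ?_)
    exact (h t ht).const_mul _

lemma JJ_all (RH : RiemannHypothesis) {l : Filter ℝ} (hl : l ≤ atTop) [l.IsCountablyGenerated]
    (h : ∀ t : ℝ, 0 < t → Tendsto (fun T => Bw T t) l (𝓝 (ng t))) {a b : ℝ} (ha : 0 < a)
    (hb : 0 < b) : Tendsto (fun T => JJ (ST T) a b) l (𝓝 (JJ SG a b)) := by
  -- additivity
  have add : ∀ x y z : ℝ, 0 < x → 0 < y → 0 < z →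
      Tendsto (fun T => JJ (ST T) x y) l (𝓝 (JJ SG x y)) →
      Tendsto (fun T => JJ (ST T) y z) l (𝓝 (JJ SG y z)) →
      Tendsto (fun T => JJ (ST T) x z) l (𝓝 (JJ SG x z)) := by
    intro x y z hx hy hz h1 h2
    have e : ∀ f : ℝ → ℝ, Continuous f → JJ f x z = JJ f x y + JJ f y z := by
      intro f hf
      unfold JJ
      rw [intervalIntegral.integral_add_adjacent_intervals (JJ_ii hf hx hy) (JJ_ii hf hy hz)]
    rw [e SG SG_cont']
    exact (h1.add h2).congr fun T => (e (ST T) (ST_cont T)).symm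
  have sym : ∀ x y : ℝ, Tendsto (fun T => JJ (ST T) x y) l (𝓝 (JJ SG x y)) →
      Tendsto (fun T => JJ (ST T) y x) l (𝓝 (JJ SG y x)) := by
    intro x y h1
    have e : ∀ f : ℝ → ℝ, JJ f y x = -JJ f x y := fun f => by
      unfold JJ
      rw [intervalIntegral.integral_symm]
    rw [e]
    exact h1.neg.congr fun T => (e _).symm
  have key : ∀ n : ℕ, ∀ x : ℝ, 0 < x → x < 2 ^ n →
      Tendsto (fun T => JJ (ST T) (1 / 2) x) l (𝓝 (JJ SG (1 / 2) x)) := by
    intro n
    induction n with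
    | zero =>
      intro x hx hx1
      rw [pow_zero] at hx1
      rcases le_or_gt (1 / 2) x with h1 | h1
      · exact JJ_low RH hl (by norm_num) h1 hx1
      · exact sym _ _ (JJ_low RH hl hx h1.le (by norm_num))
    | succ n ih =>
      intro x hx hx1
      rw [pow_succ] at hx1
      exact add _ (x / 2) _ (by norm_num) (by positivity) hx (ih (x / 2) (by positivity) (by linarith))
        (JJ_dyadic RH hl h hx)
  have key' : ∀ x : ℝ, 0 < x → Tendsto (fun T => JJ (ST T) (1 / 2) x) l (𝓝 (JJ SG (1 / 2) x)) := by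
    intro x hx
    obtain ⟨n, hn⟩ := pow_unbounded_of_one_lt x (show (1 : ℝ) < 2 by norm_num)
    exact key n x hx hn
  exact add _ (1 / 2) _ ha (by norm_num) hb (sym _ _ (key' a ha)) (key' b hb)

lemma JJ_one_pos {a b : ℝ} (ha : 0 < a) (hab : a < b) : 0 < JJ (fun _ => 1) a b := by
  unfold JJ
  refine intervalIntegral.intervalIntegral_pos_of_pos_on
    (JJ_ii (f := fun _ => (1 : ℝ)) continuous_const ha (ha.trans hab)) (fun c hc => ?_) hab
  have : 0 < c := ha.trans hc.1
  positivity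

lemma JJ_mono {f g : ℝ → ℝ} (hf : Continuous f) (hg : Continuous g) {a b : ℝ} (ha : 0 < a)
    (hab : a ≤ b) (h : ∀ c ∈ Icc a b, f c ≤ g c) : JJ f a b ≤ JJ g a b := by
  unfold JJ
  refine intervalIntegral.integral_mono_on hab (JJ_ii hf ha (ha.trans_le hab))
    (JJ_ii hg ha (ha.trans_le hab)) fun c hc => ?_
  have : 0 < c := lt_of_lt_of_le ha hc.1
  exact mul_le_mul_of_nonneg_left (h c hc) (by positivity)

lemma JJ_const (r a b : ℝ) : JJ (fun _ => r) a b = r * JJ (fun _ => 1) a b := by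
  unfold JJ
  rw [← intervalIntegral.integral_const_mul]
  refine intervalIntegral.integral_congr fun c _ => ?_
  show 2 / c ^ 3 * r = r * (2 / c ^ 3 * 1)
  ring

lemma ST_of_Bw (RH : RiemannHypothesis) {l : Filter ℝ} (hl : l ≤ atTop) [l.IsCountablyGenerated]
    (h : ∀ t : ℝ, 0 < t → Tendsto (fun T => Bw T t) l (𝓝 (ng t))) {x : ℝ} (hx : 0 ≤ x) :
    Tendsto (fun T => ST T x) l (𝓝 (SG x)) := by
  rcases eq_or_lt_of_le hx with rfl | hx0
  · simp_rw [ST_zero, SG_zero]
    exact tendsto_const_nhds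
  rw [Metric.tendsto_nhds]
  intro ε hε
  obtain ⟨δ₀, hδ₀, hng⟩ := Metric.continuous_iff.1 SG_cont' x (ε / 2) (by positivity)
  set δ := min (δ₀ / 2) (x / 2) with hδ
  have hδ0 : 0 < δ := lt_min (by positivity) (by positivity)
  have hδ1 : δ < δ₀ := (min_le_left _ _).trans_lt (by linarith)
  have hδ2 : δ ≤ x / 2 := min_le_right _ _
  have hng' : ∀ t : ℝ, |t - x| ≤ δ → |SG t - SG x| < ε / 2 := fun t ht => by
    have := hng t (by rw [Real.dist_eq]; linarith)
    rwa [Real.dist_eq] at this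
  have p1 : 0 < JJ (fun _ => 1) (x - δ) x := JJ_one_pos (by linarith) (by linarith)
  have p2 : 0 < JJ (fun _ => 1) x (x + δ) := JJ_one_pos (by linarith) (by linarith)
  have l1 := JJ_all RH hl h (a := x - δ) (b := x) (by linarith) hx0
  have l2 := JJ_all RH hl h (a := x) (b := x + δ) hx0 (by linarith)
  filter_upwards [hl (eventually_gt_atTop 1),
    l1.eventually_const_lt (show JJ SG (x - δ) x - ε / 2 * JJ (fun _ => 1) (x - δ) x <
      JJ SG (x - δ) x by nlinarith),
    l2.eventually_lt_const (show JJ SG x (x + δ) <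
      JJ SG x (x + δ) + ε / 2 * JJ (fun _ => 1) x (x + δ) by nlinarith)] with T hT h1 h2
  rw [Real.dist_eq, abs_lt]
  constructor
  · have h3 : JJ (ST T) (x - δ) x ≤ ST T x * JJ (fun _ => 1) (x - δ) x := by
      rw [← JJ_const]
      exact JJ_mono (ST_cont T) continuous_const (by linarith) (by linarith) fun c hc =>
        ST_mono RH hT (by linarith [hc.1]) hc.2
    have h4 : (SG x - ε / 2) * JJ (fun _ => 1) (x - δ) x ≤ JJ SG (x - δ) x := by
      rw [← JJ_const]
      exact JJ_mono continuous_const SG_cont' (by linarith) (by linarith) fun c hc => by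
        have := abs_lt.1 (hng' c (abs_le.2 ⟨by linarith [hc.1], by linarith [hc.2]⟩))
        linarith [this.1]
    have h5 : (SG x - ε) * JJ (fun _ => 1) (x - δ) x < ST T x * JJ (fun _ => 1) (x - δ) x := by
      nlinarith
    have := lt_of_mul_lt_mul_right h5 p1.le
    linarith
  · have h3 : ST T x * JJ (fun _ => 1) x (x + δ) ≤ JJ (ST T) x (x + δ) := by
      rw [← JJ_const]
      exact JJ_mono continuous_const (ST_cont T) (by linarith) (by linarith) fun c hc =>
        ST_mono RH hT hx hc.1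
    have h4 : JJ SG x (x + δ) ≤ (SG x + ε / 2) * JJ (fun _ => 1) x (x + δ) := by
      rw [← JJ_const]
      exact JJ_mono SG_cont' continuous_const (by linarith) (by linarith) fun c hc => by
        have := abs_lt.1 (hng' c (abs_le.2 ⟨by linarith [hc.1], by linarith [hc.2]⟩))
        linarith [this.2]
    have h5 : ST T x * JJ (fun _ => 1) x (x + δ) < (SG x + ε) * JJ (fun _ => 1) x (x + δ) := by
      nlinarith
    have := lt_of_mul_lt_mul_right h5 p2.le
    linarith

/-- **one half of the pair correlation conjecture implies the whole of it** -/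
theorem half (RH : RiemannHypothesis) {l : Filter ℝ} (hl : l ≤ atTop) [l.IsCountablyGenerated]
    {σ : ℝ} (hσ : σ = 1 ∨ σ = -1)
    (h : ∀ t : ℝ, 0 < t → ∀ ε : ℝ, 0 < ε → ∀ᶠ T in l, σ * (Aa T t - ng t) ≤ ε) :
    (∀ t : ℝ, 0 < t → Tendsto (fun T => Aa T t) l (𝓝 (ng t))) ∧
    ∀ x : ℝ, 0 ≤ x → Tendsto (fun T => ST T x) l (𝓝 (SG x)) := by
  have h1 : ∀ t : ℝ, 0 < t → ∀ ε : ℝ, 0 < ε → ∀ᶠ T in l, σ * (Bw T t - ng t) ≤ ε :=
    fun t ht => Aa_half hl hσ ht (h t ht)
  have h2 : ∀ t : ℝ, 0 < t → Tendsto (fun T => Bw T t) l (𝓝 (ng t)) := fun t ht =>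
    Bw_point RH hl (fun κ hκ hκ1 => L1_half RH hl hκ hκ1 hσ h1) ht
  exact ⟨fun t ht => Aa_of_Bw hl ht.le (h2 t ht), fun x hx => ST_of_Bw RH hl h2 hx⟩

end Pool.Agent.J4H67.OS
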