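import Pool.Agent.J4H67.OS.S

/-! Positive definite functions with a periodic perturbation. -/

open MeasureTheory Filter Topology Real

namespace Pool.Agent.J4H67.OS

/-- positive definiteness of an even function -/
def PD (k : ℝ → ℝ) : Prop := ∀ (ι : Type) (I : Finset ι) (c x : ι → ℝ),
  0 ≤ ∑ i ∈ I, ∑ j ∈ I, c i * c j * k (x i - x j)

/-- Cauchy-Schwarz -/
lemma PD.cs {k : ℝ → ℝ} (hk : PD k) (he : ∀ x, k (-x) = k x) {ι κ : Type} (I : Finset ι)
    (J : Finset κ) (c x : ι → ℝ) (d y : κ → ℝ) :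
    (∑ i ∈ I, ∑ j ∈ J, c i * d j * k (x i - y j)) ^ 2 ≤
      (∑ i ∈ I, ∑ j ∈ I, c i * c j * k (x i - x j)) *
        ∑ i ∈ J, ∑ j ∈ J, d i * d j * k (y i - y j) := by
  classical
  set A := ∑ i ∈ I, ∑ j ∈ I, c i * c j * k (x i - x j) with hA
  set B := ∑ i ∈ I, ∑ j ∈ J, c i * d j * k (x i - y j) with hB
  set C := ∑ i ∈ J, ∑ j ∈ J, d i * d j * k (y i - y j) with hC
  have h1 : ∀ τ : ℝ, 0 ≤ C * (τ * τ) + 2 * B * τ + A := by
    intro τ
    have h2 := hk (ι ⊕ κ) (I.disjSum J) (Sum.elim c fun j => τ * d j) (Sum.elim x y)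
    rw [Finset.sum_disjSum] at h2
    simp only [Finset.sum_disjSum, Sum.elim_inl, Sum.elim_inr, Finset.sum_add_distrib] at h2
    have e1 : ∑ i ∈ I, ∑ j ∈ J, c i * (τ * d j) * k (x i - y j) = τ * B := by
      rw [hB, Finset.mul_sum]
      refine Finset.sum_congr rfl fun i _ => ?_
      rw [Finset.mul_sum]
      refine Finset.sum_congr rfl fun j _ => ?_
      ring
    have e2 : ∑ j ∈ J, ∑ i ∈ I, τ * d j * c i * k (y j - x i) = τ * B := by
      rw [hB, Finset.mul_sum, Finset.sum_comm]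
      refine Finset.sum_congr rfl fun i _ => ?_
      rw [Finset.mul_sum]
      refine Finset.sum_congr rfl fun j _ => ?_
      rw [← he (x i - y j), neg_sub]
      ring
    have e3 : ∑ i ∈ J, ∑ j ∈ J, τ * d i * (τ * d j) * k (y i - y j) = τ ^ 2 * C := by
      rw [hC, Finset.mul_sum]
      refine Finset.sum_congr rfl fun i _ => ?_
      rw [Finset.mul_sum]
      refine Finset.sum_congr rfl fun j _ => ?_
      ring
    rw [e1, e2, e3] at h2
    nlinarith
  have h2 := discrim_le_zero h1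
  unfold discrim at h2
  nlinarith

/-- a sum over the square with one value off the diagonal and one on it -/
lemma sum_diag {k : ℝ → ℝ} (n : ℕ) (c x : ℕ → ℝ) (B q : ℝ)
    (hd : ∀ i < n, k (x i - x i) = B) (ho : ∀ i < n, ∀ j < n, i ≠ j → k (x i - x j) = q) :
    ∑ i ∈ Finset.range n, ∑ j ∈ Finset.range n, c i * c j * k (x i - x j) =
      q * (∑ i ∈ Finset.range n, c i) ^ 2 + (B - q) * ∑ i ∈ Finset.range n, c i ^ 2 := by
  have h1 : ∀ i ∈ Finset.range n, ∑ j ∈ Finset.range n, c i * c j * k (x i - x j) =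
      q * (c i * ∑ j ∈ Finset.range n, c j) + (B - q) * c i ^ 2 := by
    intro i hi
    have h2 : ∀ j ∈ Finset.range n, c i * c j * k (x i - x j) =
        q * (c i * c j) + if j = i then (B - q) * c i ^ 2 else 0 := by
      intro j hj
      rw [Finset.mem_range] at hi hj
      rcases eq_or_ne j i with rfl | h
      · rw [hd j hj, if_pos rfl]; ring
      · rw [ho i hi j hj h.symm, if_neg h]; ring
    rw [Finset.sum_congr rfl h2, Finset.sum_add_distrib, Finset.sum_ite_eq' , if_pos hi,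
      Finset.mul_sum, Finset.mul_sum]
  rw [Finset.sum_congr rfl h1, Finset.sum_add_distrib, ← Finset.mul_sum, ← Finset.mul_sum,
    ← Finset.sum_mul, sq]

section

variable {k : ℝ → ℝ} {ℓ a : ℝ}

/-- translates by multiples of the period -/
lemma per_mul (hper : ∀ x, a ≤ x → k (x + ℓ) = k x) (hℓ : 0 ≤ ℓ) {x : ℝ} (hx : a ≤ x) (j : ℕ) :
    k (x + j * ℓ) = k x := by
  induction j with
  | zero => simp
  | succ j ih =>
    have e : x + ((j + 1 : ℕ) : ℝ) * ℓ = (x + j * ℓ) + ℓ := by push_cast; ring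
    rw [e, hper _ (by nlinarith [(Nat.cast_nonneg j : (0 : ℝ) ≤ j)]), ih]

/-- the values at the multiples of the period dominate -/
lemma PD.dom (hk : PD k) (he : ∀ x, k (-x) = k x) (ha : 0 ≤ a) (hℓ : a ≤ ℓ)
    (hper : ∀ x, a ≤ x → k (x + ℓ) = k x) {z : ℝ} (hz : 0 ≤ z) : |k (z + ℓ)| ≤ k ℓ := by
  have hℓ0 : 0 ≤ ℓ := ha.trans hℓ
  set B := k 0 with hB
  set q := k ℓ with hq
  have hP : ∀ j : ℕ, 1 ≤ j → k (j * ℓ) = q := by
    intro j hj
    obtain ⟨i, rfl⟩ := Nat.exists_eq_add_of_le hj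
    have := per_mul hper hℓ0 hℓ i
    rw [hq, ← this]
    congr 1
    push_cast
    ring
  have hZ : ∀ j : ℕ, 1 ≤ j → k (z + j * ℓ) = k (z + ℓ) := by
    intro j hj
    obtain ⟨i, rfl⟩ := Nat.exists_eq_add_of_le hj
    have := per_mul hper hℓ0 (show a ≤ z + ℓ by linarith) i
    rw [← this]
    congr 1
    push_cast
    ring
  have hdiag : ∀ s : ℝ, ∀ n : ℕ, ∑ i ∈ Finset.range n, ∑ j ∈ Finset.range n, (1 : ℝ) * 1 *
      k ((s + i * ℓ) - (s + j * ℓ)) = q * (n : ℝ) ^ 2 + (B - q) * n := by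
    intro s n
    have h1 := sum_diag (k := k) n (fun _ => 1) (fun i => s + i * ℓ) B q
      (fun i _ => by rw [sub_self]) (fun i _ j _ hij => by
        rcases lt_or_gt_of_ne hij with h | h
        · obtain ⟨d, rfl⟩ := Nat.exists_eq_add_of_lt h
          rw [← he]
          have e : -(s + (i : ℝ) * ℓ - (s + ((i + d + 1 : ℕ) : ℝ) * ℓ)) = ((d + 1 : ℕ) : ℝ) * ℓ := by
            push_cast; ring
          rw [e]
          exact hP _ (by omega)
        · obtain ⟨d, rfl⟩ := Nat.exists_eq_add_of_lt h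
          have e : s + ((j + d + 1 : ℕ) : ℝ) * ℓ - (s + (j : ℝ) * ℓ) = ((d + 1 : ℕ) : ℝ) * ℓ := by
            push_cast; ring
          rw [e]
          exact hP _ (by omega))
    rw [h1]
    simp
  have hmain : ∀ n : ℕ, 1 ≤ n → |k (z + ℓ)| * n ≤ q * n + (B - q) := by
    intro n hn
    have hn0 : (0 : ℝ) < n := by exact_mod_cast hn
    have h1 := hk.cs he (Finset.range n) (Finset.range n) (fun _ => 1) (fun i : ℕ => 0 + (i : ℝ) * ℓ)
      (fun _ => 1) (fun i : ℕ => (z + (n + 1) * ℓ) + i * ℓ)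
    rw [hdiag, hdiag] at h1
    have h2 : ∑ i ∈ Finset.range n, ∑ j ∈ Finset.range n, (1 : ℝ) * 1 *
        k ((0 + (i : ℝ) * ℓ) - ((z + (n + 1) * ℓ) + j * ℓ)) = (n : ℝ) ^ 2 * k (z + ℓ) := by
      have h3 : ∀ i ∈ Finset.range n, ∀ j ∈ Finset.range n, (1 : ℝ) * 1 *
          k ((0 + (i : ℝ) * ℓ) - ((z + (n + 1) * ℓ) + j * ℓ)) = k (z + ℓ) := by
        intro i hi j _
        rw [Finset.mem_range] at hi
        rw [one_mul, one_mul, ← he]
        obtain ⟨d, hd⟩ := Nat.exists_eq_add_of_lt hi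
        have e : -((0 + (i : ℝ) * ℓ) - ((z + (n + 1) * ℓ) + j * ℓ)) = z + ((d + 2 + j : ℕ) : ℝ) * ℓ := by
          have : (n : ℝ) = i + d + 1 := by exact_mod_cast hd
          rw [this]
          push_cast
          ring
        rw [e]
        exact hZ _ (by omega)
      rw [Finset.sum_congr rfl fun i hi => Finset.sum_congr rfl fun j hj => h3 i hi j hj]
      simp
      ring
    rw [h2, ← sq] at h1
    have h4 : 0 ≤ q * (n : ℝ) ^ 2 + (B - q) * n := by
      rw [← hdiag 0 n]
      exact hk ℕ (Finset.range n) (fun _ => 1) (fun i => 0 + (i : ℝ) * ℓ)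
    have h5 := abs_le_of_sq_le_sq h1 h4
    have h6 : |(n : ℝ) ^ 2 * k (z + ℓ)| ≤ q * (n : ℝ) ^ 2 + (B - q) * n := h5
    rw [abs_mul, abs_of_nonneg (by positivity)] at h6
    have h7 : n * (|k (z + ℓ)| * n) ≤ n * (q * n + (B - q)) := by
      calc n * (|k (z + ℓ)| * n) = (n : ℝ) ^ 2 * |k (z + ℓ)| := by ring
        _ ≤ _ := h6
        _ = _ := by ring
    exact le_of_mul_le_mul_left h7 hn0
  by_contra hcon
  push Not at hcon
  obtain ⟨n, hn⟩ := exists_nat_gt (|B - q| / (|k (z + ℓ)| - q))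
  have hpos : 0 < |k (z + ℓ)| - q := by linarith
  have hn0 : (0 : ℝ) < n := lt_of_le_of_lt (by positivity) hn
  have h1 := hmain n (by exact_mod_cast hn0)
  rw [div_lt_iff₀ hpos] at hn
  have := le_abs_self (B - q)
  nlinarith

/-- **symmetry** -/
lemma PD.symm (hk : PD k) (he : ∀ x, k (-x) = k x) (ha : 0 ≤ a) (hℓ : a ≤ ℓ)
    (hper : ∀ x, a ≤ x → k (x + ℓ) = k x) {z : ℝ} (hz : 0 ≤ z) (hzℓ : z ≤ ℓ) :
    k (2 * ℓ + z) = k (2 * ℓ - z) := by
  have hℓ0 : 0 ≤ ℓ := ha.trans hℓ
  set B := k 0 with hB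
  set q := k ℓ with hq
  set δ := k (2 * ℓ + z) - k (2 * ℓ - z) with hδ
  have hP : ∀ j : ℕ, 1 ≤ j → k (j * ℓ) = q := by
    intro j hj
    obtain ⟨i, rfl⟩ := Nat.exists_eq_add_of_le hj
    have := per_mul hper hℓ0 hℓ i
    rw [hq, ← this]
    congr 1
    push_cast
    ring
  have hZ : ∀ j : ℕ, 1 ≤ j → k (z + j * ℓ) = k (2 * ℓ + z) := by
    intro j hj
    obtain ⟨i, rfl⟩ := Nat.exists_eq_add_of_le hj
    have h1 := per_mul hper hℓ0 (show a ≤ z + ℓ by linarith) i
    have h2 := per_mul hper hℓ0 (show a ≤ z + ℓ by linarith) 1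
    have e1 : z + ((1 + i : ℕ) : ℝ) * ℓ = z + ℓ + i * ℓ := by push_cast; ring
    have e2 : 2 * ℓ + z = z + ℓ + ((1 : ℕ) : ℝ) * ℓ := by push_cast; ring
    rw [e1, e2, h1, h2]
  have hY : ∀ j : ℕ, 2 ≤ j → k (j * ℓ - z) = k (2 * ℓ - z) := by
    intro j hj
    obtain ⟨i, rfl⟩ := Nat.exists_eq_add_of_le hj
    have h1 := per_mul hper hℓ0 (show a ≤ 2 * ℓ - z by linarith) i
    rw [← h1]
    congr 1
    push_cast
    ring
  have hmain : ∀ m : ℕ, 1 ≤ m → m * δ ^ 2 ≤ 4 * (B - q) ^ 2 := by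
    intro m hm
    have hm0 : (0 : ℝ) < m := by exact_mod_cast hm
    set c : ℕ → ℝ := fun i => if i < m then -1 else 1 with hc
    set x : ℕ → ℝ := fun i => ((if i < m then i else i + 2 : ℕ) : ℝ) * ℓ with hx
    set d : ℕ → ℝ := fun i => if i = 0 then -1 else 1 with hd
    set y : ℕ → ℝ := fun i => z + ((if i = 0 then m else 2 * m + 2 : ℕ) : ℝ) * ℓ with hy
    have h1 := hk.cs he (Finset.range (2 * m)) (Finset.range 2) c x d y
    have hsc : ∑ i ∈ Finset.range (2 * m), c i = 0 := by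
      rw [two_mul, Finset.sum_range_add]
      have e1 : ∀ i ∈ Finset.range m, c i = -1 := fun i hi => by
        rw [hc]; simp only; rw [if_pos (Finset.mem_range.1 hi)]
      have e2 : ∀ i ∈ Finset.range m, c (m + i) = 1 := fun i _ => by
        rw [hc]; simp only; rw [if_neg (by omega)]
      rw [Finset.sum_congr rfl e1, Finset.sum_congr rfl e2]
      simp
    have hsc2 : ∑ i ∈ Finset.range (2 * m), c i ^ 2 = 2 * m := by
      have e1 : ∀ i ∈ Finset.range (2 * m), c i ^ 2 = 1 := fun i _ => by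
        rw [hc]; simp only; split_ifs <;> norm_num
      rw [Finset.sum_congr rfl e1]
      simp
    have hVV : ∑ i ∈ Finset.range (2 * m), ∑ j ∈ Finset.range (2 * m), c i * c j * k (x i - x j) =
        (B - q) * (2 * m) := by
      have hinj : ∀ i j : ℕ, i < j → ∃ n : ℕ, 1 ≤ n ∧ x j - x i = n * ℓ := by
        intro i j hij
        refine ⟨(if j < m then j else j + 2) - (if i < m then i else i + 2), ?_, ?_⟩
        · split_ifs <;> omega
        · have h3 : (if i < m then i else i + 2) ≤ (if j < m then j else j + 2) := by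
            split_ifs <;> omega
          rw [Nat.cast_sub h3, hx]
          simp only
          ring
      rw [sum_diag (k := k) (2 * m) c x B q (fun i _ => by rw [sub_self]) (fun i _ j _ hij => by
        rcases lt_or_gt_of_ne hij with h | h
        · obtain ⟨n, hn, h3⟩ := hinj i j h
          rw [← he, neg_sub, h3]
          exact hP n hn
        · obtain ⟨n, hn, h3⟩ := hinj j i h
          rw [h3]
          exact hP n hn), hsc, hsc2]
      ring
    have hUU : ∑ i ∈ Finset.range 2, ∑ j ∈ Finset.range 2, d i * d j * k (y i - y j) =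
        2 * (B - q) := by
      have e1 : y 1 - y 0 = ((m + 2 : ℕ) : ℝ) * ℓ := by
        rw [hy]; simp only; push_cast; simp; ring
      have e2 : k (y 1 - y 0) = q := by rw [e1]; exact hP _ (by omega)
      have e3 : k (y 0 - y 1) = q := by rw [← he, neg_sub, e2]
      rw [Finset.sum_range_succ, Finset.sum_range_one, Finset.sum_range_succ, Finset.sum_range_one,
        Finset.sum_range_succ, Finset.sum_range_one, e2, e3, sub_self, sub_self, ← hB]
      have d0 : d 0 = -1 := by rw [hd]; simp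
      have d1 : d 1 = 1 := by rw [hd]; simp
      rw [d0, d1]
      ring
    have hVU : ∑ i ∈ Finset.range (2 * m), ∑ j ∈ Finset.range 2, c i * d j * k (x i - y j) =
        m * δ := by
      have d0 : d 0 = -1 := by rw [hd]; simp
      have d1 : d 1 = 1 := by rw [hd]; simp
      have h3 : ∀ i ∈ Finset.range (2 * m), ∑ j ∈ Finset.range 2, c i * d j * k (x i - y j) =
          c i * (k (y 1 - x i) - k (y 0 - x i)) := by
        intro i _
        rw [Finset.sum_range_succ, Finset.sum_range_one, d0, d1, ← he (x i - y 0),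
          ← he (x i - y 1), neg_sub, neg_sub]
        ring
      rw [Finset.sum_congr rfl h3, two_mul, Finset.sum_range_add]
      have e1 : ∀ i ∈ Finset.range m, c i * (k (y 1 - x i) - k (y 0 - x i)) = 0 := by
        intro i hi
        rw [Finset.mem_range] at hi
        obtain ⟨d', hd'⟩ := Nat.exists_eq_add_of_lt hi
        have hmr : (m : ℝ) = i + d' + 1 := by exact_mod_cast hd'
        have f1 : y 1 - x i = z + ((m + d' + 3 : ℕ) : ℝ) * ℓ := by
          rw [hy, hx]; simp only; rw [if_neg one_ne_zero, if_pos hi]; push_cast; rw [hmr]; ring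
        have f2 : y 0 - x i = z + ((d' + 1 : ℕ) : ℝ) * ℓ := by
          rw [hy, hx]; simp only; rw [if_pos trivial, if_pos hi]; push_cast; rw [hmr]; ring
        rw [f1, f2, hZ _ (by omega), hZ _ (by omega), sub_self, mul_zero]
      have e2 : ∀ i ∈ Finset.range m, c (m + i) * (k (y 1 - x (m + i)) - k (y 0 - x (m + i))) = δ := by
        intro i hi
        rw [Finset.mem_range] at hi
        obtain ⟨d', hd'⟩ := Nat.exists_eq_add_of_lt hi
        have hmr : (m : ℝ) = i + d' + 1 := by exact_mod_cast hd'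
        have f1 : y 1 - x (m + i) = z + ((d' + 1 : ℕ) : ℝ) * ℓ := by
          rw [hy, hx]; simp only; rw [if_neg one_ne_zero, if_neg (by omega)]; push_cast; rw [hmr]
          ring
        have f2 : y 0 - x (m + i) = -(((i + 2 : ℕ) : ℝ) * ℓ - z) := by
          rw [hy, hx]; simp only; rw [if_pos trivial, if_neg (by omega)]; push_cast; ring
        have c1 : c (m + i) = 1 := by rw [hc]; simp only; rw [if_neg (by omega)]
        rw [f1, f2, he, hZ _ (by omega), hY _ (by omega), c1, one_mul]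
      rw [Finset.sum_congr rfl e1, Finset.sum_congr rfl e2]
      simp
    rw [hVV, hUU, hVU] at h1
    have h2 : m * (m * δ ^ 2) ≤ m * (4 * (B - q) ^ 2) := by
      calc m * (m * δ ^ 2) = (m * δ) ^ 2 := by ring
        _ ≤ _ := h1
        _ = _ := by ring
    exact le_of_mul_le_mul_left h2 hm0
  have hδ0 : δ = 0 := by
    by_contra hne
    have hpos : 0 < δ ^ 2 := by positivity
    obtain ⟨m, hm⟩ := exists_nat_gt (4 * (B - q) ^ 2 / δ ^ 2)
    have hm0 : (0 : ℝ) < m := lt_of_le_of_lt (by positivity) hm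
    have h1 := hmain m (by exact_mod_cast hm0)
    rw [div_lt_iff₀ hpos] at hm
    linarith
  linarith

end

end Pool.Agent.J4H67.OS
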