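import Pool.Agent.J4H67.OS.One

/-! One window length is enough. -/

open MeasureTheory Filter Topology Real

namespace Pool.Agent.J4H67.OS

open H370 TH803TW Pool.Agent.Y744 Pool.Agent.Results.MP_103a5c_nt.BohrSetPairs

lemma lin_rec {f : ℕ → ℝ} {M : ℕ} (h0 : f 0 = 0)
    (h : ∀ i, 1 ≤ i → i < M → f (i + 1) - 2 * f i + f (i - 1) = 0) :
    ∀ i, i ≤ M → f i = i * f 1 := by
  intro i
  induction i using Nat.strong_induction_on with
  | _ i ih =>
    intro hi
    match i with
    | 0 => simp [h0]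
    | 1 => simp
    | i + 2 =>
      have h1 := h (i + 1) (by omega) (by omega)
      have h2 := ih (i + 1) (by omega) (by omega)
      have h3 := ih i (by omega) (by omega)
      rw [Nat.add_sub_cancel] at h1
      have e : f (i + 2) = 2 * f (i + 1) - f i := by
        have : i + 1 + 1 = i + 2 := rfl
        rw [this] at h1
        linarith
      rw [e, h2, h3]
      push_cast
      ring

lemma SG_second {x h : ℝ} (hx : 1 ≤ x) (hxh : 1 ≤ x - h) (hh : 0 ≤ h) :
    SG (x + h) - 2 * SG x + SG (x - h) = h ^ 2 := by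
  rw [SG_large hx, SG_large hxh, SG_large (by linarith)]
  ring

section

variable {S : ℝ → ℝ} {ℓ c : ℝ}

lemma lattice (hℓ : 2 ≤ ℓ) (he : ∀ x, S (-x) = S x)
    (hp : ∀ h : ℝ, PD (fun x => S (x + h) - 2 * S x + S (x - h) - h ^ 2))
    (hs : ∀ x, 0 ≤ x → x < 1 → S x = SG x)
    (hper : ∀ x, 0 ≤ x → S (x + ℓ) - SG (x + ℓ) = S x - SG x + c) {M : ℕ} (hM : ℓ < M) (i : ℕ) :
    S (i * (ℓ / M)) = SG (i * (ℓ / M)) := by
  have hℓ0 : 0 < ℓ := by linarith
  have hM0 : (0 : ℝ) < M := by linarith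
  set h : ℝ := ℓ / M with hh
  have hh0 : 0 < h := by positivity
  have hh1 : h < 1 := by rw [hh, div_lt_one hM0]; exact hM
  have hMh : M * h = ℓ := by rw [hh]; field_simp
  have hM2 : 2 < M := by
    have : (2 : ℝ) < M := by linarith
    exact_mod_cast this
  set e : ℝ → ℝ := fun x => S x - SG x with hedef
  have hS0 : S 0 = 0 := by rw [hs 0 le_rfl one_pos, SG_zero]
  have e0 : e 0 = 0 := by rw [hedef]; simp only; rw [hS0, SG_zero, sub_zero]
  have eper : ∀ x, 0 ≤ x → e (x + ℓ) = e x + c := hper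
  have eper' : ∀ x, 0 ≤ x → ∀ n : ℕ, e (x + n * ℓ) = e x + n * c := by
    intro x hx n
    induction n with
    | zero => simp
    | succ n ih =>
      have e1 : x + ((n + 1 : ℕ) : ℝ) * ℓ = (x + n * ℓ) + ℓ := by push_cast; ring
      rw [e1, eper _ (by positivity), ih]
      push_cast
      ring
  set k : ℝ → ℝ := fun x => S (x + h) - 2 * S x + S (x - h) - h ^ 2 with hk
  have hPD : PD k := hp h
  have hke : ∀ x, k (-x) = k x := by
    intro x
    rw [hk]
    simp only
    rw [show -x + h = -(x - h) by ring, show -x - h = -(x + h) by ring, he, he, he]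
    ring
  have kx : ∀ x, 1 + h ≤ x → k x = e (x + h) - 2 * e x + e (x - h) := by
    intro x hx
    have := SG_second (x := x) (h := h) (by linarith) (by linarith) hh0.le
    rw [hk, hedef]
    simp only
    linarith
  have hkper : ∀ x, 1 + h ≤ x → k (x + ℓ) = k x := by
    intro x hx
    rw [kx x hx, kx (x + ℓ) (by linarith), show x + ℓ + h = (x + h) + ℓ by ring,
      show x + ℓ - h = (x - h) + ℓ by ring, eper (x + h) (by linarith), eper x (by linarith),
      eper (x - h) (by linarith)]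
    ring
  -- `c ≥ 0`
  have hc0 : 0 ≤ c := by
    by_contra hcon
    push Not at hcon
    obtain ⟨n, hn⟩ := exists_nat_gt (1 / (6 * (-c)))
    have hneg : 0 < -c := by linarith
    have hn0 : (0 : ℝ) < n := lt_of_le_of_lt (by positivity) hn
    rw [div_lt_iff₀ (by positivity)] at hn
    have hn1 : (1 : ℝ) ≤ n := by exact_mod_cast (by exact_mod_cast hn0 : 0 < n)
    have h1 := hp (n * ℓ) Unit Finset.univ (fun _ => 1) (fun _ => 0)
    simp only [Finset.univ_unique, Finset.sum_singleton, sub_zero, zero_add, one_mul] at h1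
    rw [zero_sub, he, hS0] at h1
    have h2 := eper' 0 le_rfl n
    rw [zero_add, e0, zero_add, hedef] at h2
    simp only at h2
    have h3 : 1 ≤ n * ℓ := by nlinarith
    rw [SG_large h3] at h2
    nlinarith
  -- symmetry
  have hsym : ∀ z, 0 ≤ z → z ≤ ℓ → k (2 * ℓ + z) = k (2 * ℓ - z) := fun z hz hz2 =>
    hPD.symm hke (by linarith) (by linarith) hkper hz hz2
  set E : ℕ → ℝ := fun i => e (2 * ℓ + i * h) - e (2 * ℓ - i * h) with hE
  have hE0 : E 0 = 0 := by rw [hE]; simp
  have hErec : ∀ i, 1 ≤ i → i < M → E (i + 1) - 2 * E i + E (i - 1) = 0 := by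
    intro i hi hiM
    have hi1 : ((i - 1 : ℕ) : ℝ) = i - 1 := by push_cast [Nat.cast_sub hi]; ring
    have hih : (i : ℝ) * h ≤ ℓ - h := by
      have : (i : ℝ) + 1 ≤ M := by exact_mod_cast hiM
      nlinarith
    have hi0 : 0 ≤ (i : ℝ) * h := by positivity
    have h1 := hsym (i * h) hi0 (by linarith)
    rw [kx _ (by linarith), kx _ (by linarith)] at h1
    rw [hE]
    simp only
    rw [hi1]
    push_cast
    rw [show 2 * ℓ + ((i : ℝ) + 1) * h = 2 * ℓ + i * h + h by ring,
      show 2 * ℓ - ((i : ℝ) + 1) * h = 2 * ℓ - i * h - h by ring,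
      show 2 * ℓ + ((i : ℝ) - 1) * h = 2 * ℓ + i * h - h by ring,
      show 2 * ℓ - ((i : ℝ) - 1) * h = 2 * ℓ - i * h + h by ring]
    linarith
  have hElin := lin_rec hE0 hErec M le_rfl
  have hEM : E M = 2 * c := by
    rw [hE]
    simp only
    rw [hMh]
    have h1 := eper' ℓ hℓ0.le 2
    rw [show 2 * ℓ + ℓ = ℓ + ((2 : ℕ) : ℝ) * ℓ by push_cast; ring,
      show 2 * ℓ - ℓ = ℓ by ring, h1]
    push_cast
    ring
  have hE1 : E 1 = 2 * c / M := by
    rw [hEM] at hElin
    rw [eq_div_iff hM0.ne']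
    linarith
  have eh : e h = 0 := by
    rw [hedef]; simp only; rw [hs h hh0.le hh1, sub_self]
  have e2 : e (2 * ℓ) = 2 * c := by
    have := eper' 0 le_rfl 2
    rw [zero_add, e0, zero_add] at this
    push_cast at this
    exact this
  have e2h : e (2 * ℓ + h) = 2 * c := by
    have := eper' h hh0.le 2
    rw [eh, zero_add] at this
    push_cast at this
    rw [add_comm]
    exact this
  have hk2 : k (2 * ℓ) = -(2 * c / M) := by
    rw [kx _ (by linarith), e2, e2h]
    have : E 1 = e (2 * ℓ + h) - e (2 * ℓ - h) := by rw [hE]; simp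
    rw [this, e2h] at hE1
    linarith
  have hkℓ : k ℓ = k (2 * ℓ) := by
    have := hkper ℓ (by linarith)
    rw [← this]
    congr 1
    ring
  have hdom : ∀ z, 0 ≤ z → |k (z + ℓ)| ≤ k ℓ := fun z hz =>
    hPD.dom hke (by linarith) (by linarith) hkper hz
  have hc : c = 0 := by
    have h1 := (abs_nonneg _).trans (hdom 0 le_rfl)
    rw [hkℓ, hk2] at h1
    have h2 : 2 * c / M ≤ 0 := by linarith
    rw [div_le_iff₀ hM0] at h2
    linarith
  have hkz : ∀ x, ℓ ≤ x → k x = 0 := by
    intro x hx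
    have h1 := hdom (x - ℓ) (by linarith)
    rw [sub_add_cancel, hkℓ, hk2, hc] at h1
    have h2 : |k x| ≤ 0 := by simpa using h1
    exact abs_nonpos_iff.1 h2
  -- the lattice
  set f : ℕ → ℝ := fun i => e (2 * ℓ + i * h) with hf
  have hf0 : f 0 = 0 := by rw [hf]; simp only; rw [Nat.cast_zero, zero_mul, add_zero, e2, hc]; ring
  have hf1 : f 1 = 0 := by rw [hf]; simp only; rw [Nat.cast_one, one_mul, e2h, hc]; ring
  have hfrec : ∀ j, 1 ≤ j → j < i + 1 → f (j + 1) - 2 * f j + f (j - 1) = 0 := by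
    intro j hj _
    have hj1 : ((j - 1 : ℕ) : ℝ) = j - 1 := by push_cast [Nat.cast_sub hj]; ring
    have hjr : (1 : ℝ) ≤ j := by exact_mod_cast hj
    have hj0 : 0 ≤ (j : ℝ) * h := by positivity
    have h1 := hkz (2 * ℓ + j * h) (by linarith)
    rw [kx _ (by linarith)] at h1
    rw [hf]
    simp only
    rw [hj1]
    push_cast
    rw [show 2 * ℓ + ((j : ℝ) + 1) * h = 2 * ℓ + j * h + h by ring,
      show 2 * ℓ + ((j : ℝ) - 1) * h = 2 * ℓ + j * h - h by ring]
    exact h1
  have hfi := lin_rec hf0 hfrec i (by omega)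
  rw [hf1, mul_zero] at hfi
  have h1 := eper' (i * h) (by positivity) 2
  have h2 : f i = e (i * h + ((2 : ℕ) : ℝ) * ℓ) := by
    rw [hf]; simp only; congr 1; push_cast; ring
  rw [← h2, hfi, hc, mul_zero, add_zero] at h1
  have h3 : S (i * h) - SG (i * h) = 0 := h1.symm
  linarith

lemma SG_cont : Continuous SG :=
  intervalIntegral.continuous_primitive (fun _ _ => mmI_cont.intervalIntegrable _ _) 0

lemma unique_S (hℓ : 0 < ℓ) (he : ∀ x, S (-x) = S x)
    (hp : ∀ h : ℝ, PD (fun x => S (x + h) - 2 * S x + S (x - h) - h ^ 2))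
    (hs : ∀ x, 0 ≤ x → x < 1 → S x = SG x)
    (hper : ∀ x, 0 ≤ x → S (x + ℓ) - SG (x + ℓ) = S x - SG x + c)
    (hm : MonotoneOn S (Set.Ici 0)) {x : ℝ} (hx : 0 ≤ x) : S x = SG x := by
  obtain ⟨J, hJ⟩ := exists_nat_gt (2 / ℓ)
  rw [div_lt_iff₀ hℓ] at hJ
  set ℓ' : ℝ := J * ℓ with hℓ'
  have hℓ'0 : 0 < ℓ' := by linarith
  have hper' : ∀ x, 0 ≤ x → S (x + ℓ') - SG (x + ℓ') = S x - SG x + J * c := by
    intro x hx
    rw [hℓ']
    clear hJ hℓ'0 hℓ'
    clear_value ℓ'
    induction J with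
    | zero => simp
    | succ n ih =>
      have e1 : x + ((n + 1 : ℕ) : ℝ) * ℓ = (x + n * ℓ) + ℓ := by push_cast; ring
      rw [e1, hper _ (by positivity), ih]
      push_cast
      ring
  by_contra hne
  have hpos : 0 < |S x - SG x| := abs_pos.2 (sub_ne_zero.2 hne)
  obtain ⟨δ, hδ, h1⟩ := Metric.continuous_iff.1 SG_cont x _ hpos
  obtain ⟨M, hM⟩ := exists_nat_gt (ℓ' + ℓ' / δ)
  have hq : 0 < ℓ' / δ := by positivity
  have hM1 : ℓ' < M := by linarith
  have hM0 : (0 : ℝ) < M := by linarith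
  have hh : ℓ' / M < δ := by
    rw [div_lt_iff₀ hM0]
    have : ℓ' / δ < M := by linarith
    rw [div_lt_iff₀ hδ] at this
    linarith
  have hh0 : 0 < ℓ' / M := by positivity
  have hlat := lattice (by linarith) he hp hs hper' hM1
  set i := ⌊x / (ℓ' / M)⌋₊ with hi
  have h2 : (i : ℝ) * (ℓ' / M) ≤ x := by
    have := Nat.floor_le (show 0 ≤ x / (ℓ' / M) by positivity)
    rwa [le_div_iff₀ hh0] at this
  have h3 : x < ((i + 1 : ℕ) : ℝ) * (ℓ' / M) := by
    have := Nat.lt_floor_add_one (x / (ℓ' / M))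
    rw [div_lt_iff₀ hh0] at this
    push_cast
    exact this
  have h4 : S (i * (ℓ' / M)) ≤ S x := hm (show (0 : ℝ) ≤ _ by positivity) hx h2
  have h5 : S x ≤ S (((i + 1 : ℕ) : ℝ) * (ℓ' / M)) := hm hx (show (0 : ℝ) ≤ _ by positivity) h3.le
  rw [hlat] at h4 h5
  have h6 : |SG (i * (ℓ' / M)) - SG x| < |S x - SG x| := by
    have := h1 (i * (ℓ' / M)) (by
      rw [Real.dist_eq, abs_lt]
      push_cast at h3
      constructor <;> linarith)
    rwa [Real.dist_eq] at this
  have h7 : |SG (((i + 1 : ℕ) : ℝ) * (ℓ' / M)) - SG x| < |S x - SG x| := by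
    have := h1 (((i + 1 : ℕ) : ℝ) * (ℓ' / M)) (by
      rw [Real.dist_eq, abs_lt]
      push_cast at h3 ⊢
      constructor <;> linarith)
    rwa [Real.dist_eq] at this
  rw [abs_lt] at h6 h7
  rcases abs_cases (S x - SG x) with h | h
  · rw [h.1] at h6 h7
    linarith [h7.2]
  · rw [h.1] at h6 h7
    linarith [h6.1]

end

/-- **one window length is enough** -/
theorem one_length (RH : RiemannHypothesis) {l : Filter ℝ} (hl : l ≤ atTop)
    [l.IsCountablyGenerated] {ℓ : ℝ} (hℓ : 0 < ℓ)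
    (hyp : ∀ b : ℝ, 0 < b → Tendsto (fun T => ∫ α in b..(b + ℓ), Fr T α) l
      (𝓝 (∫ α in b..(b + ℓ), mm α))) {x : ℝ} (hx : 0 ≤ x) :
    Tendsto (fun T => ST T x) l (𝓝 (SG x)) := by
  -- the increments
  have hinc : ∀ x : ℝ, 0 ≤ x → Tendsto (fun T => ST T (x + ℓ) - ST T ℓ - ST T x) l
      (𝓝 (SG (x + ℓ) - SG ℓ - SG x)) := by
    intro x hx
    have e1 : ∀ T, ST T (x + ℓ) - ST T ℓ - ST T x = ∫ t in (0 : ℝ)..x, ∫ α in t..(t + ℓ), Fr T α := by
      intro T
      rw [ST_sub, ST_prim]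
      have h1 : ∫ t in ℓ..(x + ℓ), MT T t = ∫ t in (0 : ℝ)..x, MT T (t + ℓ) := by
        rw [intervalIntegral.integral_comp_add_right (fun t => MT T t), zero_add]
      have hc1 : Continuous fun t => MT T (t + ℓ) := (MT_cont T).comp (continuous_add_const ℓ)
      rw [h1, ← intervalIntegral.integral_sub (hc1.intervalIntegrable _ _)
        ((MT_cont T).intervalIntegrable _ _)]
      refine intervalIntegral.integral_congr fun t _ => ?_
      show MT T (t + ℓ) - MT T t = _
      unfold MT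
      rw [intervalIntegral.integral_interval_sub_left ((Fr_cont T).intervalIntegrable _ _)
        ((Fr_cont T).intervalIntegrable _ _)]
    have e2 : SG (x + ℓ) - SG ℓ - SG x = ∫ t in (0 : ℝ)..x, ∫ α in t..(t + ℓ), mm α := by
      rw [SG_sub]
      have h1 : ∫ t in ℓ..(x + ℓ), (1 / 2 + ∫ a in (0 : ℝ)..t, mm a) =
          ∫ t in (0 : ℝ)..x, (1 / 2 + ∫ a in (0 : ℝ)..(t + ℓ), mm a) := by
        rw [intervalIntegral.integral_comp_add_right
          (fun t => (1 / 2 + ∫ a in (0 : ℝ)..t, mm a)), zero_add]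
      have h2 : SG x = ∫ t in (0 : ℝ)..x, (1 / 2 + ∫ a in (0 : ℝ)..t, mm a) := rfl
      have hc1 : Continuous fun t : ℝ => 1 / 2 + ∫ a in (0 : ℝ)..(t + ℓ), mm a :=
        mmI_cont.comp (continuous_add_const ℓ)
      rw [h1, h2, ← intervalIntegral.integral_sub (hc1.intervalIntegrable _ _)
        (mmI_cont.intervalIntegrable _ _)]
      refine intervalIntegral.integral_congr fun t _ => ?_
      show (1 / 2 + ∫ a in (0 : ℝ)..(t + ℓ), mm a) - (1 / 2 + ∫ a in (0 : ℝ)..t, mm a) = _
      rw [add_sub_add_left_eq_sub, intervalIntegral.integral_interval_sub_left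
        (mm_cont.intervalIntegrable _ _) (mm_cont.intervalIntegrable _ _)]
    simp_rw [e1]
    rw [e2]
    obtain ⟨C, hC⟩ := ST_bdd RH (x + ℓ + 1)
    refine intervalIntegral.tendsto_integral_filter_of_dominated_convergence (fun _ => C) ?_ ?_ ?_ ?_
    · filter_upwards with T
      have hc : Continuous fun t => ∫ α in t..(t + ℓ), Fr T α := by
        have h1 : (fun t => ∫ α in t..(t + ℓ), Fr T α) = fun t => MT T (t + ℓ) - MT T t := by
          funext t
          unfold MT
          rw [intervalIntegral.integral_interval_sub_left ((Fr_cont T).intervalIntegrable _ _)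
            ((Fr_cont T).intervalIntegrable _ _)]
        rw [h1]
        exact ((MT_cont T).comp (continuous_add_const ℓ)).sub (MT_cont T)
      exact hc.aestronglyMeasurable
    · filter_upwards [hl hC, hl (eventually_gt_atTop 1)] with T h1 hT
      refine Filter.Eventually.of_forall fun t ht => ?_
      rw [Set.uIoc_of_le hx] at ht
      have hm := MT_mono RH hT
      have h2 : ∫ α in t..(t + ℓ), Fr T α = MT T (t + ℓ) - MT T t := by
        unfold MT
        rw [intervalIntegral.integral_interval_sub_left ((Fr_cont T).intervalIntegrable _ _)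
          ((Fr_cont T).intervalIntegrable _ _)]
      have h3 : 0 ≤ MT T t := by
        have := hm ht.1.le
        have e0 : MT T 0 = 0 := by unfold MT; simp
        linarith
      have h4 : 0 ≤ MT T (t + ℓ) - MT T t := by
        have := hm (show t ≤ t + ℓ by linarith)
        linarith
      rw [h2, Real.norm_eq_abs, abs_of_nonneg h4]
      have h5 : MT T (x + ℓ) ≤ ST T (x + ℓ + 1) - ST T (x + ℓ) := by
        rw [ST_sub]
        have e : MT T (x + ℓ) = ∫ t in (x + ℓ)..(x + ℓ + 1), MT T (x + ℓ) := by simp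
        rw [e]
        exact intervalIntegral.integral_mono_on (by linarith) (by simp)
          ((MT_cont T).intervalIntegrable _ _) fun t ht => hm ht.1
      have h6 := ST_nonneg hT (x + ℓ)
      have h7 := hm (show t + ℓ ≤ x + ℓ by linarith [ht.2])
      linarith
    · simp
    · refine Filter.Eventually.of_forall fun t ht => ?_
      rw [Set.uIoc_of_le hx] at ht
      exact hyp t ht.1
  rw [tendsto_iff_ultrafilter]
  intro g hg
  have hgT : (g : Filter ℝ) ≤ atTop := hg.trans hl
  have hex : ∀ y : ℝ, ∃ z : ℝ, Tendsto (fun T => ST T y) g (𝓝 z) := by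
    intro y
    obtain ⟨C, hC⟩ := ST_bdd RH y
    have h1 : ∀ᶠ T in (g : Filter ℝ), ST T y ∈ Set.Icc (0 : ℝ) C := by
      filter_upwards [hgT hC, hgT (eventually_gt_atTop 1)] with T h2 hT
      exact ⟨ST_nonneg hT y, h2⟩
    obtain ⟨z, -, hz⟩ := isCompact_Icc.ultrafilter_le_nhds (g.map fun T => ST T y)
      (by rw [Filter.le_principal_iff]; exact h1)
    exact ⟨z, hz⟩
  choose S hS using hex
  have hSe : ∀ y, S (-y) = S y := fun y =>
    tendsto_nhds_unique ((hS (-y)).congr fun T => ST_even T y) (hS y)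
  have hSp : ∀ h : ℝ, PD (fun x => S (x + h) - 2 * S x + S (x - h) - h ^ 2) := by
    intro h ι I c y
    have hlim : Tendsto (fun T => ∑ i ∈ I, ∑ j ∈ I, c i * c j *
        (ST T (y i - y j + h) - 2 * ST T (y i - y j) + ST T (y i - y j - h))) g
        (𝓝 (∑ i ∈ I, ∑ j ∈ I, c i * c j *
        (S (y i - y j + h) - 2 * S (y i - y j) + S (y i - y j - h)))) := by
      refine tendsto_finsetSum _ fun i _ => tendsto_finsetSum _ fun j _ => ?_
      exact (((hS _).sub ((hS _).const_mul 2)).add (hS _)).const_mul _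
    have h1 : h ^ 2 * (∑ i ∈ I, c i) ^ 2 ≤ ∑ i ∈ I, ∑ j ∈ I, c i * c j *
        (S (y i - y j + h) - 2 * S (y i - y j) + S (y i - y j - h)) := by
      refine le_of_forall_pos_le_add fun ε hε => ?_
      set Q := h ^ 2 * (∑ i ∈ I, c i) ^ 2 with hQ
      have hQ0 : 0 ≤ Q := by positivity
      have h2 : Q - ε ≤ ∑ i ∈ I, ∑ j ∈ I, c i * c j *
          (S (y i - y j + h) - 2 * S (y i - y j) + S (y i - y j - h)) := by
        refine ge_of_tendsto hlim ?_
        filter_upwards [hgT (Aa_diag (ε := ε / (Q + 1)) (by positivity)),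
          hgT (eventually_gt_atTop 1)] with T h3 hT
        refine le_trans ?_ (ST_psd hT I c y h)
        have h4 : (1 - ε / (Q + 1)) * Q ≤ Aa T 0 * Q := mul_le_mul_of_nonneg_right h3 hQ0
        have h5 : ε / (Q + 1) * Q ≤ ε := by
          rw [div_mul_eq_mul_div, div_le_iff₀ (by positivity)]
          nlinarith
        calc Q - ε ≤ (1 - ε / (Q + 1)) * Q := by linarith
          _ ≤ Aa T 0 * Q := h4
          _ = h ^ 2 * Aa T 0 * (∑ i ∈ I, c i) ^ 2 := by rw [hQ]; ring
      linarith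
    have e : ∑ i ∈ I, ∑ j ∈ I, c i * c j *
        ((fun x => S (x + h) - 2 * S x + S (x - h) - h ^ 2) (y i - y j)) =
        (∑ i ∈ I, ∑ j ∈ I, c i * c j *
        (S (y i - y j + h) - 2 * S (y i - y j) + S (y i - y j - h))) -
        h ^ 2 * (∑ i ∈ I, c i) ^ 2 := by
      rw [sq (∑ i ∈ I, c i), Finset.sum_mul_sum, Finset.mul_sum, ← Finset.sum_sub_distrib]
      refine Finset.sum_congr rfl fun i _ => ?_
      rw [Finset.mul_sum, ← Finset.sum_sub_distrib]
      refine Finset.sum_congr rfl fun j _ => ?_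
      simp only
      ring
    rw [e]
    linarith
  have hSs : ∀ x, 0 ≤ x → x < 1 → S x = SG x := fun x hx hx1 =>
    tendsto_nhds_unique (hS x) ((ST_lim RH hx hx1).mono_left hgT)
  have hSper : ∀ x, 0 ≤ x → S (x + ℓ) - SG (x + ℓ) = S x - SG x + (S ℓ - SG ℓ) := by
    intro x hx
    have h1 := tendsto_nhds_unique (((hS (x + ℓ)).sub (hS ℓ)).sub (hS x))
      ((hinc x hx).mono_left hg)
    linarith
  have hSm : MonotoneOn S (Set.Ici 0) := by
    intro y hy z _ hyz
    refine le_of_tendsto_of_tendsto (hS y) (hS z) ?_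
    filter_upwards [hgT (eventually_gt_atTop 1)] with T hT
    have h1 : 0 ≤ ST T z - ST T y := by
      rw [ST_sub]
      refine intervalIntegral.integral_nonneg hyz fun t ht => ?_
      have := MT_mono RH hT (show (0 : ℝ) ≤ t from le_trans hy ht.1)
      have e0 : MT T 0 = 0 := by unfold MT; simp
      linarith
    linarith
  have := unique_S hℓ hSe hSp hSs hSper hSm hx
  rw [← this]
  exact hS x

end Pool.Agent.J4H67.OS
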