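import Pool.Agent.Y744.PCR.Fin
import Pool.Agent.J4H67.OS.H4

/-! Division of odd smooth functions by the variable, and the test functions `x ct K x`. -/

open MeasureTheory Filter Topology Real Set
open scoped ContDiff

namespace Pool.Agent.J4H67.OS

open Pool.Agent.Y744

/-- parametric integral -/
noncomputable def GI (f : ℝ → ℝ) (k : ℕ) (α : ℝ) : ℝ := ∫ s in (0 : ℝ)..1, s ^ k * f (s * α)

lemma GI_deriv {f : ℝ → ℝ} (hf : ContDiff ℝ ∞ f) (k : ℕ) (α : ℝ) :
    HasDerivAt (GI f k) (GI (deriv f) (k + 1) α) α := by
  have hf1 : Differentiable ℝ f := hf.differentiable (by simp)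
  have hd : Continuous (deriv f) := (contDiff_infty_iff_deriv.1 hf).2.continuous
  have hc := hf.continuous
  obtain ⟨M, hM⟩ := (isCompact_Icc (a := -(|α| + 1)) (b := |α| + 1)).exists_bound_of_continuousOn
    hd.continuousOn
  have h := intervalIntegral.hasDerivAt_integral_of_dominated_loc_of_deriv_le
    (μ := volume) (F := fun x s => s ^ k * f (s * x)) (F' := fun x s => s ^ (k + 1) * deriv f (s * x))
    (x₀ := α) (a := 0) (b := 1) (s := Metric.ball α 1) (bound := fun _ => M)
    (Metric.ball_mem_nhds α one_pos) ?_ ?_ ?_ ?_ ?_ ?_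
  · exact h.2
  · refine Filter.Eventually.of_forall fun x => ?_
    exact (by fun_prop : Continuous fun s : ℝ => s ^ k * f (s * x)).aestronglyMeasurable
  · exact (by fun_prop : Continuous fun s : ℝ => s ^ k * f (s * α)).intervalIntegrable _ _
  · exact (by fun_prop : Continuous fun s : ℝ => s ^ (k + 1) * deriv f (s * α)).aestronglyMeasurable
  · refine Filter.Eventually.of_forall fun s hs x hx => ?_
    rw [Set.uIoc_of_le zero_le_one] at hs
    rw [Metric.mem_ball, Real.dist_eq] at hx
    have h1 : |s * x| ≤ |α| + 1 := by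
      rw [abs_mul, abs_of_pos hs.1]
      have h2 : |x| ≤ |α| + 1 := by
        have := abs_sub_abs_le_abs_sub x α
        linarith
      calc s * |x| ≤ 1 * |x| := by
            have := abs_nonneg x
            have := hs.2
            gcongr
        _ ≤ _ := by linarith
    have h3 := hM (s * x) (abs_le.1 h1)
    have h4 : s ^ (k + 1) ≤ 1 := pow_le_one₀ hs.1.le hs.2
    have h5 : 0 ≤ s ^ (k + 1) := pow_nonneg hs.1.le _
    rw [norm_mul, Real.norm_eq_abs (s ^ (k + 1)), abs_of_nonneg h5]
    calc s ^ (k + 1) * ‖deriv f (s * x)‖ ≤ 1 * ‖deriv f (s * x)‖ := by gcongr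
      _ ≤ M := by rw [one_mul]; exact h3
  · simp
  · refine Filter.Eventually.of_forall fun s hs x hx => ?_
    have h1 : HasDerivAt (fun x => s * x) s x := by
      simpa using (hasDerivAt_id x).const_mul s
    have h2 := ((hf1 (s * x)).hasDerivAt.comp x h1).const_mul (s ^ k)
    have e : s ^ k * (deriv f (s * x) * s) = s ^ (k + 1) * deriv f (s * x) := by ring
    rw [e] at h2
    exact h2

lemma GI_smooth : ∀ (n : ℕ) {f : ℝ → ℝ}, ContDiff ℝ ∞ f → ∀ k : ℕ, ContDiff ℝ n (GI f k) := by
  intro n
  induction n with
  | zero =>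
    intro f hf k
    have : Continuous (GI f k) := continuous_iff_continuousAt.2 fun α => (GI_deriv hf k α).continuousAt
    exact_mod_cast contDiff_zero.2 this
  | succ n ih =>
    intro f hf k
    have hdiff : Differentiable ℝ (GI f k) := fun α => (GI_deriv hf k α).differentiableAt
    have hd : deriv (GI f k) = GI (deriv f) (k + 1) := funext fun α => (GI_deriv hf k α).deriv
    have h1 := ih (contDiff_infty_iff_deriv.1 hf).2 (k + 1)
    push_cast
    rw [contDiff_succ_iff_deriv]
    refine ⟨hdiff, by simp, ?_⟩
    rw [hd]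
    exact h1

lemma GI_smooth' {f : ℝ → ℝ} (hf : ContDiff ℝ ∞ f) (k : ℕ) : ContDiff ℝ ∞ (GI f k) :=
  contDiff_infty.2 fun n => GI_smooth n hf k

/-- Hadamard's lemma -/
lemma GI_mul {f : ℝ → ℝ} (hf : ContDiff ℝ ∞ f) (h0 : f 0 = 0) (α : ℝ) :
    f α = α * GI (deriv f) 0 α := by
  have hf1 : Differentiable ℝ f := hf.differentiable (by simp)
  have hd : Continuous (deriv f) := (contDiff_infty_iff_deriv.1 hf).2.continuous
  unfold GI
  rw [← intervalIntegral.integral_const_mul]
  have h : ∫ s in (0 : ℝ)..1, α * (s ^ 0 * deriv f (s * α)) = f (1 * α) - f (0 * α) := by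
    refine intervalIntegral.integral_eq_sub_of_hasDerivAt (f := fun s => f (s * α)) (fun s _ => ?_) ?_
    · have h1 : HasDerivAt (fun s => s * α) α s := by
        simpa using (hasDerivAt_id s).mul_const α
      have h2 := (hf1 (s * α)).hasDerivAt.comp s h1
      have e : deriv f (s * α) * α = α * (s ^ 0 * deriv f (s * α)) := by ring
      rw [e] at h2
      exact h2
    · exact (by fun_prop : Continuous fun s : ℝ => α * (s ^ 0 * deriv f (s * α))).intervalIntegrable _ _
  rw [h, one_mul, zero_mul, h0, sub_zero]

/-- the operation `K ↦ - K' / (4 π² α)` -/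
noncomputable def Dv (K : ℝ → ℝ) (α : ℝ) : ℝ := -GI (deriv (deriv K)) 0 α / (4 * π ^ 2)

section

variable {κ : ℝ} {K : ℝ → ℝ}

lemma deriv_odd (h : TK κ K) (x : ℝ) : deriv K (-x) = -deriv K x := by
  have h1 : (fun x => K (-x)) = K := funext h.even
  have h3 := deriv_comp_neg K x
  rw [h1] at h3
  rw [h3, neg_neg]

lemma deriv_zero_of (h : TK κ K) : deriv K 0 = 0 := by
  have := deriv_odd h 0
  rw [neg_zero] at this
  linarith

lemma Dv_mul (h : TK κ K) (α : ℝ) : α * Dv K α = -deriv K α / (4 * π ^ 2) := by
  have h1 := GI_mul (contDiff_infty_iff_deriv.1 h.smooth).2 (deriv_zero_of h) α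
  rw [h1]
  unfold Dv
  ring

lemma Dv_TK (hκ : 0 < κ) (h : TK κ K) : TK κ (Dv K) where
  smooth := by
    unfold Dv
    exact (GI_smooth' (TK.deriv_smooth (TK.deriv_smooth h.smooth)) 0).neg.div_const _
  even := by
    intro x
    unfold Dv
    congr 2
    unfold GI
    refine intervalIntegral.integral_congr fun s _ => ?_
    show s ^ 0 * deriv (deriv K) (s * -x) = s ^ 0 * deriv (deriv K) (s * x)
    have h5 : (fun x => deriv K (-x)) = fun x => -deriv K x := funext fun x => deriv_odd h x
    have h6 := deriv_comp_neg (deriv K) (s * x)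
    rw [h5] at h6
    rw [deriv.fun_neg] at h6
    rw [mul_neg]
    congr 1
    linarith
  supp := by
    intro x hx
    have hx0 : x ≠ 0 := by
      rintro rfl
      rw [abs_zero] at hx
      linarith
    have h1 := Dv_mul h x
    rw [TK.deriv_supp h.supp x hx, neg_zero, zero_div] at h1
    exact (mul_eq_zero.1 h1).resolve_left hx0

/-- the derivative of the transform -/
lemma ct_Dv_deriv (hκ : 0 < κ) (h : TK κ K) (y : ℝ) :
    HasDerivAt (ct (Dv K)) (-(y * ct K y)) y := by
  have hD := Dv_TK hκ h
  have hDc := hD.cont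
  have hpi := Real.pi_pos
  -- the derivative under the integral
  have h1 := hasDerivAt_integral_of_dominated_loc_of_deriv_le (μ := volume)
    (F := fun x α => Dv K α * Real.cos (2 * π * x * α))
    (F' := fun x α => Dv K α * (-Real.sin (2 * π * x * α) * (2 * π * α)))
    (x₀ := y) (s := Metric.ball y 1) (bound := fun α => |Dv K α * (2 * π * α)|)
    (Metric.ball_mem_nhds y one_pos) ?_ ?_ ?_ ?_ ?_ ?_
  · have h2 := h1.2
    have e : ∫ α, Dv K α * (-Real.sin (2 * π * y * α) * (2 * π * α)) = -(y * ct K y) := by
      have hk1 : Continuous (deriv K) := (contDiff_infty_iff_deriv.1 h.smooth).2.continuous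
      have hc1 : HasCompactSupport (deriv K) := h.hcs.deriv
      have e1 : ∫ α, Dv K α * (-Real.sin (2 * π * y * α) * (2 * π * α)) =
          ∫ α, deriv K α * (Real.sin (2 * π * y * α) / (2 * π)) := by
        refine integral_congr_ae (Filter.Eventually.of_forall fun α => ?_)
        show Dv K α * (-Real.sin (2 * π * y * α) * (2 * π * α)) =
          deriv K α * (Real.sin (2 * π * y * α) / (2 * π))
        have h3 := Dv_mul h α
        have h4 : deriv K α = -(4 * π ^ 2) * (α * Dv K α) := by
          rw [h3]
          field_simp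
        rw [h4]
        field_simp
        ring
      rw [e1]
      have e2 := integral_mul_deriv_eq_deriv_mul_of_integrable (u := K) (u' := deriv K)
        (v := fun α => Real.sin (2 * π * y * α) / (2 * π))
        (v' := fun α => y * Real.cos (2 * π * y * α))
        (fun α _ => (h.smooth.differentiable (by simp) α).hasDerivAt) (fun α _ => ?_)
        (h.mul_int (by fun_prop)) ((hk1.mul (by fun_prop)).integrable_of_hasCompactSupport hc1.mul_right)
        (h.mul_int (by fun_prop))
      · have e3 : ∫ α, deriv K α * (Real.sin (2 * π * y * α) / (2 * π)) =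
            -∫ α, K α * (y * Real.cos (2 * π * y * α)) := by
          rw [e2, neg_neg]
        rw [e3]
        congr 1
        unfold ct
        rw [← integral_const_mul]
        refine integral_congr_ae (Filter.Eventually.of_forall fun α => ?_)
        show K α * (y * Real.cos (2 * π * y * α)) = y * (K α * Real.cos (2 * π * y * α))
        ring
      · have h5 : HasDerivAt (fun α : ℝ => 2 * π * y * α) (2 * π * y) α := by
          simpa using (hasDerivAt_id α).const_mul (2 * π * y)
        have h6 := h5.sin.div_const (2 * π)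
        have e4 : Real.cos (2 * π * y * α) * (2 * π * y) / (2 * π) = y * Real.cos (2 * π * y * α) := by
          field_simp
        rw [e4] at h6
        exact h6
    rw [e] at h2
    exact h2
  · exact Filter.Eventually.of_forall fun x => (hD.mul_int (by fun_prop)).aestronglyMeasurable
  · exact hD.mul_int (by fun_prop)
  · exact (hD.mul_int (f := fun α => -Real.sin (2 * π * y * α) * (2 * π * α))
      (by fun_prop)).aestronglyMeasurable
  · refine Filter.Eventually.of_forall fun α x _ => ?_
    rw [Real.norm_eq_abs, abs_mul, abs_mul, abs_mul (Dv K α), abs_neg]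
    have h1 := Real.abs_sin_le_one (2 * π * x * α)
    have h2 := abs_nonneg (Dv K α)
    have h3 := abs_nonneg (2 * π * α)
    calc |Dv K α| * (|Real.sin (2 * π * x * α)| * |2 * π * α|) ≤ |Dv K α| * (1 * |2 * π * α|) := by
          gcongr
      _ = _ := by rw [one_mul]
  · exact (hD.mul_int (f := fun α => 2 * π * α) (by fun_prop)).abs
  · refine Filter.Eventually.of_forall fun α x _ => ?_
    have h5 : HasDerivAt (fun x : ℝ => 2 * π * x * α) (2 * π * α) x := by
      have := ((hasDerivAt_id x).const_mul (2 * π)).mul_const α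
      simpa using this
    exact h5.cos.const_mul _

end

end Pool.Agent.J4H67.OS
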