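import Pool.Agent.J4H67.OS.R1

/-! One-sided bounds far out are enough. -/

open MeasureTheory Filter Topology Real Set
open scoped ContDiff

namespace Pool.Agent.J4H67.OS

open Pool.Agent.Y744

section

variable {κ : ℝ} {K : ℝ → ℝ} {g : ℝ → ℝ} {B : ℝ}

lemma test_int1 (hK : TK κ K) (hg : Measurable g) (hB : ∀ x, |g x| ≤ B * (1 + x ^ 2)) :
    Integrable fun y => g y * (y * ct K y) := by
  obtain ⟨D, hD0, hD⟩ := hK.decay 3
  have hB0 : 0 ≤ B := by
    have := (abs_nonneg _).trans (hB 0)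
    simpa using this
  refine (integrable_inv_one_add_sq.const_mul (B * D)).mono'
    (hg.mul (measurable_id.mul hK.ct_cont.measurable)).aestronglyMeasurable
    (Filter.Eventually.of_forall fun y => ?_)
  rw [Real.norm_eq_abs, abs_mul, abs_mul]
  have h1 : 0 < 1 + y ^ 2 := by positivity
  have h2 : |y| ≤ 1 + y ^ 2 := by
    rw [abs_le]; constructor <;> nlinarith [sq_nonneg (y - 1), sq_nonneg (y + 1)]
  calc |g y| * (|y| * |ct K y|) ≤ (B * (1 + y ^ 2)) * ((1 + y ^ 2) * (D / (1 + y ^ 2) ^ 3)) := by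
        gcongr
        · exact hB y
        · exact hD y
    _ = B * D * (1 + y ^ 2)⁻¹ := by field_simp

lemma ct_Dv_diff (hκ : 0 < κ) (hK : TK κ K) : ∃ D : ℝ, 0 ≤ D ∧ ∀ h : ℝ, 0 < h → h ≤ 1 → ∀ y : ℝ,
    |ct (Dv K) (y + h) - ct (Dv K) (y - h)| ≤ h * (D / (1 + y ^ 2) ^ 2) := by
  obtain ⟨D, hD0, hD⟩ := hK.decay 3
  refine ⟨32 * D, by positivity, fun h hh hh1 y => ?_⟩
  have hcont : Continuous fun u => -(u * ct K u) := (continuous_id.mul hK.ct_cont).neg
  have e : ∫ u in (y - h)..(y + h), -(u * ct K u) = ct (Dv K) (y + h) - ct (Dv K) (y - h) :=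
    intervalIntegral.integral_eq_sub_of_hasDerivAt (fun u _ => ct_Dv_deriv hκ hK u)
      (hcont.intervalIntegrable _ _)
  rw [← e, ← Real.norm_eq_abs]
  have h1 : ‖∫ u in (y - h)..(y + h), -(u * ct K u)‖ ≤ (16 * D / (1 + y ^ 2) ^ 2) *
      |(y + h) - (y - h)| := by
    refine intervalIntegral.norm_integral_le_of_norm_le_const fun u hu => ?_
    rw [Set.uIoc_of_le (by linarith)] at hu
    rw [norm_neg, Real.norm_eq_abs, abs_mul]
    have h2 : |u| ≤ 1 + u ^ 2 := by
      rw [abs_le]; constructor <;> nlinarith [sq_nonneg (u - 1), sq_nonneg (u + 1)]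
    have h3 : 0 < 1 + u ^ 2 := by positivity
    have h4 : 1 + y ^ 2 ≤ 4 * (1 + u ^ 2) := by
      have h5 : (y - u) ^ 2 ≤ 1 := by
        have : |y - u| ≤ 1 := by rw [abs_le]; constructor <;> linarith [hu.1, hu.2]
        rw [← sq_abs]
        nlinarith [abs_nonneg (y - u)]
      nlinarith [sq_nonneg (y - 2 * u), sq_nonneg (2 * u - y)]
    have h6 : (1 + y ^ 2) ^ 2 ≤ 16 * (1 + u ^ 2) ^ 2 := by
      calc (1 + y ^ 2) ^ 2 ≤ (4 * (1 + u ^ 2)) ^ 2 := by gcongr
        _ = _ := by ring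
    calc |u| * |ct K u| ≤ (1 + u ^ 2) * (D / (1 + u ^ 2) ^ 3) := by
          gcongr
          exact hD u
      _ = D / (1 + u ^ 2) ^ 2 := by field_simp
      _ ≤ 16 * D / (1 + y ^ 2) ^ 2 := by
          rw [div_le_div_iff₀ (by positivity) (by positivity)]
          nlinarith
  refine h1.trans (le_of_eq ?_)
  rw [show (y + h) - (y - h) = 2 * h by ring, abs_of_pos (by linarith)]
  ring

lemma sym_lim (hκ : 0 < κ) (hK : TK κ K) (hg : Measurable g)
    (hB : ∀ x, |g x| ≤ B * (1 + x ^ 2)) :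
    Tendsto (fun n : ℕ => (1 / ((n : ℝ) + 1))⁻¹ * ∫ y, g y *
      (ct (Dv K) (y + 1 / ((n : ℝ) + 1)) - ct (Dv K) (y - 1 / ((n : ℝ) + 1)))) atTop
      (𝓝 (∫ y, g y * (-2 * (y * ct K y)))) := by
  obtain ⟨D, hD0, hD⟩ := ct_Dv_diff hκ hK
  have hB0 : 0 ≤ B := by
    have := (abs_nonneg _).trans (hB 0)
    simpa using this
  have hDc := (Dv_TK hκ hK).ct_cont
  have hn : ∀ n : ℕ, 0 < 1 / ((n : ℝ) + 1) ∧ 1 / ((n : ℝ) + 1) ≤ 1 := fun n => by
    constructor
    · positivity
    · rw [div_le_one (by positivity)]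
      have : (0 : ℝ) ≤ n := Nat.cast_nonneg n
      linarith
  simp_rw [← integral_const_mul]
  refine tendsto_integral_of_dominated_convergence (fun y => B * D * (1 + y ^ 2)⁻¹) (fun n => ?_)
    (integrable_inv_one_add_sq.const_mul _) (fun n => ?_) ?_
  · refine Measurable.aestronglyMeasurable ?_
    refine measurable_const.mul (hg.mul ?_)
    exact (hDc.measurable.comp (by fun_prop)).sub (hDc.measurable.comp (by fun_prop))
  · refine Filter.Eventually.of_forall fun y => ?_
    obtain ⟨h1, h2⟩ := hn n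
    rw [Real.norm_eq_abs, abs_mul, abs_mul, abs_of_pos (inv_pos.2 h1)]
    have h3 : 0 < 1 + y ^ 2 := by positivity
    calc (1 / ((n : ℝ) + 1))⁻¹ * (|g y| * |ct (Dv K) (y + 1 / ((n : ℝ) + 1)) -
          ct (Dv K) (y - 1 / ((n : ℝ) + 1))|) ≤
          (1 / ((n : ℝ) + 1))⁻¹ * ((B * (1 + y ^ 2)) *
            (1 / ((n : ℝ) + 1) * (D / (1 + y ^ 2) ^ 2))) := by
            have := hD _ h1 h2 y
            have := hB y
            have := (inv_pos.2 h1).le
            gcongr
      _ = B * D * (1 + y ^ 2)⁻¹ := by field_simp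
  · refine Filter.Eventually.of_forall fun y => ?_
    have h1 : HasDerivAt (fun h : ℝ => ct (Dv K) (y + h) - ct (Dv K) (y - h))
        (-2 * (y * ct K y)) 0 := by
      have a1 : HasDerivAt (fun h : ℝ => y + h) 1 0 := by
        simpa using (hasDerivAt_id (0 : ℝ)).const_add y
      have a2 : HasDerivAt (fun h : ℝ => y - h) (-1) 0 := by
        simpa using (hasDerivAt_id (0 : ℝ)).const_sub y
      have b1 := ct_Dv_deriv hκ hK (y + 0)
      have b2 := ct_Dv_deriv hκ hK (y - 0)
      have c1 := b1.comp (0 : ℝ) a1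
      have c2 := b2.comp (0 : ℝ) a2
      have c3 := c1.sub c2
      simp only [add_zero, sub_zero] at c3
      have e : -(y * ct K y) * 1 - -(y * ct K y) * -1 = -2 * (y * ct K y) := by ring
      rw [e] at c3
      exact c3
    have h2 := hasDerivAt_iff_tendsto_slope_zero.1 h1
    simp only [zero_add, add_zero, sub_zero, sub_self, smul_eq_mul] at h2
    have h3 : Tendsto (fun n : ℕ => 1 / ((n : ℝ) + 1)) atTop (𝓝[≠] 0) := by
      rw [tendsto_nhdsWithin_iff]
      exact ⟨tendsto_one_div_add_atTop_nhds_zero_nat, Filter.Eventually.of_forall fun n =>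
        (hn n).1.ne'⟩
    have h4 := (h2.comp h3).const_mul (g y)
    refine h4.congr fun n => ?_
    simp only [Function.comp_apply]
    ring

/-- the moments with the test functions `y ct K y` -/
lemma x_test {A' : ℝ → ℝ} {C0 : ℝ} (hκ : 0 < κ) (hA' : Monotone A')
    (hb : ∀ y, |A' y| ≤ C0 * (1 + y ^ 2))
    (hm : ∀ K, TK κ K → ∀ h, 0 < h →
      ∫ y, A' y * (ct K (y + h) - ct K (y - h)) = ∫ y, AG y * (ct K (y + h) - ct K (y - h)))
    (hK : TK κ K) : ∫ y, A' y * (y * ct K y) = ∫ y, AG y * (y * ct K y) := by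
  have h1 := sym_lim hκ hK hA'.measurable hb
  have h2 := sym_lim hκ hK AG_meas AG_bound
  have h3 : ∀ n : ℕ, (1 / ((n : ℝ) + 1))⁻¹ * ∫ y, A' y *
      (ct (Dv K) (y + 1 / ((n : ℝ) + 1)) - ct (Dv K) (y - 1 / ((n : ℝ) + 1))) =
      (1 / ((n : ℝ) + 1))⁻¹ * ∫ y, AG y *
      (ct (Dv K) (y + 1 / ((n : ℝ) + 1)) - ct (Dv K) (y - 1 / ((n : ℝ) + 1))) := by
    intro n
    rw [hm _ (Dv_TK hκ hK) _ (by positivity)]
  have h4 := tendsto_nhds_unique (h1.congr h3) h2
  have e : ∀ g : ℝ → ℝ, ∫ y, g y * (-2 * (y * ct K y)) = -2 * ∫ y, g y * (y * ct K y) := by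
    intro g
    rw [← integral_const_mul]
    refine integral_congr_ae (Filter.Eventually.of_forall fun y => ?_)
    show g y * (-2 * (y * ct K y)) = -2 * (g y * (y * ct K y))
    ring
  rw [e, e] at h4
  linarith

/-- `x ↦ x E x` annihilates the band-limited functions -/
lemma x_annih {A' : ℝ → ℝ} {C0 : ℝ} (hκ : 0 < κ) (hA' : Monotone A')
    (hb : ∀ y, |A' y| ≤ C0 * (1 + y ^ 2))
    (hm : ∀ K, TK κ K → ∀ h, 0 < h →
      ∫ y, A' y * (ct K (y + h) - ct K (y - h)) = ∫ y, AG y * (ct K (y + h) - ct K (y - h)))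
    (hK : TK κ K) : ∫ y, (y * dE A' y) * ct K y = 0 := by
  have h1 := x_test hκ hA' hb hm hK
  have iA := test_int1 hK hA'.measurable hb
  have iG := test_int1 hK AG_meas AG_bound
  have iD : Integrable fun y => (A' y - AG y) * (y * ct K y) := by
    refine (iA.sub iG).congr (Filter.Eventually.of_forall fun y => ?_)
    show A' y * (y * ct K y) - AG y * (y * ct K y) = (A' y - AG y) * (y * ct K y)
    ring
  have d0 : ∫ y, (A' y - AG y) * (y * ct K y) = 0 := by
    have : ∫ y, (A' y - AG y) * (y * ct K y) = (∫ y, A' y * (y * ct K y)) -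
        ∫ y, AG y * (y * ct K y) := by
      rw [← integral_sub iA iG]
      refine integral_congr_ae (Filter.Eventually.of_forall fun y => ?_)
      show (A' y - AG y) * (y * ct K y) = A' y * (y * ct K y) - AG y * (y * ct K y)
      ring
    rw [this, h1, sub_self]
  have iD1 : Integrable fun y => (A' (-y) - AG (-y)) * (y * ct K y) := by
    refine iD.comp_neg.neg.congr (Filter.Eventually.of_forall fun y => ?_)
    show -((A' (-y) - AG (-y)) * (-y * ct K (-y))) = (A' (-y) - AG (-y)) * (y * ct K y)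
    rw [TK.ct_neg]
    ring
  have d1 : ∫ y, (A' (-y) - AG (-y)) * (y * ct K y) = 0 := by
    have h1 : ∫ y, (A' (-y) - AG (-y)) * (y * ct K y) =
        ∫ y, -((A' (-y) - AG (-y)) * (-y * ct K (-y))) := by
      refine integral_congr_ae (Filter.Eventually.of_forall fun y => ?_)
      show (A' (-y) - AG (-y)) * (y * ct K y) = -((A' (-y) - AG (-y)) * (-y * ct K (-y)))
      rw [TK.ct_neg]
      ring
    rw [h1, integral_neg, integral_neg_eq_self (fun y => (A' y - AG y) * (y * ct K y)) volume, d0,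
      neg_zero]
  have e3 : ∫ y, (y * dE A' y) * ct K y =
      (∫ y, (A' y - AG y) * (y * ct K y)) - ∫ y, (A' (-y) - AG (-y)) * (y * ct K y) := by
    rw [← integral_sub iD iD1]
    refine integral_congr_ae (Filter.Eventually.of_forall fun y => ?_)
    show (y * dE A' y) * ct K y =
      (A' y - AG y) * (y * ct K y) - (A' (-y) - AG (-y)) * (y * ct K y)
    unfold dE
    ring
  rw [e3, d0, d1, sub_zero]

end

/-- one sided exponentially small errors far out: the discrepancy of a limit vanishes -/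
lemma far_zero {A' : ℝ → ℝ} {C0 C1 κ : ℝ} (hκ : 0 < κ) (hA' : Monotone A')
    (hneg : ∀ y, y < 0 → A' y = 0) (hb : ∀ y, |A' y| ≤ C0 * (1 + y ^ 2))
    (hlin : ∀ y, 0 ≤ y → A' y ≤ C1 * (1 + y)) (hC1 : 0 ≤ C1)
    (hm : ∀ K, TK κ K → ∀ h, 0 < h →
      ∫ y, A' y * (ct K (y + h) - ct K (y - h)) = ∫ y, AG y * (ct K (y + h) - ct K (y - h)))
    {s C c a0 : ℝ} (hs : s = 1 ∨ s = -1) (hC : 0 ≤ C) (hc : 0 < c) (ha0 : 0 < a0)
    (hyp : ∀ a, a0 ≤ a → -(C * Real.exp (-(c * a))) ≤ s * (A' a - AG a)) :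
    ∀ᵐ x, dE A' x = 0 := by
  have hEm := dE_meas hA'
  set H : ℝ → ℝ := fun y => s * (y * dE A' y) with hH
  have hs1 : |s| = 1 := by rcases hs with rfl | rfl <;> simp
  have hHm : Measurable H := measurable_const.mul (measurable_id.mul hEm)
  have hHe : ∀ y, H (-y) = H y := by
    intro y
    simp only [hH]
    rw [dE_odd]
    ring
  set B : ℝ := 4 * (C1 + 2) with hB
  have hB0 : 0 ≤ B := by rw [hB]; positivity
  have hEpos : ∀ y, 0 < y → |dE A' y| ≤ (C1 + 2) * (1 + y) := by
    intro y hy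
    rw [dE_pos hneg hy]
    have h1 := hlin y hy.le
    have h2 : 0 ≤ A' y := by
      have := hA' (show -1 ≤ y by linarith)
      rwa [hneg (-1) (by norm_num)] at this
    have h3 : AG y = 1 + 2 * gp y := by
      unfold AG
      rw [if_neg (by linarith)]
    have h4 := gp_nonneg hy.le
    have h5 := gp_le hy.le
    rw [h3, abs_le]
    have h6 : 0 ≤ C1 * (1 + y) := by positivity
    constructor <;> nlinarith
  have hHb : ∀ y, |H y| ≤ B * (1 + y ^ 2) := by
    intro y
    simp only [hH]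
    rw [abs_mul, hs1, one_mul, abs_mul]
    rcases lt_trichotomy y 0 with hy | rfl | hy
    · have h1 := hEpos (-y) (by linarith)
      rw [dE_odd, abs_neg] at h1
      rw [abs_of_neg hy]
      have h2 : 0 ≤ C1 + 2 := by linarith
      have h3 : -y * |dE A' y| ≤ -y * ((C1 + 2) * (1 + -y)) :=
        mul_le_mul_of_nonneg_left h1 (by linarith)
      refine h3.trans ?_
      rw [hB]
      have h4 : -y * (1 + -y) ≤ 4 * (1 + y ^ 2) := by nlinarith [sq_nonneg (y + 1)]
      nlinarith
    · rw [abs_zero, zero_mul]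
      positivity
    · have h1 := hEpos y hy
      rw [abs_of_pos hy]
      have h2 : 0 ≤ C1 + 2 := by linarith
      have h3 : y * |dE A' y| ≤ y * ((C1 + 2) * (1 + y)) := mul_le_mul_of_nonneg_left h1 hy.le
      refine h3.trans ?_
      rw [hB]
      have h4 : y * (1 + y) ≤ 4 * (1 + y ^ 2) := by nlinarith [sq_nonneg (y - 1)]
      nlinarith
  set c2 : ℝ := c / 2 with hc2
  have hc20 : 0 < c2 := by positivity
  set C2 : ℝ := C / c2 + B * (1 + a0 ^ 2) * Real.exp (c2 * a0) with hC2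
  have hC20 : 0 ≤ C2 := by rw [hC2]; positivity
  have hlow0 : ∀ y, a0 ≤ y → -(C2 * Real.exp (-(c2 * y))) ≤ H y := by
    intro y hy
    have hy0 : 0 < y := lt_of_lt_of_le ha0 hy
    have h1 := hyp y hy
    simp only [hH]
    rw [dE_pos hneg hy0]
    have h2 : s * (y * (A' y - AG y)) = y * (s * (A' y - AG y)) := by ring
    rw [h2]
    have h3 : y * -(C * Real.exp (-(c * y))) ≤ y * (s * (A' y - AG y)) :=
      mul_le_mul_of_nonneg_left h1 hy0.le
    refine le_trans ?_ h3
    have h4 : c2 * y ≤ Real.exp (c2 * y) := by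
      have := Real.add_one_le_exp (c2 * y)
      linarith
    have h5 : Real.exp (-(c * y)) = Real.exp (-(c2 * y)) * Real.exp (-(c2 * y)) := by
      rw [← Real.exp_add]
      congr 1
      rw [hc2]
      ring
    have h6 : y * Real.exp (-(c2 * y)) ≤ 1 / c2 := by
      rw [le_div_iff₀ hc20]
      have h7 : Real.exp (c2 * y) * Real.exp (-(c2 * y)) = 1 := by
        rw [← Real.exp_add]; simp
      have h8 := Real.exp_pos (-(c2 * y))
      nlinarith
    have h9 : 0 ≤ B * (1 + a0 ^ 2) * Real.exp (c2 * a0) * Real.exp (-(c2 * y)) := by positivity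
    have h10 : y * (C * Real.exp (-(c * y))) ≤ C / c2 * Real.exp (-(c2 * y)) := by
      rw [h5]
      calc y * (C * (Real.exp (-(c2 * y)) * Real.exp (-(c2 * y)))) =
            C * (y * Real.exp (-(c2 * y))) * Real.exp (-(c2 * y)) := by ring
        _ ≤ C * (1 / c2) * Real.exp (-(c2 * y)) := by gcongr
        _ = _ := by ring
    rw [hC2]
    nlinarith
  have hlow : ∀ᵐ y, -(C2 * Real.exp (-(c2 * |y|))) ≤ H y := by
    refine Filter.Eventually.of_forall fun y => ?_
    by_cases hyR : a0 ≤ |y|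
    · have h1 := hlow0 |y| hyR
      rcases abs_cases y with ⟨h2, _⟩ | ⟨h2, _⟩
      · rw [h2] at h1 ⊢
        exact h1
      · rw [h2] at h1 ⊢
        rw [hHe] at h1
        exact h1
    · push Not at hyR
      have h1 := neg_abs_le (H y)
      have h2 := hHb y
      have h3 : B * (1 + y ^ 2) ≤ B * (1 + a0 ^ 2) := by
        refine mul_le_mul_of_nonneg_left ?_ hB0
        have : y ^ 2 ≤ a0 ^ 2 := by
          rw [← sq_abs]
          exact pow_le_pow_left₀ (abs_nonneg _) hyR.le 2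
        linarith
      have h4 : 1 ≤ Real.exp (c2 * a0) * Real.exp (-(c2 * |y|)) := by
        rw [← Real.exp_add]
        refine Real.one_le_exp ?_
        nlinarith
      have h5 : B * (1 + a0 ^ 2) ≤ C2 * Real.exp (-(c2 * |y|)) := by
        rw [hC2]
        have h6 : 0 ≤ C / c2 * Real.exp (-(c2 * |y|)) := by positivity
        have h7 : B * (1 + a0 ^ 2) * 1 ≤ B * (1 + a0 ^ 2) * (Real.exp (c2 * a0) *
            Real.exp (-(c2 * |y|))) := mul_le_mul_of_nonneg_left h4 (by positivity)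
        nlinarith
      linarith
  have hz : ∀ K, TK κ K → ∫ y, H y * ct K y = 0 := by
    intro K hK
    have h1 := x_annih hκ hA' hb hm hK
    have h2 : ∫ y, H y * ct K y = s * ∫ y, (y * dE A' y) * ct K y := by
      rw [← integral_const_mul]
      refine integral_congr_ae (Filter.Eventually.of_forall fun y => ?_)
      show s * (y * dE A' y) * ct K y = _
      ring
    rw [h2, h1, mul_zero]
  have hfin := high_pass hκ hHm hHe hHb hC20 hc20 hlow hz
  have h0 : ∀ᵐ t : ℝ, t ≠ 0 := by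
    rw [ae_iff]
    simp
  filter_upwards [hfin, h0] with y hy hy0
  have hs0 : s ≠ 0 := by rcases hs with rfl | rfl <;> norm_num
  have h1 := (mul_eq_zero.1 hy).resolve_left hs0
  exact (mul_eq_zero.1 h1).resolve_left hy0

end Pool.Agent.J4H67.OS
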