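import Pool.Agent.J4H67.OS.R2

/-! One-sided bounds far out are enough, along a filter. -/

open MeasureTheory Filter Topology Real Set
open scoped ContDiff

namespace Pool.Agent.J4H67.OS

open Pool.Agent.Y744 Pool.Agent.Results.MP_103a5c_nt.BohrSetPairs

/-- **One-sided bounds for large distances, up to exponentially small errors, are enough** -/
theorem far (RH : RiemannHypothesis) {l : Filter ℝ} (hl : l ≤ atTop) {s C c a0 : ℝ}
    (hs : s = 1 ∨ s = -1) (hC : 0 ≤ C) (hc : 0 < c) (ha0 : 0 < a0)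
    (hyp : ∀ a, a0 ≤ a → ∀ ε, 0 < ε → ∀ᶠ T in l,
      -(C * Real.exp (-(c * a))) - ε ≤ s * (Aa T a - AG a)) :
    ∀ x, Tendsto (fun T => Aa T x) l (𝓝 (AG x)) := by
  obtain ⟨C0, T0, hT0, hb⟩ := Aa_bound RH
  have hmono : ∀ T, T0 ≤ T → Monotone (Aa T) := fun T hT => Aa_mono (by linarith)
  have hmont : ∀ K, TK (1 / 2) K → ∀ h, 0 < h →
      Tendsto (fun T => ∫ y, Aa T y * (ct K (y + h) - ct K (y - h))) atTop
        (𝓝 (∫ y, AG y * (ct K (y + h) - ct K (y - h)))) := by
    intro K hK h hh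
    have h1 := (mont_lim RH (NTf_fav hK (by norm_num) (by norm_num) hh)).neg
    rw [AG_mont hK (by norm_num) hh]
    refine h1.congr fun T => ?_
    rw [Aa_int hK hh]
    rw [div_eq_inv_mul]
  intro x
  rw [tendsto_iff_ultrafilter]
  intro g hg
  have hgt : (g : Filter ℝ) ≤ atTop := hg.trans hl
  have hT : ∀ᶠ T in (g : Filter ℝ), T0 ≤ T := hgt (eventually_ge_atTop _)
  have hex : ∀ y, ∃ L, Tendsto (fun T => Aa T y) (g : Filter ℝ) (𝓝 L) := by
    intro y
    have h1 : ((g.map fun T => Aa T y : Ultrafilter ℝ) : Filter ℝ) ≤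
        𝓟 (Set.Icc (-(C0 * (1 + y ^ 2))) (C0 * (1 + y ^ 2))) := by
      rw [le_principal_iff]
      have h2 : ∀ᶠ T in (g : Filter ℝ), Aa T y ∈
          Set.Icc (-(C0 * (1 + y ^ 2))) (C0 * (1 + y ^ 2)) := by
        filter_upwards [hT] with T hT1
        exact abs_le.1 (hb T hT1 y)
      exact h2
    obtain ⟨L, _, hL⟩ := isCompact_Icc.ultrafilter_le_nhds _ h1
    exact ⟨L, hL⟩
  choose A' hlim using hex
  have hA' : Monotone A' := by
    intro a b hab
    refine le_of_tendsto_of_tendsto (hlim a) (hlim b) ?_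
    filter_upwards [hT] with T hT1 using hmono T hT1 hab
  have hneg' : ∀ y, y < 0 → A' y = 0 := by
    intro y hy
    refine tendsto_nhds_unique (hlim y) ?_
    have : (fun T => Aa T y) = fun _ => 0 := funext fun T => Aa_neg T y hy
    rw [this]
    exact tendsto_const_nhds
  have hb' : ∀ y, |A' y| ≤ C0 * (1 + y ^ 2) := by
    intro y
    refine le_of_tendsto (hlim y).abs ?_
    filter_upwards [hT] with T hT1 using hb T hT1 y
  have h0 : 1 ≤ A' 0 := by
    refine le_of_forall_pos_le_add fun ε hε => ?_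
    have h1 : ∀ᶠ T in (g : Filter ℝ), 1 - ε ≤ Aa T 0 := hgt (Aa_diag hε)
    have := ge_of_tendsto (hlim 0) h1
    linarith
  have hlin : ∀ y, 0 ≤ y → A' y ≤ π ^ 2 * (1 + y) := by
    intro y hy
    have hL : Tendsto (fun T => (1 - (π * y / Real.log T) ^ 2) * Aa T y) (g : Filter ℝ)
        (𝓝 (A' y)) := by
      have h1 : Tendsto (fun T => π * y / Real.log T) (g : Filter ℝ) (𝓝 0) :=
        (Real.tendsto_log_atTop.mono_left hgt).const_div_atTop _
      have h2 := ((h1.pow 2).const_sub 1).mul (hlim y)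
      simpa using h2
    refine le_of_tendsto hL ?_
    filter_upwards [hgt (Bw_dom RH), hT] with T h1 hT1
    exact (Aa_le (by linarith) hy).trans (h1 y hy)
  have hm : ∀ K, TK (1 / 2) K → ∀ h, 0 < h →
      ∫ y, A' y * (ct K (y + h) - ct K (y - h)) = ∫ y, AG y * (ct K (y + h) - ct K (y - h)) := by
    intro K hK h hh
    obtain ⟨D, hD⟩ := test_decay hK h
    refine lim_int hmono hb ?_ hD (hmont K hK h hh) hgt hA' hlim
    exact (hK.ct_cont.measurable.comp (by fun_prop)).sub (hK.ct_cont.measurable.comp (by fun_prop))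
  have hcond : ∀ a, a0 ≤ a → -(C * Real.exp (-(c * a))) ≤ s * (A' a - AG a) := by
    intro a ha
    refine le_of_forall_pos_le_add fun ε hε => ?_
    have h4 : ∀ᶠ T in (g : Filter ℝ), -(C * Real.exp (-(c * a))) - ε ≤ s * (Aa T a - AG a) :=
      hg (hyp a ha ε hε)
    have h5 : Tendsto (fun T => s * (Aa T a - AG a)) (g : Filter ℝ) (𝓝 (s * (A' a - AG a))) :=
      ((hlim _).sub_const _).const_mul _
    have h6 := ge_of_tendsto h5 h4
    linarith
  have hz := far_zero (κ := 1 / 2) (by norm_num) hA' hneg' hb' hlin (by positivity) hm hs hC hc ha0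
    hcond
  have hshift : ∀ r : ℝ, ∀ᵐ x, dE A' (x + r) = dE A' x := by
    intro r
    have h2 := (measurePreserving_add_right (volume : Measure ℝ) r).quasiMeasurePreserving.ae hz
    filter_upwards [hz, h2] with x h3 h4
    rw [h3, h4]
  have hirr : Irrational (Real.sqrt 2 / 1) := by
    rw [div_one]
    exact irrational_sqrt_two
  have := limit_eq hA' hneg' hb' h0 hirr (hshift _) (hshift _) x
  rw [← this]
  exact hlim x

/-- the two forms of the expected limit -/
lemma ng_eq {t : ℝ} (ht : 0 ≤ t) : ng t = AG t := by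
  unfold ng AG
  rw [if_neg (by linarith)]
  have hgd : ∀ᵐ u : ℝ, wg u = gd u := by
    have h0 : ∀ᵐ u : ℝ, u ≠ 0 := by
      rw [ae_iff]
      simp
    filter_upwards [h0] with u hu
    unfold wg fs gd
    rw [Real.sinc_of_ne_zero (mul_ne_zero Real.pi_ne_zero hu)]
  have e1 : ∫ u in (-t)..t, wg u = ∫ u in (-t)..t, gd u := by
    refine intervalIntegral.integral_congr_ae ?_
    filter_upwards [hgd] with u hu _
    exact hu
  have e2 : ∫ u in (-t)..t, gd u = 2 * ∫ u in (0 : ℝ)..t, gd u :=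
    even_int gd_cont (fun u => by
      unfold gd
      rw [mul_neg, Real.sinc_neg]) t
  rw [e1, e2]
  rfl

/-- convergence of the weighted counts -/
lemma Bw_of_Aa {l : Filter ℝ} (hl : l ≤ atTop) {t : ℝ} (ht : 0 ≤ t) {L : ℝ}
    (h : Tendsto (fun T => Aa T t) l (𝓝 L)) : Tendsto (fun T => Bw T t) l (𝓝 L) := by
  have h1 : Tendsto (fun T => (1 - (π * t / Real.log T) ^ 2) * Aa T t) l (𝓝 L) := by
    have h1 : Tendsto (fun T => π * t / Real.log T) l (𝓝 0) :=
      (Real.tendsto_log_atTop.mono_left hl).const_div_atTop _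
    have h2 := ((h1.pow 2).const_sub 1).mul h
    simpa using h2
  refine tendsto_of_tendsto_of_tendsto_of_le_of_le' h1 h ?_ ?_
  · filter_upwards [hl (eventually_gt_atTop 1)] with T hT
    exact Aa_le hT ht
  · filter_upwards [hl (eventually_gt_atTop 1)] with T hT
    exact Bw_le hT t

end Pool.Agent.J4H67.OS
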