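import Pool.Agent.J4H67.OS.E

/-! The second primitive of Montgomery's function: a positive definite second difference. -/

open MeasureTheory Filter Topology Real

namespace Pool.Agent.J4H67.OS

open H370 TH803TW Pool.Agent.Y744 Pool.Agent.Results.MP_103a5c_nt.BohrSetPairs

/-- `∫_0^x (x - a) cos (θ a) da` -/
noncomputable def Cc (θ x : ℝ) : ℝ := ∫ a in (0 : ℝ)..x, (x - a) * Real.cos (θ * a)

lemma Cc_zero (x : ℝ) : Cc 0 x = x ^ 2 / 2 := by
  unfold Cc
  simp only [zero_mul, Real.cos_zero, mul_one]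
  rw [intervalIntegral.integral_sub (by simp) (by exact continuous_id.intervalIntegrable _ _)]
  simp only [intervalIntegral.integral_const, integral_id, smul_eq_mul]
  ring

lemma Cc_ne {θ : ℝ} (hθ : θ ≠ 0) (x : ℝ) : Cc θ x = (1 - Real.cos (θ * x)) / θ ^ 2 := by
  unfold Cc
  have hd : ∀ u ∈ Set.uIcc (0 : ℝ) x, HasDerivAt
      (fun u => (x - u) * (Real.sin (θ * u) / θ) - Real.cos (θ * u) / θ ^ 2)
      ((x - u) * Real.cos (θ * u)) u := by
    intro u _
    have h1 : HasDerivAt (fun u : ℝ => θ * u) θ u := by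
      simpa using (hasDerivAt_id u).const_mul θ
    have h2 : HasDerivAt (fun u : ℝ => x - u) (-1) u := by
      simpa using (hasDerivAt_id u).const_sub x
    have h3 := (h2.mul (h1.sin.div_const θ)).sub (h1.cos.div_const (θ ^ 2))
    have e : -1 * (Real.sin (θ * u) / θ) + (x - u) * (Real.cos (θ * u) * θ / θ) -
        -Real.sin (θ * u) * θ / θ ^ 2 = (x - u) * Real.cos (θ * u) := by
      field_simp
      ring
    rw [e] at h3
    exact h3
  rw [intervalIntegral.integral_eq_sub_of_hasDerivAt hd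
    ((by fun_prop : Continuous fun u : ℝ => (x - u) * Real.cos (θ * u)).intervalIntegrable _ _)]
  simp
  ring

lemma Cc_even (θ x : ℝ) : Cc θ (-x) = Cc θ x := by
  rcases eq_or_ne θ 0 with rfl | h
  · rw [Cc_zero, Cc_zero]; ring
  · rw [Cc_ne h, Cc_ne h, mul_neg, Real.cos_neg]

lemma Cc_nonneg (θ x : ℝ) : 0 ≤ Cc θ x := by
  rcases eq_or_ne θ 0 with rfl | h
  · rw [Cc_zero]; positivity
  · rw [Cc_ne h]
    have := Real.cos_le_one (θ * x)
    exact div_nonneg (by linarith) (by positivity)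

lemma Cc_le (θ x : ℝ) : Cc θ x ≤ x ^ 2 / 2 := by
  rcases eq_or_ne θ 0 with rfl | h
  · rw [Cc_zero]
  · rw [Cc_ne h, div_le_iff₀ (by positivity)]
    have := Real.one_sub_sq_div_two_le_cos (x := θ * x)
    nlinarith

/-- the second difference -/
lemma Cc_diff (θ x h : ℝ) : Cc θ (x + h) - 2 * Cc θ x + Cc θ (x - h) =
    2 * Cc θ h * Real.cos (θ * x) := by
  rcases eq_or_ne θ 0 with rfl | hθ
  · rw [Cc_zero, Cc_zero, Cc_zero, Cc_zero, zero_mul, Real.cos_zero]; ring
  · rw [Cc_ne hθ, Cc_ne hθ, Cc_ne hθ, Cc_ne hθ, mul_add, mul_sub, Real.cos_add, Real.cos_sub]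
    field_simp
    ring

/-- the second primitive of Montgomery's function -/
noncomputable def ST (T x : ℝ) : ℝ := (Xf T)⁻¹ * ∑ s ∈ Zt T, ∑ s' ∈ Zt T,
  mz s * mz s' * (W (s.im - s'.im) * Cc (Real.log T * (s.im - s'.im)) x)

lemma ST_int (T x : ℝ) : ST T x = ∫ α in (0 : ℝ)..x, (x - α) * Fr T α := by
  rw [Fr_int T 0 x (ψ := fun α => x - α) (by fun_prop)]
  rfl

lemma ST_even (T x : ℝ) : ST T (-x) = ST T x := by
  unfold ST
  simp_rw [Cc_even]

lemma ST_zero (T : ℝ) : ST T 0 = 0 := by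
  rw [ST_int]; simp

lemma ST_nonneg {T : ℝ} (hT : 1 < T) (x : ℝ) : 0 ≤ ST T x := by
  unfold ST
  refine mul_nonneg (inv_nonneg.2 (Xf_pos hT).le) (Finset.sum_nonneg fun s _ =>
    Finset.sum_nonneg fun s' _ => ?_)
  exact mul_nonneg (mul_nonneg (mz_nonneg _) (mz_nonneg _))
    (mul_nonneg (W_nonneg _) (Cc_nonneg _ _))

lemma ST_diff (T x h : ℝ) : ST T (x + h) - 2 * ST T x + ST T (x - h) =
    (Xf T)⁻¹ * ∑ s ∈ Zt T, ∑ s' ∈ Zt T, mz s * mz s' * (W (s.im - s'.im) *
      (2 * Cc (Real.log T * (s.im - s'.im)) h * Real.cos (Real.log T * (s.im - s'.im) * x))) := by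
  unfold ST
  simp_rw [← Cc_diff]
  rw [mul_left_comm 2, ← mul_sub, ← mul_add]
  congr 1
  rw [Finset.mul_sum, ← Finset.sum_sub_distrib, ← Finset.sum_add_distrib]
  refine Finset.sum_congr rfl fun s _ => ?_
  rw [Finset.mul_sum, ← Finset.sum_sub_distrib, ← Finset.sum_add_distrib]
  refine Finset.sum_congr rfl fun s' _ => ?_
  ring

/-- a sum of cosines of differences is nonnegative -/
lemma cos_psd {ι : Type} (I : Finset ι) (c x : ι → ℝ) (θ : ℝ) :
    ∑ i ∈ I, ∑ j ∈ I, c i * c j * Real.cos (θ * (x i - x j)) =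
      (∑ i ∈ I, c i * Real.cos (θ * x i)) ^ 2 + (∑ i ∈ I, c i * Real.sin (θ * x i)) ^ 2 := by
  rw [sq, sq, Finset.sum_mul_sum, Finset.sum_mul_sum, ← Finset.sum_add_distrib]
  refine Finset.sum_congr rfl fun i _ => ?_
  rw [← Finset.sum_add_distrib]
  refine Finset.sum_congr rfl fun j _ => ?_
  rw [mul_sub, Real.cos_sub]
  ring

lemma sum4 {ι κ : Type} (I : Finset ι) (K : Finset κ) (f : ι → ι → κ → κ → ℝ) :
    ∑ i ∈ I, ∑ j ∈ I, ∑ s ∈ K, ∑ s' ∈ K, f i j s s' =
      ∑ s ∈ K, ∑ s' ∈ K, ∑ i ∈ I, ∑ j ∈ I, f i j s s' := by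
  have h1 : ∀ i ∈ I, ∑ j ∈ I, ∑ s ∈ K, ∑ s' ∈ K, f i j s s' =
      ∑ s ∈ K, ∑ s' ∈ K, ∑ j ∈ I, f i j s s' := by
    intro i _
    rw [Finset.sum_comm]
    exact Finset.sum_congr rfl fun s _ => Finset.sum_comm
  rw [Finset.sum_congr rfl h1, Finset.sum_comm]
  exact Finset.sum_congr rfl fun s _ => Finset.sum_comm

/-- **positivity** -/
lemma ST_psd {T : ℝ} (hT : 1 < T) {ι : Type} (I : Finset ι) (c x : ι → ℝ) (h : ℝ) :
    h ^ 2 * Aa T 0 * (∑ i ∈ I, c i) ^ 2 ≤ ∑ i ∈ I, ∑ j ∈ I, c i * c j *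
      (ST T (x i - x j + h) - 2 * ST T (x i - x j) + ST T (x i - x j - h)) := by
  have hX := Xf_pos hT
  have hL := Real.log_pos hT
  have hpi := Real.pi_pos
  have e : ∑ i ∈ I, ∑ j ∈ I, c i * c j *
      (ST T (x i - x j + h) - 2 * ST T (x i - x j) + ST T (x i - x j - h)) =
      (Xf T)⁻¹ * ∑ s ∈ Zt T, ∑ s' ∈ Zt T, mz s * mz s' * (W (s.im - s'.im) *
        (2 * Cc (Real.log T * (s.im - s'.im)) h *
          ∑ i ∈ I, ∑ j ∈ I, c i * c j * Real.cos (Real.log T * (s.im - s'.im) * (x i - x j)))) := by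
    simp_rw [ST_diff, Finset.mul_sum]
    rw [sum4]
    refine Finset.sum_congr rfl fun s _ => Finset.sum_congr rfl fun s' _ =>
      Finset.sum_congr rfl fun i _ => Finset.sum_congr rfl fun j _ => ?_
    ring
  rw [e]
  unfold Aa PC
  have e2 : h ^ 2 * ((Xf T)⁻¹ * ∑ s ∈ Zt T, ∑ s' ∈ Zt T, mz s * mz s' *
      Set.indicator {x : ℝ | |x| ≤ 0} (fun _ => (1 : ℝ)) (dd T s s')) * (∑ i ∈ I, c i) ^ 2 =
      (Xf T)⁻¹ * ∑ s ∈ Zt T, ∑ s' ∈ Zt T, mz s * mz s' *
      (h ^ 2 * (∑ i ∈ I, c i) ^ 2 *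
        Set.indicator {x : ℝ | |x| ≤ 0} (fun _ => (1 : ℝ)) (dd T s s')) := by
    rw [mul_left_comm, mul_assoc, Finset.mul_sum, Finset.sum_mul]
    congr 1
    refine Finset.sum_congr rfl fun s _ => ?_
    rw [Finset.mul_sum, Finset.sum_mul]
    refine Finset.sum_congr rfl fun s' _ => ?_
    ring
  rw [e2]
  refine mul_le_mul_of_nonneg_left ?_ (inv_nonneg.2 hX.le)
  refine Finset.sum_le_sum fun s _ => Finset.sum_le_sum fun s' _ => ?_
  have hm : 0 ≤ mz s * mz s' := mul_nonneg (mz_nonneg _) (mz_nonneg _)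
  refine mul_le_mul_of_nonneg_left ?_ hm
  rw [cos_psd]
  by_cases h0 : s.im - s'.im = 0
  · rw [h0, mul_zero, Cc_zero, W_zero]
    have : Set.indicator {x : ℝ | |x| ≤ 0} (fun _ => (1 : ℝ)) (dd T s s') ≤ 1 :=
      Set.indicator_le' (fun _ _ => le_rfl) (fun _ _ => zero_le_one) _
    simp only [zero_mul, Real.cos_zero, Real.sin_zero, mul_one, mul_zero, Finset.sum_const_zero,
      one_mul]
    have h1 : 0 ≤ h ^ 2 * (∑ i ∈ I, c i) ^ 2 := by positivity
    nlinarith
  · rw [Set.indicator_of_notMem, mul_zero]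
    · refine mul_nonneg (W_nonneg _) (mul_nonneg (mul_nonneg (by norm_num) (Cc_nonneg _ _)) ?_)
      positivity
    · show ¬ |dd T s s'| ≤ 0
      rw [not_le, abs_pos]
      unfold dd
      have := hL.ne'
      positivity

/-- `S_T` at a multiple -/
lemma Cc_mul (θ h : ℝ) (n : ℕ) : Cc θ (n * h) ≤ (n : ℝ) ^ 2 * Cc θ h := by
  rcases eq_or_ne θ 0 with rfl | hθ
  · rw [Cc_zero, Cc_zero]
    apply le_of_eq
    ring
  · rw [Cc_ne hθ, Cc_ne hθ, mul_div_assoc']
    refine div_le_div_of_nonneg_right ?_ (by positivity)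
    have e1 : ∀ x : ℝ, 1 - Real.cos x = 2 * Real.sin (x / 2) ^ 2 := by
      intro x
      have := Real.cos_sq (x / 2)
      have h2 := Real.sin_sq_add_cos_sq (x / 2)
      rw [show 2 * (x / 2) = x by ring] at this
      linarith
    rw [e1, e1, show θ * (n * h) / 2 = n * (θ * h / 2) by ring]
    have h2 : |Real.sin (n * (θ * h / 2))| ≤ n * |Real.sin (θ * h / 2)| := by
      generalize θ * h / 2 = y
      induction n with
      | zero => simp
      | succ n ih =>
        have e : ((n + 1 : ℕ) : ℝ) * y = n * y + y := by push_cast; ring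
        rw [e, Real.sin_add]
        calc |Real.sin (n * y) * Real.cos y + Real.cos (n * y) * Real.sin y| ≤
            |Real.sin (n * y) * Real.cos y| + |Real.cos (n * y) * Real.sin y| := abs_add_le _ _
          _ ≤ |Real.sin (n * y)| * 1 + 1 * |Real.sin y| := by
              rw [abs_mul, abs_mul]
              gcongr
              · exact Real.abs_cos_le_one _
              · exact Real.abs_cos_le_one _
          _ ≤ _ := by
              push_cast
              linarith
    have h3 := pow_le_pow_left₀ (abs_nonneg _) h2 2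
    rw [sq_abs, mul_pow, sq_abs] at h3
    linarith

lemma ST_mul {T : ℝ} (hT : 1 < T) (h : ℝ) (n : ℕ) : ST T (n * h) ≤ (n : ℝ) ^ 2 * ST T h := by
  unfold ST
  rw [mul_left_comm]
  refine mul_le_mul_of_nonneg_left ?_ (inv_nonneg.2 (Xf_pos hT).le)
  rw [Finset.mul_sum]
  refine Finset.sum_le_sum fun s _ => ?_
  rw [Finset.mul_sum]
  refine Finset.sum_le_sum fun s' _ => ?_
  have hm : 0 ≤ mz s * mz s' := mul_nonneg (mz_nonneg _) (mz_nonneg _)
  have hW := W_nonneg (s.im - s'.im)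
  have h1 := mul_le_mul_of_nonneg_left (Cc_mul (Real.log T * (s.im - s'.im)) h n)
    (mul_nonneg hm hW)
  calc _ = mz s * mz s' * W (s.im - s'.im) * Cc (Real.log T * (s.im - s'.im)) (n * h) := by ring
    _ ≤ _ := h1
    _ = _ := by ring

/-- the first primitive -/
noncomputable def MT (T x : ℝ) : ℝ := ∫ α in (0 : ℝ)..x, Fr T α

lemma MT_cont (T : ℝ) : Continuous (MT T) :=
  intervalIntegral.continuous_primitive (fun _ _ => (Fr_cont T).intervalIntegrable _ _) 0

lemma MT_eq (T x : ℝ) : G T x = 2 * MT T x := by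
  unfold G MT
  exact even_int (Fr_cont T) (Fr_even T) x

lemma ST_prim (T x : ℝ) : ST T x = ∫ t in (0 : ℝ)..x, MT T t := by
  rw [ST_int]
  have hd : ∀ u ∈ Set.uIcc (0 : ℝ) x, HasDerivAt (fun u => (x - u) * MT T u) 
      ((x - u) * Fr T u - MT T u) u := by
    intro u _
    have h1 : HasDerivAt (fun u : ℝ => x - u) (-1) u := by
      simpa using (hasDerivAt_id u).const_sub x
    have h2 : HasDerivAt (MT T) (Fr T u) u :=
      intervalIntegral.integral_hasDerivAt_right ((Fr_cont T).intervalIntegrable _ _)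
        ((Fr_cont T).stronglyMeasurableAtFilter _ _) (Fr_cont T).continuousAt
    have h3 := h1.mul h2
    have e : -1 * MT T u + (x - u) * Fr T u = (x - u) * Fr T u - MT T u := by ring
    rw [e] at h3
    exact h3
  have hc1 : Continuous fun u => (x - u) * Fr T u := (by fun_prop : Continuous fun u : ℝ => x - u).mul (Fr_cont T)
  have h1 := intervalIntegral.integral_eq_sub_of_hasDerivAt hd
    ((hc1.sub (MT_cont T)).intervalIntegrable _ _)
  rw [intervalIntegral.integral_sub (hc1.intervalIntegrable _ _)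
    ((MT_cont T).intervalIntegrable _ _)] at h1
  have e0 : MT T 0 = 0 := by unfold MT; simp
  rw [e0, sub_self] at h1
  linarith

lemma ST_sub (T x y : ℝ) : ST T y - ST T x = ∫ t in x..y, MT T t := by
  rw [ST_prim, ST_prim, ← intervalIntegral.integral_add_adjacent_intervals (a := 0) (b := x) (c := y)
    ((MT_cont T).intervalIntegrable _ _) ((MT_cont T).intervalIntegrable _ _)]
  ring

lemma MT_mono (RH : RiemannHypothesis) {T : ℝ} (hT : 1 < T) : Monotone (MT T) := by
  intro x y hxy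
  unfold MT
  rw [← intervalIntegral.integral_add_adjacent_intervals (a := 0) (b := x) (c := y)
    ((Fr_cont T).intervalIntegrable _ _) ((Fr_cont T).intervalIntegrable _ _)]
  have := intervalIntegral.integral_nonneg (μ := volume) hxy fun α _ => Fr_nonneg RH hT α
  linarith

/-- the expected limit of `S_T` -/
noncomputable def SG (x : ℝ) : ℝ := ∫ t in (0 : ℝ)..x, (1 / 2 + ∫ a in (0 : ℝ)..t, mm a)

lemma mmI_small {t : ℝ} (ht : 0 ≤ t) (ht1 : t ≤ 1) : ∫ a in (0 : ℝ)..t, mm a = t ^ 2 / 2 := by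
  rw [mm_win ht ht1]; ring

lemma mmI_large {t : ℝ} (ht1 : 1 ≤ t) : ∫ a in (0 : ℝ)..t, mm a = t - 1 / 2 := by
  rw [← intervalIntegral.integral_add_adjacent_intervals (a := 0) (b := 1) (c := t)
    (mm_cont.intervalIntegrable _ _) (mm_cont.intervalIntegrable _ _), mmI_small zero_le_one le_rfl]
  have e : ∫ a in (1 : ℝ)..t, mm a = ∫ a in (1 : ℝ)..t, (1 : ℝ) := by
    refine intervalIntegral.integral_congr fun α hα => ?_
    rw [Set.uIcc_of_le ht1] at hα
    exact min_eq_right hα.1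
  rw [e]
  simp
  ring

lemma mmI_cont : Continuous fun t : ℝ => 1 / 2 + ∫ a in (0 : ℝ)..t, mm a :=
  continuous_const.add
    (intervalIntegral.continuous_primitive (fun _ _ => mm_cont.intervalIntegrable _ _) 0)

lemma SG_small {x : ℝ} (hx : 0 ≤ x) (hx1 : x ≤ 1) : SG x = x / 2 + x ^ 3 / 6 := by
  unfold SG
  have e : ∫ t in (0 : ℝ)..x, (1 / 2 + ∫ a in (0 : ℝ)..t, mm a) =
      ∫ t in (0 : ℝ)..x, (1 / 2 + t ^ 2 / 2) := by
    refine intervalIntegral.integral_congr fun t ht => ?_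
    rw [Set.uIcc_of_le hx] at ht
    show 1 / 2 + ∫ a in (0 : ℝ)..t, mm a = _
    rw [mmI_small ht.1 (ht.2.trans hx1)]
  rw [e, intervalIntegral.integral_add (by simp) (by
    exact (by fun_prop : Continuous fun t : ℝ => t ^ 2 / 2).intervalIntegrable _ _)]
  simp only [intervalIntegral.integral_const, intervalIntegral.integral_div, integral_pow]
  simp
  ring

lemma SG_large {x : ℝ} (hx1 : 1 ≤ x) : SG x = x ^ 2 / 2 + 1 / 6 := by
  have h1 := SG_small zero_le_one le_rfl
  unfold SG at h1 ⊢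
  rw [← intervalIntegral.integral_add_adjacent_intervals (a := 0) (b := 1) (c := x)
    (mmI_cont.intervalIntegrable _ _) (mmI_cont.intervalIntegrable _ _), h1]
  have e : ∫ t in (1 : ℝ)..x, (1 / 2 + ∫ a in (0 : ℝ)..t, mm a) = ∫ t in (1 : ℝ)..x, t := by
    refine intervalIntegral.integral_congr fun t ht => ?_
    rw [Set.uIcc_of_le hx1] at ht
    show 1 / 2 + ∫ a in (0 : ℝ)..t, mm a = _
    rw [mmI_large ht.1]
    ring
  rw [e, integral_id]
  ring

lemma SG_zero : SG 0 = 0 := by unfold SG; simp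

lemma SG_sub (x y : ℝ) : SG y - SG x = ∫ t in x..y, (1 / 2 + ∫ a in (0 : ℝ)..t, mm a) := by
  unfold SG
  rw [← intervalIntegral.integral_add_adjacent_intervals (a := 0) (b := x) (c := y)
    (mmI_cont.intervalIntegrable _ _) (mmI_cont.intervalIntegrable _ _)]
  ring

/-- the limit of `S_T` on `[0, 1)`: Montgomery's theorem -/
lemma ST_lim (RH : RiemannHypothesis) {x : ℝ} (hx : 0 ≤ x) (hx1 : x < 1) :
    Tendsto (fun T => ST T x) atTop (𝓝 (SG x)) := by
  have h1 : ∀ c ∈ Set.Ioo (0 : ℝ) 1, Tendsto (fun T => MT T c) atTop (𝓝 (1 / 2 + c ^ 2 / 2)) := by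
    intro c hc
    rw [Metric.tendsto_nhds]
    intro ε hε
    filter_upwards [GU_lt RH hc.1 hc.2 ε hε, GL_lt RH hc.1 hc.2 hε] with T h2 h3
    rw [MT_eq] at h2 h3
    rw [Real.dist_eq, abs_lt]
    constructor <;> linarith
  simp_rw [ST_prim]
  unfold SG
  rcases eq_or_lt_of_le hx with rfl | hx0
  · simp
  refine intervalIntegral.tendsto_integral_filter_of_dominated_convergence (fun _ => 2) ?_ ?_ ?_ ?_
  · filter_upwards with T
    exact (MT_cont T).aestronglyMeasurable
  · filter_upwards [(h1 x ⟨hx0, hx1⟩).eventually_le_const (show 1 / 2 + x ^ 2 / 2 < 2 by nlinarith),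
      eventually_gt_atTop 1] with T h2 hT
    refine Filter.Eventually.of_forall fun t ht => ?_
    rw [Set.uIoc_of_le hx] at ht
    have hm := MT_mono RH hT
    have h3 : 0 ≤ MT T t := by
      have := hm ht.1.le
      have e0 : MT T 0 = 0 := by unfold MT; simp
      linarith
    rw [Real.norm_eq_abs, abs_of_nonneg h3]
    exact (hm ht.2).trans h2
  · simp
  · refine Filter.Eventually.of_forall fun t ht => ?_
    rw [Set.uIoc_of_le hx] at ht
    rw [mmI_small ht.1.le (ht.2.trans hx1.le)]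
    exact h1 t ⟨ht.1, ht.2.trans_lt hx1⟩

/-- `S_T` is bounded -/
lemma ST_bdd (RH : RiemannHypothesis) (x : ℝ) : ∃ C : ℝ, ∀ᶠ T in atTop, ST T x ≤ C := by
  obtain ⟨n, hn⟩ := exists_nat_gt (2 * |x|)
  have hn0 : (0 : ℝ) < n := lt_of_le_of_lt (by positivity) hn
  have hx : ∀ T, ST T x = ST T (n * (|x| / n)) := by
    intro T
    rw [mul_div_cancel₀ _ hn0.ne']
    rcases abs_choice x with h | h
    · rw [h]
    · rw [h, ST_even]
  have h1 : |x| / n < 1 := by
    rw [div_lt_one hn0]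
    have := abs_nonneg x
    linarith
  refine ⟨(n : ℝ) ^ 2 * (SG (|x| / n) + 1), ?_⟩
  filter_upwards [(ST_lim RH (by positivity : 0 ≤ |x| / n) h1).eventually_le_const
    (show SG (|x| / n) < SG (|x| / n) + 1 by linarith), eventually_gt_atTop 1] with T h2 hT
  rw [hx]
  refine (ST_mul hT _ n).trans ?_
  gcongr

/-- from `S_T` to the windows -/
lemma MT_lim_of_ST (RH : RiemannHypothesis) {l : Filter ℝ} (hl : l ≤ atTop)
    (h : ∀ x : ℝ, 0 ≤ x → Tendsto (fun T => ST T x) l (𝓝 (SG x))) {b : ℝ} (hb : 0 < b) :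
    Tendsto (fun T => MT T b) l (𝓝 (1 / 2 + ∫ a in (0 : ℝ)..b, mm a)) := by
  set g : ℝ → ℝ := fun t => 1 / 2 + ∫ a in (0 : ℝ)..t, mm a with hg
  have hgc : Continuous g := mmI_cont
  rw [Metric.tendsto_nhds]
  intro ε hε
  obtain ⟨δ, hδ, h1⟩ := Metric.continuous_iff.1 hgc b (ε / 2) (by positivity)
  set η : ℝ := min (δ / 2) (b / 2) with hη
  have hη0 : 0 < η := lt_min (by positivity) (by positivity)
  have hηδ : η ≤ δ / 2 := min_le_left _ _
  have hηb : η ≤ b / 2 := min_le_right _ _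
  have hint : ∀ x y : ℝ, x ≤ y → (∀ t ∈ Set.Icc x y, |t - b| ≤ η) →
      (y - x) * (g b - ε / 2) ≤ SG y - SG x ∧ SG y - SG x ≤ (y - x) * (g b + ε / 2) := by
    intro x y hxy ht
    rw [SG_sub]
    have hb1 : ∀ t ∈ Set.Icc x y, |g t - g b| < ε / 2 := by
      intro t hts
      have := h1 t (by rw [Real.dist_eq]; linarith [ht t hts])
      rwa [Real.dist_eq] at this
    have e1 : (y - x) * (g b - ε / 2) = ∫ t in x..y, (g b - ε / 2) := by
      rw [intervalIntegral.integral_const, smul_eq_mul]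
    have e2 : (y - x) * (g b + ε / 2) = ∫ t in x..y, (g b + ε / 2) := by
      rw [intervalIntegral.integral_const, smul_eq_mul]
    rw [e1, e2]
    constructor
    · refine intervalIntegral.integral_mono_on hxy (by simp) (hgc.intervalIntegrable _ _)
        fun t ht => ?_
      have := (abs_lt.1 (hb1 t ht)).1
      show g b - ε / 2 ≤ g t
      linarith
    · refine intervalIntegral.integral_mono_on hxy (hgc.intervalIntegrable _ _) (by simp)
        fun t ht => ?_
      have := (abs_lt.1 (hb1 t ht)).2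
      show g t ≤ g b + ε / 2
      linarith
  have hr := hint b (b + η) (by linarith) fun t ht => by
    rw [abs_le]; constructor <;> linarith [ht.1, ht.2]
  have hlft := hint (b - η) b (by linarith) fun t ht => by
    rw [abs_le]; constructor <;> linarith [ht.1, ht.2]
  have l1 := (h (b + η) (by linarith)).sub (h b hb.le)
  have l2 := (h b hb.le).sub (h (b - η) (by linarith))
  have hκ : 0 < η * (ε / 4) := by positivity
  filter_upwards [l1.eventually_le_const (show SG (b + η) - SG b <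
      SG (b + η) - SG b + η * (ε / 4) by linarith),
    l2.eventually_const_le (show SG b - SG (b - η) - η * (ε / 4) < SG b - SG (b - η) by linarith),
    hl (eventually_gt_atTop 1)] with T h2 h3 hT
  have hm := MT_mono RH hT
  have h4 : η * MT T b ≤ ST T (b + η) - ST T b := by
    rw [ST_sub]
    have e : η * MT T b = ∫ t in b..(b + η), MT T b := by simp
    rw [e]
    exact intervalIntegral.integral_mono_on (by linarith) (by simp)
      ((MT_cont T).intervalIntegrable _ _) fun t ht => hm ht.1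
  have h5 : ST T b - ST T (b - η) ≤ η * MT T b := by
    rw [ST_sub]
    have e : η * MT T b = ∫ t in (b - η)..b, MT T b := by simp
    rw [e]
    exact intervalIntegral.integral_mono_on (by linarith) ((MT_cont T).intervalIntegrable _ _)
      (by simp) fun t ht => hm ht.2
  have h6 : η * MT T b ≤ η * (g b + ε / 2 + ε / 4) := by
    have e1 : b + η - b = η := by ring
    rw [e1] at hr
    linarith [hr.2]
  have h7 : η * (g b - ε / 2 - ε / 4) ≤ η * MT T b := by
    have e1 : b - (b - η) = η := by ring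
    rw [e1] at hlft
    linarith [hlft.1]
  have h8 := le_of_mul_le_mul_left h6 hη0
  have h9 := le_of_mul_le_mul_left h7 hη0
  rw [Real.dist_eq]
  change |MT T b - g b| < ε
  rw [abs_lt]
  constructor <;> linarith

/-- from `S_T` to the windows -/
lemma win_of_ST (RH : RiemannHypothesis) {l : Filter ℝ} (hl : l ≤ atTop)
    (h : ∀ x : ℝ, 0 ≤ x → Tendsto (fun T => ST T x) l (𝓝 (SG x))) {a b : ℝ} (ha : 0 < a)
    (hb : 0 < b) : Tendsto (fun T => ∫ α in a..b, Fr T α) l (𝓝 (∫ α in a..b, mm α)) := by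
  have h1 := (MT_lim_of_ST RH hl h hb).sub (MT_lim_of_ST RH hl h ha)
  have e1 : ∀ T, MT T b - MT T a = ∫ α in a..b, Fr T α := by
    intro T
    unfold MT
    rw [intervalIntegral.integral_interval_sub_left ((Fr_cont T).intervalIntegrable _ _)
      ((Fr_cont T).intervalIntegrable _ _)]
  have e2 : (1 / 2 + ∫ t in (0 : ℝ)..b, mm t) - (1 / 2 + ∫ t in (0 : ℝ)..a, mm t) =
      ∫ α in a..b, mm α := by
    rw [add_sub_add_left_eq_sub, intervalIntegral.integral_interval_sub_left
      (mm_cont.intervalIntegrable _ _) (mm_cont.intervalIntegrable _ _)]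
  rw [e2] at h1
  exact h1.congr e1

end Pool.Agent.J4H67.OS
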